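import Mathlib

/-!
# Braid boxes in link diagrams

A diagram with `n` crossings and `k + 1` gates.  The gates are `k + 1` points of the diagram which
lie side by side in a disc, on `k + 1` vertical strands (oriented in any way); a braid word on
`k + 1` strands is inserted there, letter by letter.
-/

namespace Pool.RU

open LaurentPolynomial

/-- The sites through which the curves of a diagram with `n` crossings and `k + 1` gates run: the
gates `0, ..., k` and the two passages `(x, false)`, `(x, true)` through each crossing `x`.  Every
crossing is drawn in such a way that both passages are monotone: the passage `false` runs from the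
lower left to the upper right, the passage `true` from the lower right to the upper left. -/
abbrev Site (k n : ℕ) : Type := Fin (k + 1) ⊕ Fin n × Bool

/-- The ends of the arcs: `(s, false)` is the lower end of the site `s`, `(s, true)` its upper
end. -/
abbrev Tip (k n : ℕ) : Type := Site k n × Bool

/-- A link diagram with `n` crossings and `k + 1` gates.  The gates and the crossings cut the
diagram into arcs, each of which joins two ends. -/
structure Diagram (k n : ℕ) where
  /-- The kind of a crossing: the sign which it has if both passages are run through upwards. -/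
  kind : Fin n → ℤˣ
  /-- The other end of the arc with a given end. -/
  arc : Tip k n → Tip k n
  arc_arc : ∀ p, arc (arc p) = p
  arc_ne : ∀ p, arc p ≠ p

/-- Three ways to join the four ends at a crossing.  `keep`: the curves go through the two passages.
`along`: the two ends on the left are joined, and so are the two ends on the right.  `turn`: the two
lower ends are joined, and so are the two upper ends. -/
inductive Way
  | keep
  | along
  | turn
  deriving DecidableEq

variable {k n : ℕ}

/-- The end to which an end is joined at its site; at a gate the curve goes through. -/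
def join (c : Fin n → Way) : Tip k n → Tip k n
  | (.inl a, b) => (.inl a, !b)
  | (.inr (x, i), b) => match c x with
    | .keep => (.inr (x, i), !b)
    | .along => (.inr (x, !i), !b)
    | .turn => (.inr (x, !i), b)

namespace Diagram

/-- The number of closed curves when the crossings are replaced by the ways `c`. -/
noncomputable def curves (D : Diagram k n) (c : Fin n → Way) : ℕ :=
  Nat.card (Quot fun p q : Tip k n => q = join c p ∨ q = D.arc p)

/-- The Kauffman bracket `∑ A ^ (#A - #B) (-A² - A⁻²) ^ (curves - 1)`, the sum running over the
states, with `A = T 1`.  The state `s` smooths the crossing `x` in the way `along` if `s x = true`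
and in the way `turn` if `s x = false`; for a crossing of kind `1` the way `along` is the
`A`-smoothing, for a crossing of kind `-1` it is the `B`-smoothing. -/
noncomputable def bracket (D : Diagram k n) : ℤ[T;T⁻¹] :=
  ∑ s : Fin n → Bool, (∏ x, T (if s x then (D.kind x : ℤ) else -(D.kind x : ℤ))) *
    (-T 2 - T (-2)) ^ (D.curves (fun x => if s x then .along else .turn) - 1)

/-- The diagram has one component. -/
def IsKnot (D : Diagram k n) : Prop := D.curves (fun _ => .keep) = 1

/-- An orientation: `o p = true` if the oriented curve leaves the site at the end `p`. -/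
def IsOrientation (D : Diagram k n) (o : Tip k n → Bool) : Prop :=
  (∀ p, o (D.arc p) = !o p) ∧ ∀ p, o (join (fun _ => .keep) p) = !o p

/-- The writhe with respect to an orientation: the sign of a crossing is its kind if its passages
are run through in the same vertical direction, and the opposite otherwise. -/
def writhe (D : Diagram k n) (o : Tip k n → Bool) : ℤ :=
  ∑ x, (D.kind x : ℤ) * if o (.inr (x, false), true) = o (.inr (x, true), true) then 1 else -1

/-- The normalized bracket `f = (-A³) ^ (-writhe) ⟨D⟩`. -/
noncomputable def normalized (D : Diagram k n) (o : Tip k n → Bool) : ℤ[T;T⁻¹] :=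
  C (((-1 : ℤˣ) ^ D.writhe o : ℤˣ) : ℤ) * T (-3 * D.writhe o) * D.bracket

end Diagram

/-- The place of an old end after a new crossing `0` has been added just below the gates `a`,
`a + 1`: the lower end of the gate `a` becomes the lower left end of the new crossing, the lower
end of the gate `a + 1` its lower right end. -/
def shift (a : Fin k) : Tip k n → Tip k (n + 1)
  | (.inl g, true) => (.inl g, true)
  | (.inl g, false) => if g = a.castSucc then (.inr (0, false), false) else
      if g = a.succ then (.inr (0, true), false) else (.inl g, false)
  | (.inr (x, i), b) => (.inr (x.succ, i), b)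

/-- The arcs after the new crossing has been added: the old arcs, and two new arcs from the upper
left end of the new crossing to the gate `a` and from its upper right end to the gate `a + 1`. -/
def pushArc (a : Fin k) (arc : Tip k n → Tip k n) : Tip k (n + 1) → Tip k (n + 1)
  | (.inl g, true) => shift a (arc (.inl g, true))
  | (.inl g, false) => if g = a.castSucc then (.inr (0, true), true) else
      if g = a.succ then (.inr (0, false), true) else shift a (arc (.inl g, false))
  | (.inr (x, i), b) => Fin.cases
      (if b then (.inl (if i then a.castSucc else a.succ), false)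
        else shift a (arc (.inl (if i then a.succ else a.castSucc), false)))
      (fun y => shift a (arc (.inr (y, i), b))) x

theorem push_ne (a : Fin k) : a.succ ≠ a.castSucc := (Fin.castSucc_lt_succ (i := a)).ne'

theorem pushArc_shift (a : Fin k) (arc : Tip k n → Tip k n) (p : Tip k n) :
    pushArc a arc (shift a p) = shift a (arc p) := by
  rcases p with ⟨g | ⟨x, i⟩, b⟩
  · cases b
    · by_cases h1 : g = a.castSucc
      · subst h1
        simp [shift, pushArc]
      · by_cases h2 : g = a.succ
        · subst h2
          simp [shift, pushArc, push_ne a]
        · simp [shift, pushArc, h1, h2]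
    · rfl
  · rfl

theorem pushArc_new (a : Fin k) (arc : Tip k n → Tip k n) (i : Bool) :
    pushArc a arc (.inr (0, i), true) = (.inl (if i then a.castSucc else a.succ), false) := rfl

theorem pushArc_gate (a : Fin k) (arc : Tip k n → Tip k n) (i : Bool) :
    pushArc a arc (.inl (if i then a.castSucc else a.succ), false) = (.inr (0, i), true) := by
  cases i
  · simp [pushArc, push_ne a]
  · simp [pushArc]

/-- Every end is old, or an end of one of the two new arcs. -/
theorem tip_cases (a : Fin k) (p : Tip k (n + 1)) : (∃ q : Tip k n, p = shift a q) ∨
    (∃ i, p = (.inr (0, i), true)) ∨ ∃ i : Bool, p = (.inl (if i then a.castSucc else a.succ), false) := by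
  rcases p with ⟨g | ⟨x, i⟩, b⟩
  · cases b
    · by_cases h1 : g = a.castSucc
      · exact Or.inr (Or.inr ⟨true, by simp [h1]⟩)
      · by_cases h2 : g = a.succ
        · exact Or.inr (Or.inr ⟨false, by simp [h2]⟩)
        · exact Or.inl ⟨(.inl g, false), by simp [shift, h1, h2]⟩
    · exact Or.inl ⟨(.inl g, true), rfl⟩
  · refine Fin.cases ?_ (fun y => ?_) x
    · cases b
      · left
        cases i
        · exact ⟨(.inl a.castSucc, false), by simp [shift]⟩
        · exact ⟨(.inl a.succ, false), by simp [shift, push_ne a]⟩
      · exact Or.inr (Or.inl ⟨i, rfl⟩)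
    · exact Or.inl ⟨(.inr (y, i), b), rfl⟩

theorem shift_inj (a : Fin k) : Function.Injective (shift a : Tip k n → Tip k (n + 1)) := by
  have key : ∀ p : Tip k n, ∃ q, (match shift a p with
      | (.inl g, b) => (.inl g, b)
      | (.inr (x, i), b) => Fin.cases (.inl (if i then a.succ else a.castSucc), b)
          (fun y => (.inr (y, i), b)) x : Tip k n) = q ∧ q = p := by
    rintro ⟨g | ⟨x, i⟩, b⟩
    · cases b
      · by_cases h1 : g = a.castSucc
        · subst h1
          simp [shift]
        · by_cases h2 : g = a.succ
          · subst h2
            simp [shift, push_ne a]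
          · simp [shift, h1, h2]
      · simp [shift]
    · simp [shift]
  intro p q h
  obtain ⟨p', h1, rfl⟩ := key p
  obtain ⟨q', h2, rfl⟩ := key q
  rw [← h1, ← h2, h]

theorem pushArc_inv (a : Fin k) (arc : Tip k n → Tip k n) (h : ∀ p, arc (arc p) = p)
    (p : Tip k (n + 1)) : pushArc a arc (pushArc a arc p) = p := by
  rcases tip_cases a p with ⟨q, rfl⟩ | ⟨i, rfl⟩ | ⟨i, rfl⟩
  · rw [pushArc_shift, pushArc_shift, h]
  · rw [pushArc_new, pushArc_gate]
  · rw [pushArc_gate, pushArc_new]

theorem pushArc_ne (a : Fin k) (arc : Tip k n → Tip k n) (h : ∀ p, arc p ≠ p)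
    (p : Tip k (n + 1)) : pushArc a arc p ≠ p := by
  rcases tip_cases a p with ⟨q, rfl⟩ | ⟨i, rfl⟩ | ⟨i, rfl⟩
  · rw [pushArc_shift]
    exact fun h1 => h q (shift_inj a h1)
  · rw [pushArc_new]
    simp
  · rw [pushArc_gate]
    simp

namespace Diagram

/-- Insert the letter `σ_a ^ ε` of the braid group on `k + 1` strands: a new crossing `0` of kind
`ε` between the strands at the gates `a` and `a + 1`, just below the gates. -/
def push (D : Diagram k n) (a : Fin k) (ε : ℤˣ) : Diagram k (n + 1) where
  kind := Fin.cons ε D.kind
  arc := pushArc a D.arc
  arc_arc := pushArc_inv a D.arc D.arc_arc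
  arc_ne := pushArc_ne a D.arc D.arc_ne

/-- Insert a braid word: a list of letters `(a, ε)`, standing for `σ_a ^ ε`; the first letter is
the crossing next to the gates. -/
def insert (D : Diagram k n) : (w : List (Fin k × ℤˣ)) → Diagram k (n + w.length)
  | [] => D
  | l :: w => (insert D w).push l.1 l.2

end Diagram

/-- The word `w₀ σ_(a 0) ^ (±1) σ_(b 0) ^ (±1) (w 0) σ_(a 1) ^ (±1) σ_(b 1) ^ (±1) (w 1) ...`
with the signs `ε`. -/
def boxWord {m : ℕ} (w₀ : List (Fin k × ℤˣ)) (a b : Fin m → Fin k)
    (w : Fin m → List (Fin k × ℤˣ)) (ε : Fin m → ℤˣ × ℤˣ) : List (Fin k × ℤˣ) :=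
  w₀ ++ (List.ofFn fun j => (a j, (ε j).1) :: (b j, (ε j).2) :: w j).flatten

/-- The number `exp (π i / 4)`. -/
noncomputable def A8 : ℂˣ := Units.mk0 (Complex.exp (Real.pi / 4 * Complex.I)) (Complex.exp_ne_zero _)

/-- The absolute value of `f` at `A = exp (π i / 4)`, i.e. at `t = A ^ (-4) = -1`: for a classical
knot this is the determinant. -/
noncomputable def Diagram.determinant (D : Diagram k n) (o : Tip k n → Bool) : ℝ :=
  ‖LaurentPolynomial.eval₂ (Int.castRingHom ℂ) A8 (D.normalized o)‖

end Pool.RU
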