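import Pool.Agent.RU.St

/-!
# Three strands of a knot: some braid word on them does not give a knot
-/

set_option autoImplicit false

namespace Pool.RU

open Matrix

open scoped Classical

variable {K n : ℕ}

/-- Keep the crossings of the letters of `u`. -/
def ext : (u : List (Fin K × ℤˣ)) → (Fin n → Way) → Fin (n + u.length) → Way
  | [], c => c
  | _ :: u, c => Fin.cons .keep (ext u c)

/-- The matrix of a word with all crossings kept. -/
noncomputable def Wk (u : List (Fin K × ℤˣ)) : Matrix (Col K) (Col K) ℕ :=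
  (u.map fun l => W l.1 .keep).prod

theorem Wk_cons (l : Fin K × ℤˣ) (u : List (Fin K × ℤˣ)) : Wk (l :: u) = W l.1 .keep * Wk u := by
  unfold Wk
  rw [List.map_cons, List.prod_cons]

theorem Wk_append (u w : List (Fin K × ℤˣ)) : Wk (u ++ w) = Wk u * Wk w := by
  unfold Wk
  rw [List.map_append, List.prod_append]

theorem theta_ext (D : Diagram K n) (u : List (Fin K × ℤˣ)) (c : Fin n → Way) :
    theta (D.insert u) (ext u c) = Wk u * theta D c := by
  induction u with
  | nil =>
    show theta D c = (1 : Matrix (Col K) (Col K) ℕ) * theta D c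
    rw [one_mul]
  | cons l u ih =>
    rw [Wk_cons, mul_assoc, ← ih]
    exact thm_Push K (n + u.length) (D.insert u) l.1 l.2 .keep (ext u c)

theorem cons_keep (n : ℕ) : (Fin.cons .keep (fun _ => .keep) : Fin (n + 1) → Way) = fun _ => .keep := by
  funext i
  refine Fin.cases ?_ (fun j => ?_) i
  · rfl
  · rfl

theorem ext_keep (u : List (Fin K × ℤˣ)) :
    ext u (fun _ : Fin n => Way.keep) = fun _ => Way.keep := by
  induction u with
  | nil => rfl
  | cons l u ih =>
    show (Fin.cons .keep (ext u _) : Fin (n + u.length + 1) → Way) = _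
    rw [ih]
    exact cons_keep _

theorem isKnot_iff_trace (D : Diagram K n) (w : List (Fin K × ℤˣ)) :
    (D.insert w).IsKnot ↔ (Wk w * theta D fun _ => .keep).trace = 2 := by
  unfold Diagram.IsKnot
  have h1 := thm_Close K (n + w.length) (D.insert w) (fun _ => .keep)
  rw [← ext_keep w, theta_ext] at h1
  rw [← ext_keep w, ← h1]
  constructor
  · intro h
    rw [h, pow_one]
  · intro h
    exact Nat.pow_right_injective le_rfl (by simpa using h)

theorem ext_update (u : List (Fin K × ℤˣ)) (c : Fin n → Way) (x : Fin n) :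
    ∃ y, ∀ v, ext u (Function.update c x v) = Function.update (ext u c) y v := by
  induction u with
  | nil => exact ⟨x, fun v => rfl⟩
  | cons l u ih =>
    obtain ⟨y, hy⟩ := ih
    refine ⟨y.succ, fun v => ?_⟩
    show (Fin.cons .keep (ext u _) : Fin (n + u.length + 1) → Way) =
      Function.update (Fin.cons .keep (ext u c) : Fin (n + u.length + 1) → Way) y.succ v
    rw [hy, Fin.cons_update]

theorem W_TL (h1 : St_PgTurn) (h2 : St_PgTL) (a b : Fin K)
    (hab : a.val + 1 = b.val ∨ b.val + 1 = a.val) :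
    W a .turn * W b .turn * W a .turn = W a .turn := by
  obtain ⟨hT, hpid⟩ := h1 K
  have h0 : (pid : Pg K).1 (lp a) ≠ rp a := by
    intro h
    have := congrArg Prod.fst h
    exact (Fin.castSucc_lt_succ (i := a)).ne this
  set π₁ := turnP a pid h0 with hπ₁
  set φ : Pg K → ℂ := fun π => if π = π₁ then 1 else 0 with hφ
  have h3 := congrFun (LinearMap.congr_fun ((h2 K a).2 b hab) φ) pid
  have e1 : ∀ ψ : Pg K → ℂ, E a ψ pid = ψ π₁ := by
    intro ψ
    show (if h : (pid : Pg K).1 (lp a) = rp a then (0 : ℂ) else ψ (turnP a pid h)) = _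
    rw [dif_neg h0]
  have h4 : (E b (E a φ)) π₁ = 1 := by
    have h5 : (E a * E b * E a) φ pid = (E b (E a φ)) π₁ := e1 _
    rw [← h5, h3, e1, hφ]
    simp
  have h6 : π₁.1 (lp b) ≠ rp b := by
    intro h
    have h7 : (E b (E a φ)) π₁ = 0 := by
      show (if h : π₁.1 (lp b) = rp b then (0 : ℂ) else _) = 0
      rw [dif_pos h]
    rw [h7] at h4
    exact zero_ne_one h4
  have h8 : (E a φ) (turnP b π₁ h6) = 1 := by
    rw [← h4]
    show _ = (if h : π₁.1 (lp b) = rp b then (0 : ℂ) else (E a φ) (turnP b π₁ h))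
    rw [dif_neg h6]
  have h9 : (turnP b π₁ h6).1 (lp a) ≠ rp a := by
    intro h
    have h7 : (E a φ) (turnP b π₁ h6) = 0 := by
      show (if h : (turnP b π₁ h6).1 (lp a) = rp a then (0 : ℂ) else _) = 0
      rw [dif_pos h]
    rw [h7] at h8
    exact zero_ne_one h8
  have h10 : φ (turnP a (turnP b π₁ h6) h9) = 1 := by
    rw [← h8]
    show _ = (if h : (turnP b π₁ h6).1 (lp a) = rp a then (0 : ℂ) else φ (turnP a _ h))
    rw [dif_neg h9]
  have h11 : turnP a (turnP b π₁ h6) h9 = π₁ := by
    by_contra h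
    rw [hφ] at h10
    simp only [if_neg h] at h10
    exact zero_ne_one h10
  have g1 : W a .turn = MP π₁ := by
    rw [← (hT a pid).2 h0, hpid, one_mul]
  rw [g1]
  have g2 := (hT b π₁).2 h6
  have g3 := (hT a (turnP b π₁ h6)).2 h9
  rw [h11] at g3
  rw [g2, ← g1, g3, g1]

/-- Not all braid words on three neighbouring strands give a knot. -/
theorem not_all_knots (h1 : St_PgTurn) (h2 : St_PgTL) (D : Diagram K n) (a b : Fin K)
    (hab : a.val + 1 = b.val ∨ b.val + 1 = a.val) (u y : List (Fin K × ℤˣ))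
    (hk : ∀ w : List (Fin K × ℤˣ), (∀ l ∈ w, l.1 = a ∨ l.1 = b) →
      (D.insert (u ++ (w ++ y))).IsKnot) : False := by
  set θ := theta (D.insert y) (fun _ => Way.keep) with hθ
  set D' := (((D.insert y).push a 1).push b 1).push a 1 with hD'
  let c : Way → Way → Way → Fin (n + y.length + 1 + 1 + 1) → Way := fun v1 v2 v3 =>
    Fin.cons v1 (Fin.cons v2 (Fin.cons v3 fun _ => .keep : Fin (n + y.length + 1) → Way) :
      Fin (n + y.length + 1 + 1) → Way)
  have e0 : ∀ v1 v2 v3, 2 ^ (D'.insert u).curves (ext u (c v1 v2 v3)) =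
      (Wk u * (W a v1 * (W b v2 * (W a v3 * θ)))).trace := by
    intro v1 v2 v3
    rw [thm_Close, theta_ext]
    congr 2
    rw [hD', thm_Push, thm_Push, thm_Push]
  have ek : ∀ w : List (Fin K × ℤˣ), (∀ l ∈ w, l.1 = a ∨ l.1 = b) →
      (Wk u * (Wk w * θ)).trace = 2 := by
    intro w hw
    have h3 := (isKnot_iff_trace D _).mp (hk w hw)
    rw [Wk_append, Wk_append] at h3
    rw [← h3, hθ, ← ext_keep y, theta_ext]
    simp only [mul_assoc]
  have e1 : ∀ v1 v2 v3, v1 ≠ Way.turn → v2 ≠ Way.turn → v3 ≠ Way.turn →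
      (D'.insert u).curves (ext u (c v1 v2 v3)) = 1 := by
    intro v1 v2 v3 g1 g2 g3
    have key : ∀ (d : Fin K), (d = a ∨ d = b) → ∀ v : Way, v ≠ .turn →
        ∃ w : List (Fin K × ℤˣ), (∀ l ∈ w, l.1 = a ∨ l.1 = b) ∧ Wk w = W d v := by
      intro d hd v hv
      cases v with
      | keep =>
        refine ⟨[(d, 1)], ?_, ?_⟩
        · intro l hl
          rw [List.mem_singleton] at hl
          rw [hl]
          exact hd
        · rw [Wk_cons]
          show _ * (1 : Matrix (Col K) (Col K) ℕ) = _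
          rw [mul_one]
      | along => exact ⟨[], by simp, rfl⟩
      | turn => exact absurd rfl hv
    obtain ⟨w1, k1, m1⟩ := key a (Or.inl rfl) v1 g1
    obtain ⟨w2, k2, m2⟩ := key b (Or.inr rfl) v2 g2
    obtain ⟨w3, k3, m3⟩ := key a (Or.inl rfl) v3 g3
    have h3 := e0 v1 v2 v3
    have h4 := ek (w1 ++ (w2 ++ w3)) (by
      intro l hl
      rw [List.mem_append, List.mem_append] at hl
      rcases hl with hl | hl | hl
      · exact k1 l hl
      · exact k2 l hl
      · exact k3 l hl)
    rw [Wk_append, Wk_append, m1, m2, m3] at h4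
    simp only [mul_assoc] at h4
    rw [h4] at h3
    exact Nat.pow_right_injective le_rfl (by simpa using h3)
  have three := thm_Three thm_Pair
  set g : Way → Way → Way → ℤ := fun v1 v2 v3 =>
    (-2 : ℤ) ^ (D'.insert u).curves (ext u (c v1 v2 v3)) with hg
  have t1 : ∀ v2 v3, g .keep v2 v3 + g .along v2 v3 + g .turn v2 v3 = 0 := by
    intro v2 v3
    obtain ⟨x, hx⟩ := ext_update u (c .keep v2 v3) 0
    have h3 := three _ _ (D'.insert u) (ext u (c .keep v2 v3)) x
    rw [← hx, ← hx, ← hx] at h3
    have h4 : ∀ v, Function.update (c .keep v2 v3) 0 v = c v v2 v3 := fun v =>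
      Fin.update_cons_zero _ _ _
    rw [h4, h4, h4] at h3
    exact h3
  have t2 : ∀ v1 v3, g v1 .keep v3 + g v1 .along v3 + g v1 .turn v3 = 0 := by
    intro v1 v3
    obtain ⟨x, hx⟩ := ext_update u (c v1 .keep v3) (Fin.succ 0)
    have h3 := three _ _ (D'.insert u) (ext u (c v1 .keep v3)) x
    rw [← hx, ← hx, ← hx] at h3
    have h4 : ∀ v, Function.update (c v1 .keep v3) (Fin.succ 0) v = c v1 v v3 := by
      intro v
      show Function.update (Fin.cons v1 _ : Fin (n + y.length + 1 + 1 + 1) → Way) _ v = _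
      rw [← Fin.cons_update, Fin.update_cons_zero]
    rw [h4, h4, h4] at h3
    exact h3
  have t3 : ∀ v1 v2, g v1 v2 .keep + g v1 v2 .along + g v1 v2 .turn = 0 := by
    intro v1 v2
    obtain ⟨x, hx⟩ := ext_update u (c v1 v2 .keep) (Fin.succ (Fin.succ 0))
    have h3 := three _ _ (D'.insert u) (ext u (c v1 v2 .keep)) x
    rw [← hx, ← hx, ← hx] at h3
    have h4 : ∀ v, Function.update (c v1 v2 .keep) (Fin.succ (Fin.succ 0)) v = c v1 v2 v := by
      intro v
      show Function.update (Fin.cons v1 (Fin.cons v2 _) :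
        Fin (n + y.length + 1 + 1 + 1) → Way) _ v = _
      rw [← Fin.cons_update, ← Fin.cons_update, Fin.update_cons_zero]
    rw [h4, h4, h4] at h3
    exact h3
  have k0 : ∀ v1 v2 v3, v1 ≠ Way.turn → v2 ≠ Way.turn → v3 ≠ Way.turn → g v1 v2 v3 = -2 := by
    intro v1 v2 v3 g1 g2 g3
    show (-2 : ℤ) ^ (D'.insert u).curves (ext u (c v1 v2 v3)) = -2
    rw [e1 v1 v2 v3 g1 g2 g3, pow_one]
  have k1 : ∀ v1 v2, v1 ≠ Way.turn → v2 ≠ Way.turn → g v1 v2 .turn = 4 := by
    intro v1 v2 g1 g2
    have := t3 v1 v2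
    rw [k0 v1 v2 .keep g1 g2 (by decide), k0 v1 v2 .along g1 g2 (by decide)] at this
    linarith
  have k2 : ∀ v1, v1 ≠ Way.turn → g v1 .turn .turn = -8 := by
    intro v1 g1
    have := t2 v1 .turn
    rw [k1 v1 .keep g1 (by decide), k1 v1 .along g1 (by decide)] at this
    linarith
  have k3 : g .turn .turn .turn = 16 := by
    have := t1 .turn .turn
    rw [k2 .keep (by decide), k2 .along (by decide)] at this
    linarith
  have k4 : g .turn .along .along = 4 := by
    have := t1 .along .along
    rw [k0 .keep .along .along (by decide) (by decide) (by decide),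
      k0 .along .along .along (by decide) (by decide) (by decide)] at this
    linarith
  have k5 : (D'.insert u).curves (ext u (c .turn .turn .turn)) =
      (D'.insert u).curves (ext u (c .turn .along .along)) := by
    have h3 := e0 .turn .turn .turn
    have h4 := e0 .turn .along .along
    have h5 : W a .turn * (W b .turn * (W a .turn * θ)) =
        W a .turn * (W b .along * (W a .along * θ)) := by
      show _ = W a .turn * ((1 : Matrix (Col K) (Col K) ℕ) * ((1 : Matrix (Col K) (Col K) ℕ) * θ))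
      rw [one_mul, one_mul, ← mul_assoc, ← mul_assoc, W_TL h1 h2 a b hab]
    rw [h5, ← h4] at h3
    exact Nat.pow_right_injective le_rfl h3
  have k6 : g .turn .turn .turn = g .turn .along .along := by
    show (-2 : ℤ) ^ (D'.insert u).curves (ext u (c .turn .turn .turn)) =
      (-2 : ℤ) ^ (D'.insert u).curves (ext u (c .turn .along .along))
    rw [k5]
  rw [k3, k4] at k6
  exact absurd k6 (by decide)

end Pool.RU
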