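import Pool.Agent.RU.Close
import Pool.Agent.RU.Push
import Pool.Agent.RU.Three
import Pool.Agent.RU.Pair

/-!
# The sum over the states reduces to the diagram with all crossings kept
-/

namespace Pool.RU

variable {K n : ℕ}

private theorem States_sum : ∀ (n : ℕ) (g : (Fin n → Way) → ℤ),
    (∀ c x, g (Function.update c x .keep) + g (Function.update c x .along) +
      g (Function.update c x .turn) = 0) →
    ∑ s : Fin n → Bool, g (ways s) = (-1) ^ n * g (fun _ => .keep) := by
  intro n
  induction n with
  | zero =>
    intro g _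
    have e : ∀ c : Fin 0 → Way, g c = g (fun _ => .keep) := fun c => by
      rw [Subsingleton.elim c (fun _ => .keep)]
    simp [e (ways _)]
  | succ n ih =>
    intro g hg
    rw [← (Fin.consEquiv (fun _ : Fin (n + 1) => Bool)).sum_comp]
    rw [Fintype.sum_prod_type, Fintype.sum_bool, ← Finset.sum_add_distrib]
    have e : ∀ (b : Bool) (s : Fin n → Bool),
        g (ways (Fin.consEquiv (fun _ : Fin (n + 1) => Bool) (b, s))) =
          g (Fin.cons (if b then .along else .turn) (ways s) : Fin (n + 1) → Way) := by
      intro b s
      refine congrArg g ?_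
      funext i
      refine Fin.cases ?_ (fun j => ?_) i
      · rfl
      · rfl
    have h1 : ∀ s : Fin n → Bool,
        g (ways (Fin.consEquiv (fun _ : Fin (n + 1) => Bool) (true, s))) +
          g (ways (Fin.consEquiv (fun _ : Fin (n + 1) => Bool) (false, s))) =
          -g (Fin.cons .keep (ways s) : Fin (n + 1) → Way) := by
      intro s
      rw [e, e]
      have h := hg (Fin.cons .keep (ways s) : Fin (n + 1) → Way) 0
      rw [Fin.update_cons_zero, Fin.update_cons_zero, Fin.update_cons_zero] at h
      simp only [if_true, Bool.false_eq_true, if_false]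
      linarith
    rw [Finset.sum_congr rfl fun s _ => h1 s, Finset.sum_neg_distrib]
    have h2 := ih (fun c => g (Fin.cons .keep c : Fin (n + 1) → Way)) (fun c x => by
      have h := hg (Fin.cons .keep c : Fin (n + 1) → Way) x.succ
      rw [← Fin.cons_update, ← Fin.cons_update, ← Fin.cons_update] at h
      exact h)
    rw [h2]
    have h3 : (Fin.cons .keep (fun _ => .keep) : Fin (n + 1) → Way) = fun _ => .keep := by
      funext i
      refine Fin.cases ?_ (fun j => ?_) i
      · rfl
      · rfl
    rw [h3, pow_succ]
    ring

theorem thm_States (hT : St_Three) : St_States := by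
  intro K n D
  exact States_sum n (fun c => (-2 : ℤ) ^ D.curves c) (fun c x => hT K n D c x)

theorem states (D : Diagram K n) :
    ∑ s : Fin n → Bool, (-2 : ℤ) ^ D.curves (ways s) = (-1) ^ n * (-2) ^ D.curves (fun _ => .keep) :=
  thm_States (thm_Three thm_Pair) K n D

theorem curves_pos (D : Diagram K n) (c : Fin n → Way) : 1 ≤ D.curves c := by
  unfold Diagram.curves
  have : Nonempty (Quot fun p q : Tip K n => q = join c p ∨ q = D.arc p) :=
    ⟨Quot.mk _ (.inl 0, true)⟩
  have : Finite (Quot fun p q : Tip K n => q = join c p ∨ q = D.arc p) := inferInstance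
  exact Nat.card_pos

open Classical in
/-- The number of states with one curve is odd if and only if the diagram with all crossings kept
has one curve. -/
theorem one_curve_parity (D : Diagram K n) :
    Odd (Finset.univ.filter fun s : Fin n → Bool => D.curves (ways s) = 1).card ↔
      D.curves (fun _ => .keep) = 1 := by
  have h4 : ∀ m : ℕ, 1 ≤ m → (-2 : ZMod 4) ^ m = if m = 1 then 2 else 0 := by
    intro m hm
    obtain ⟨j, rfl⟩ : ∃ j, m = j + 1 := ⟨m - 1, by omega⟩
    cases j with
    | zero => decide
    | succ j =>
      rw [if_neg (by omega)]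
      rw [pow_succ, pow_succ, mul_assoc]
      have : (-2 : ZMod 4) * (-2) = 0 := by decide
      rw [this, mul_zero]
  have h := congrArg (fun z : ℤ => (z : ZMod 4)) (states D)
  simp only [Int.cast_sum, Int.cast_mul, Int.cast_pow, Int.cast_neg, Int.cast_one,
    Int.cast_ofNat] at h
  rw [h4 _ (curves_pos D _), Finset.sum_congr rfl (fun s _ => h4 _ (curves_pos D (ways s))),
    ← Finset.sum_filter, Finset.sum_const, nsmul_eq_mul] at h
  set N := (Finset.univ.filter fun s : Fin n → Bool => D.curves (ways s) = 1).card
  have h5 : ((-1 : ZMod 4)) ^ n * (if D.curves (fun _ => .keep) = 1 then 2 else 0) =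
      if D.curves (fun _ => .keep) = 1 then 2 else 0 := by
    rcases neg_one_pow_eq_or (ZMod 4) n with h6 | h6
    · rw [h6, one_mul]
    · rw [h6]
      split_ifs
      · decide
      · decide
  rw [h5] at h
  have h7 : (((N * 2 : ℕ)) : ZMod 4) =
      (((if D.curves (fun _ => .keep) = 1 then 1 else 0) * 2 : ℕ) : ZMod 4) := by
    push_cast
    rw [h]
    split_ifs <;> norm_num
  rw [ZMod.natCast_eq_natCast_iff] at h7
  have h8 : N ≡ (if D.curves (fun _ => .keep) = 1 then 1 else 0) [MOD 2] := by
    have h9 : (4 : ℕ) = 2 * 2 := rfl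
    rw [h9] at h7
    exact Nat.ModEq.mul_right_cancel' (by norm_num) h7
  rw [Nat.odd_iff]
  unfold Nat.ModEq at h8
  split_ifs at h8 with h10
  · simp [h10, h8]
  · simp [h10, h8]

end Pool.RU
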