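import Pool.Agent.RU.Defs

/-!
# Every diagram has an orientation
-/

set_option autoImplicit false

namespace Pool.RU

open scoped Classical

variable {K n : ℕ}

private theorem Orient_conj {X : Type} (μ ν : Equiv.Perm X) (hμ : μ * μ = 1) (hν : ν * ν = 1)
    (j : ℤ) : μ * (μ * ν) ^ j = (μ * ν) ^ (-j) * μ := by
  have h1 : μ * (μ * ν) * μ⁻¹ = (μ * ν)⁻¹ := by
    rw [mul_inv_rev, ← mul_assoc, hμ, one_mul, inv_eq_of_mul_eq_one_left hν]
  have h2 : μ * (μ * ν) ^ j * μ⁻¹ = (μ * ν) ^ (-j) := by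
    rw [← conj_zpow, h1, inv_zpow, zpow_neg]
  rw [← h2]
  group

private theorem Orient_ne {X : Type} (μ ν : Equiv.Perm X) (hμ : μ * μ = 1) (hν : ν * ν = 1)
    (hμ' : ∀ p, μ p ≠ p) (hν' : ∀ p, ν p ≠ p) (p : X) : ¬ (μ * ν).SameCycle p (μ p) := by
  rintro ⟨k, hk⟩
  have h1 : ∀ j : ℤ, μ (((μ * ν) ^ j) p) = ((μ * ν) ^ (-j + k)) p := by
    intro j
    rw [zpow_add, Equiv.Perm.mul_apply, hk, ← Equiv.Perm.mul_apply, ← Equiv.Perm.mul_apply,
      Orient_conj μ ν hμ hν]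
  rcases Int.even_or_odd' k with ⟨j, rfl | rfl⟩
  · have h2 := h1 j
    rw [show -j + 2 * j = j by ring] at h2
    exact hμ' _ h2
  · have h2 := h1 j
    rw [show -j + (2 * j + 1) = 1 + j by ring, zpow_add, zpow_one, Equiv.Perm.mul_apply,
      Equiv.Perm.mul_apply] at h2
    exact hν' _ (μ.injective h2).symm

private theorem Orient_two {X : Type} (μ ν : Equiv.Perm X) (hμ : μ * μ = 1) (hν : ν * ν = 1)
    (hμ' : ∀ p, μ p ≠ p) (hν' : ∀ p, ν p ≠ p) :
    ∃ o : X → Bool, ∀ p, o (μ p) = !o p ∧ o (ν p) = !o p := by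
  have hμμ : ∀ p, μ (μ p) = p := fun p => by rw [← Equiv.Perm.mul_apply, hμ]; rfl
  have hνν : ∀ p, ν (ν p) = p := fun p => by rw [← Equiv.Perm.mul_apply, hν]; rfl
  set r : X → X → Prop := fun p q => q = μ p ∨ q = ν p with hr
  have hrefl : ∀ p : X, Quot.mk r (Quot.out (Quot.mk r p)) = Quot.mk r p := fun p =>
    Quot.out_eq _
  have hν2 : ∀ x p : X, (μ * ν).SameCycle x (ν p) ↔ (μ * ν).SameCycle x (μ p) := by
    intro x p
    have h1 : μ p = (μ * ν) (ν p) := by rw [Equiv.Perm.mul_apply, hνν]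
    rw [h1, Equiv.Perm.sameCycle_apply_right]
  have hcl : ∀ x p : X, Quot.mk r x = Quot.mk r p →
      ((μ * ν).SameCycle x p ∨ (μ * ν).SameCycle x (μ p)) := by
    intro x p h
    have h1 := Quot.eqvGen_exact h
    have hA : ∀ q : X, ((μ * ν).SameCycle x q ∨ (μ * ν).SameCycle x (μ q)) ↔
        ((μ * ν).SameCycle x (μ q) ∨ (μ * ν).SameCycle x (μ (μ q))) := by
      intro q
      rw [hμμ, or_comm]
    have hB : ∀ q : X, ((μ * ν).SameCycle x q ∨ (μ * ν).SameCycle x (μ q)) ↔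
        ((μ * ν).SameCycle x (ν q) ∨ (μ * ν).SameCycle x (μ (ν q))) := by
      intro q
      rw [hν2, ← Equiv.Perm.mul_apply, Equiv.Perm.sameCycle_apply_right, or_comm]
    have h2 : ∀ q q' : X, Relation.EqvGen r q q' →
        (((μ * ν).SameCycle x q ∨ (μ * ν).SameCycle x (μ q)) ↔
        ((μ * ν).SameCycle x q' ∨ (μ * ν).SameCycle x (μ q'))) := by
      intro q q' hq
      induction hq with
      | rel q q' hqq =>
        rcases hqq with rfl | rfl
        · exact hA q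
        · exact hB q
      | refl => rfl
      | symm _ _ _ ih => exact ih.symm
      | trans _ _ _ _ _ ih1 ih2 => exact ih1.trans ih2
    exact (h2 x p h1).mp (Or.inl (Equiv.Perm.SameCycle.refl _ _))
  refine ⟨fun p => decide ((μ * ν).SameCycle (Quot.out (Quot.mk r p)) p), fun p => ?_⟩
  have g1 : r p (μ p) := Or.inl rfl
  have g2 : r p (ν p) := Or.inr rfl
  have e1 : Quot.mk r (μ p) = Quot.mk r p := (Quot.sound g1).symm
  have e2 : Quot.mk r (ν p) = Quot.mk r p := (Quot.sound g2).symm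
  simp only [e1, e2]
  have h3 := hcl (Quot.out (Quot.mk r p)) p (hrefl p)
  have h4 : ¬ ((μ * ν).SameCycle (Quot.out (Quot.mk r p)) p ∧
      (μ * ν).SameCycle (Quot.out (Quot.mk r p)) (μ p)) := by
    rintro ⟨h5, h6⟩
    exact Orient_ne μ ν hμ hν hμ' hν' p (h5.symm.trans h6)
  rw [hν2]
  by_cases h5 : (μ * ν).SameCycle (Quot.out (Quot.mk r p)) p
  · have h6 : ¬ (μ * ν).SameCycle (Quot.out (Quot.mk r p)) (μ p) := fun h => h4 ⟨h5, h⟩
    simp [h5, h6]
  · have h6 := h3.resolve_left h5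
    simp [h5, h6]

/-- Every diagram has an orientation. -/
theorem exists_orientation (D : Diagram K n) : ∃ o, D.IsOrientation o := by
  have hj : ∀ p : Tip K n, join (fun _ => Way.keep) (join (fun _ => Way.keep) p) = p := by
    rintro ⟨g | ⟨x, i⟩, b⟩ <;> simp [join]
  have hj' : ∀ p : Tip K n, join (fun _ => Way.keep) p ≠ p := by
    rintro ⟨g | ⟨x, i⟩, b⟩ <;> simp [join]
  let μ : Equiv.Perm (Tip K n) := ⟨join fun _ => Way.keep, join fun _ => Way.keep, hj, hj⟩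
  let ν : Equiv.Perm (Tip K n) := ⟨D.arc, D.arc, D.arc_arc, D.arc_arc⟩
  obtain ⟨o, ho⟩ := Orient_two μ ν (Equiv.ext hj) (Equiv.ext D.arc_arc) hj' D.arc_ne
  exact ⟨o, fun p => (ho p).2, fun p => (ho p).1⟩

end Pool.RU
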