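import Pool.Agent.RU.St

/-!
# The induction over the dimension
-/

set_option autoImplicit false

namespace Pool.RU

open scoped Classical

variable {V : Type} [AddCommGroup V] [Module ℂ V]

/-! ### the operators are invertible -/

theorem Abs_S_mul (e : V →ₗ[ℂ] V) (he : e * e = 0) (ε : ℤˣ) : S e ε * S e (-ε) = 1 := by
  have h2 : ∀ x, e (e x) = 0 := fun x => LinearMap.congr_fun he x
  have h3 : (((-ε : ℤˣ) : ℤ) : ℂ) = -((ε : ℤ) : ℂ) := by push_cast; rfl
  ext x
  unfold S
  rw [h3]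
  simp only [Module.End.mul_apply, LinearMap.sub_apply, LinearMap.smul_apply, Module.End.one_apply,
    map_sub, map_neg, map_smul, LinearMap.neg_apply, h2, smul_zero, neg_mul, neg_smul]
  simp

theorem Abs_S_mul' (e : V →ₗ[ℂ] V) (he : e * e = 0) (ε : ℤˣ) : S e (-ε) * S e ε = 1 := by
  have := Abs_S_mul e he (-ε)
  rwa [neg_neg] at this

/-- The operator of a letter as an equivalence. -/
noncomputable def Abs_SE (e : V →ₗ[ℂ] V) (he : e * e = 0) (ε : ℤˣ) : V ≃ₗ[ℂ] V :=
  LinearEquiv.ofLinearMap (S e ε) (S e (-ε)) (Abs_S_mul e he ε) (Abs_S_mul' e he ε)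

theorem Abs_SE_coe (e : V →ₗ[ℂ] V) (he : e * e = 0) (ε : ℤˣ) :
    ((Abs_SE e he ε : V ≃ₗ[ℂ] V) : V →ₗ[ℂ] V) = S e ε := by
  ext x
  rfl

theorem Abs_comap_inj (g : V ≃ₗ[ℂ] V) :
    Function.Injective (Submodule.comap (g : V →ₗ[ℂ] V) : Submodule ℂ V → Submodule ℂ V) :=
  Submodule.comap_injective_of_surjective g.surjective

theorem Abs_comapS_inj (e : V →ₗ[ℂ] V) (he : e * e = 0) (ε : ℤˣ) :
    Function.Injective (Submodule.comap (S e ε) : Submodule ℂ V → Submodule ℂ V) := by
  rw [← Abs_SE_coe e he ε]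
  exact Abs_comap_inj _

theorem Abs_finrank_comap (g : V ≃ₗ[ℂ] V) (T : Submodule ℂ V) :
    Module.finrank ℂ (T.comap (g : V →ₗ[ℂ] V)) = Module.finrank ℂ T := by
  rw [Submodule.comap_equiv_eq_map_symm]
  exact LinearEquiv.finrank_map_eq g.symm T

theorem Abs_finrank_comapS (e : V →ₗ[ℂ] V) (he : e * e = 0) (ε : ℤˣ) (T : Submodule ℂ V) :
    Module.finrank ℂ (T.comap (S e ε)) = Module.finrank ℂ T := by
  rw [← Abs_SE_coe e he ε]
  exact Abs_finrank_comap _ T

theorem Abs_op_comap (s : Step V) (ε : ℤˣ × ℤˣ) (T : Submodule ℂ V) :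
    T.comap (s.op ε) = ((T.comap (S s.e ε.1)).comap (S s.f ε.2)).comap (s.g : V →ₗ[ℂ] V) := by
  ext x
  rfl

/-! ### the norm -/

theorem Abs_N2_eq {X : Type} (p : X →₀ ℝ) (s : Finset X) (h : p.support ⊆ s) :
    N2 p = ∑ x ∈ s, p x ^ 2 := by
  unfold N2
  rw [Finsupp.sum_of_support_subset p h _ (by intro i _; norm_num)]

theorem Abs_N2_nonneg {X : Type} (p : X →₀ ℝ) : 0 ≤ N2 p := by
  unfold N2
  exact Finset.sum_nonneg fun x _ => sq_nonneg _

theorem Abs_N2_map {X : Type} (p : X →₀ ℝ) (g : X → X) (hg : Function.Injective g) :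
    N2 (Finsupp.mapDomain g p) = N2 p := by
  unfold N2
  exact Finsupp.sum_mapDomain_index_inj hg

theorem Abs_N2_half {X : Type} (p q : X →₀ ℝ) :
    N2 ((1 / 2 : ℝ) • (p + q)) ≤ (N2 p + N2 q) / 2 := by
  set s := p.support ∪ q.support with hs
  have h1 : ((1 / 2 : ℝ) • (p + q)).support ⊆ s :=
    Finsupp.support_smul.trans Finsupp.support_add
  rw [Abs_N2_eq _ s h1, Abs_N2_eq p s Finset.subset_union_left,
    Abs_N2_eq q s Finset.subset_union_right, ← Finset.sum_add_distrib, Finset.sum_div]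
  refine Finset.sum_le_sum fun x _ => ?_
  rw [Finsupp.smul_apply, Finsupp.add_apply, smul_eq_mul]
  nlinarith [sq_nonneg (p x - q x)]

theorem Abs_N2_avg (e : V →ₗ[ℂ] V) (he : e * e = 0) (p : Submodule ℂ V →₀ ℝ) :
    N2 (avg e p) ≤ N2 p := by
  unfold avg
  refine (Abs_N2_half _ _).trans ?_
  rw [Abs_N2_map _ _ (Abs_comapS_inj e he 1), Abs_N2_map _ _ (Abs_comapS_inj e he (-1))]
  linarith

theorem Abs_N2_filter {X : Type} (p : X →₀ ℝ) (P : X → Prop) [DecidablePred P] :
    N2 (p.filter P) ≤ N2 p := by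
  rw [Abs_N2_eq (p.filter P) p.support (by
    rw [Finsupp.support_filter]; exact Finset.filter_subset _ _), Abs_N2_eq p p.support le_rfl]
  refine Finset.sum_le_sum fun x _ => ?_
  rw [Finsupp.filter_apply]
  split_ifs
  · exact le_rfl
  · nlinarith [sq_nonneg (p x)]

/-! ### the evolution of weights -/

/-- The weights after one step. -/
noncomputable def Abs_step (s : Step V) (p : Submodule ℂ V →₀ ℝ) : Submodule ℂ V →₀ ℝ :=
  Finsupp.mapDomain (Submodule.comap (s.g : V →ₗ[ℂ] V))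
    (avg s.f (avg s.e (if s.turn = true then p.filter (fun T => ¬ Stable s.e s.f T) else p)))

/-- The pairing of weights and functions. -/
noncomputable def Abs_lc {X : Type} (F : X → ℝ) : (X →₀ ℝ) →ₗ[ℝ] ℝ := Finsupp.linearCombination ℝ F

theorem Abs_lc_map {X : Type} (F : X → ℝ) (g : X → X) (p : X →₀ ℝ) :
    Abs_lc F (Finsupp.mapDomain g p) = Abs_lc (fun x => F (g x)) p := by
  unfold Abs_lc
  rw [Finsupp.linearCombination_mapDomain]
  rfl

theorem Abs_lc_avg (F : Submodule ℂ V → ℝ) (e : V →ₗ[ℂ] V) (p : Submodule ℂ V →₀ ℝ) :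
    Abs_lc F (avg e p) = Abs_lc (fun T => (F (T.comap (S e 1)) + F (T.comap (S e (-1)))) / 2) p := by
  unfold avg
  rw [map_smul, map_add, Abs_lc_map, Abs_lc_map]
  unfold Abs_lc
  rw [Finsupp.linearCombination_apply, Finsupp.linearCombination_apply,
    Finsupp.linearCombination_apply, ← Finsupp.sum_add, smul_eq_mul, Finsupp.mul_sum]
  refine Finset.sum_congr rfl fun T _ => ?_
  simp only [smul_eq_mul]
  ring

theorem Abs_lc_nonneg {X : Type} (F : X → ℝ) (p : X →₀ ℝ) (hp : ∀ x, 0 ≤ p x)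
    (hF : ∀ x, 0 ≤ F x) : 0 ≤ Abs_lc F p := by
  unfold Abs_lc
  rw [Finsupp.linearCombination_apply]
  exact Finset.sum_nonneg fun x _ => mul_nonneg (hp x) (hF x)

theorem Abs_lc_filter (v : V) (s : Step V) (L : List (Step V)) (p : Submodule ℂ V →₀ ℝ)
    (h : ∀ T ∈ p.support, Stable s.e s.f T → prob v (s :: L) T = 0) :
    Abs_lc (prob v (s :: L)) (p.filter (fun T => ¬ Stable s.e s.f T)) =
      Abs_lc (prob v (s :: L)) p := by
  unfold Abs_lc
  rw [Finsupp.linearCombination_apply, Finsupp.linearCombination_apply,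
    Finsupp.sum_of_support_subset (p.filter _) (s := p.support) (by
      rw [Finsupp.support_filter]; exact Finset.filter_subset _ _) _ (by intro i _; simp)]
  refine Finset.sum_congr rfl fun T hT => ?_
  by_cases h1 : Stable s.e s.f T
  · rw [Finsupp.filter_apply_neg (fun T => ¬ Stable s.e s.f T) _ (not_not.mpr h1)]
    simp only [smul_eq_mul, zero_mul]
    rw [h T hT h1, mul_zero]
  · rw [Finsupp.filter_apply_pos (fun T => ¬ Stable s.e s.f T) _ h1]

theorem Abs_lc_prob (v : V) (s : Step V) (L : List (Step V)) (p : Submodule ℂ V →₀ ℝ) :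
    Abs_lc (prob v L) (Finsupp.mapDomain (Submodule.comap (s.g : V →ₗ[ℂ] V))
      (avg s.f (avg s.e p))) = Abs_lc (prob v (s :: L)) p := by
  rw [Abs_lc_map, Abs_lc_avg, Abs_lc_avg]
  unfold Abs_lc
  rw [Finsupp.linearCombination_apply, Finsupp.linearCombination_apply]
  refine Finset.sum_congr rfl fun T _ => ?_
  have h1 : prob v (s :: L) T = (∑ ε : ℤˣ × ℤˣ, prob v L (T.comap (s.op ε))) / 4 := rfl
  have h2 : ∀ F : ℤˣ → ℝ, ∑ ε : ℤˣ, F ε = F 1 + F (-1) := by
    intro F
    have : (Finset.univ : Finset ℤˣ) = {1, -1} := rfl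
    rw [this, Finset.sum_pair (by decide)]
  simp only [smul_eq_mul]
  rw [h1, Fintype.sum_prod_type, h2, h2, h2]
  rw [Abs_op_comap, Abs_op_comap, Abs_op_comap, Abs_op_comap]
  ring

theorem Abs_lc_step (v : V) (s : Step V) (L : List (Step V)) (p : Submodule ℂ V →₀ ℝ)
    (h : s.turn = true → ∀ T ∈ p.support, Stable s.e s.f T → prob v (s :: L) T = 0) :
    Abs_lc (prob v L) (Abs_step s p) = Abs_lc (prob v (s :: L)) p := by
  unfold Abs_step
  rw [Abs_lc_prob]
  split_ifs with ht
  · exact Abs_lc_filter v s L p (h ht)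
  · rfl

theorem Abs_supp_map {X : Type} (g : X → X) (p : X →₀ ℝ) (P Q : X → Prop)
    (hp : ∀ x ∈ p.support, P x) (h : ∀ x, P x → Q (g x)) :
    ∀ x ∈ (Finsupp.mapDomain g p).support, Q x := by
  intro x hx
  have h1 := Finsupp.mapDomain_support hx
  rw [Finset.mem_image] at h1
  obtain ⟨y, hy, rfl⟩ := h1
  exact h y (hp y hy)

theorem Abs_supp_avg (e : V →ₗ[ℂ] V) (p : Submodule ℂ V →₀ ℝ) (P Q : Submodule ℂ V → Prop)
    (hp : ∀ x ∈ p.support, P x) (h : ∀ x, P x → ∀ ε : ℤˣ, Q (x.comap (S e ε))) :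
    ∀ x ∈ (avg e p).support, Q x := by
  intro x hx
  unfold avg at hx
  have h1 := Finsupp.support_add (Finsupp.support_smul hx)
  rw [Finset.mem_union] at h1
  rcases h1 with h1 | h1
  · exact Abs_supp_map _ p P Q hp (fun y hy => h y hy 1) x h1
  · exact Abs_supp_map _ p P Q hp (fun y hy => h y hy (-1)) x h1

theorem Abs_supp_step (s : Step V) (p : Submodule ℂ V →₀ ℝ) (P Q : Submodule ℂ V → Prop)
    (hp : ∀ x ∈ p.support, P x) (h : ∀ x, P x → ∀ ε : ℤˣ × ℤˣ, Q (x.comap (s.op ε))) :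
    ∀ x ∈ (Abs_step s p).support, Q x := by
  unfold Abs_step
  have h0 : ∀ x ∈ (if s.turn = true then p.filter (fun T => ¬ Stable s.e s.f T)
      else p).support, P x := by
    intro x hx
    split_ifs at hx
    · rw [Finsupp.support_filter, Finset.mem_filter] at hx
      exact hp x hx.1
    · exact hp x hx
  refine Abs_supp_map _ _ (fun T => ∃ y, P y ∧ ∃ ε : ℤˣ × ℤˣ,
    T = (y.comap (S s.e ε.1)).comap (S s.f ε.2)) Q ?_ ?_
  · refine Abs_supp_avg s.f _ (fun T => ∃ y, P y ∧ ∃ ε : ℤˣ, T = y.comap (S s.e ε)) _ ?_ ?_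
    · refine Abs_supp_avg s.e _ P _ h0 ?_
      intro y hy ε
      exact ⟨y, hy, ε, rfl⟩
    · rintro T ⟨y, hy, ε, rfl⟩ ε'
      exact ⟨y, hy, (ε, ε'), rfl⟩
  · rintro T ⟨y, hy, ε, rfl⟩
    rw [← Abs_op_comap]
    exact h y hy ε

theorem Abs_nonneg_map {X : Type} (g : X → X) (p : X →₀ ℝ) (hp : ∀ x, 0 ≤ p x) :
    ∀ x, 0 ≤ Finsupp.mapDomain g p x := by
  intro x
  unfold Finsupp.mapDomain Finsupp.sum
  rw [Finsupp.finsetSum_apply]
  refine Finset.sum_nonneg fun y _ => ?_
  rw [Finsupp.single_apply]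
  split_ifs
  · exact hp y
  · exact le_rfl

theorem Abs_nonneg_avg (e : V →ₗ[ℂ] V) (p : Submodule ℂ V →₀ ℝ) (hp : ∀ x, 0 ≤ p x) :
    ∀ x, 0 ≤ avg e p x := by
  intro x
  unfold avg
  rw [Finsupp.smul_apply, Finsupp.add_apply, smul_eq_mul]
  have h1 := Abs_nonneg_map (Submodule.comap (S e 1)) p hp x
  have h2 := Abs_nonneg_map (Submodule.comap (S e (-1))) p hp x
  linarith

theorem Abs_nonneg_step (s : Step V) (p : Submodule ℂ V →₀ ℝ) (hp : ∀ x, 0 ≤ p x) :
    ∀ x, 0 ≤ Abs_step s p x := by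
  unfold Abs_step
  refine Abs_nonneg_map _ _ (Abs_nonneg_avg _ _ (Abs_nonneg_avg _ _ ?_))
  intro x
  split_ifs
  · by_cases h1 : Stable s.e s.f x
    · rw [Finsupp.filter_apply_neg (fun T => ¬ Stable s.e s.f T) _ (not_not.mpr h1)]
    · rw [Finsupp.filter_apply_pos (fun T => ¬ Stable s.e s.f T) _ h1]
      exact hp x
  · exact hp x

/-- The total mass. -/
noncomputable def Abs_mass {X : Type} (p : X →₀ ℝ) : ℝ := Abs_lc (fun _ => 1) p

theorem Abs_mass_step (s : Step V) (p : Submodule ℂ V →₀ ℝ) (hp : ∀ x, 0 ≤ p x) :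
    Abs_mass (Abs_step s p) ≤ Abs_mass p := by
  unfold Abs_mass Abs_step
  rw [Abs_lc_map, Abs_lc_avg, Abs_lc_avg]
  have h1 : (fun _ : Submodule ℂ V => (((1 : ℝ) + 1) / 2 + (1 + 1) / 2) / 2) = fun _ => 1 := by
    funext T; norm_num
  rw [h1]
  split_ifs
  · unfold Abs_lc
    rw [Finsupp.linearCombination_apply, Finsupp.linearCombination_apply,
      Finsupp.sum_of_support_subset (p.filter _) (s := p.support) (by
        rw [Finsupp.support_filter]; exact Finset.filter_subset _ _) _ (by intro i _; simp)]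
    refine Finset.sum_le_sum fun T _ => ?_
    by_cases h1 : Stable s.e s.f T
    · rw [Finsupp.filter_apply_neg (fun T => ¬ Stable s.e s.f T) _ (not_not.mpr h1)]
      simpa using hp T
    · rw [Finsupp.filter_apply_pos (fun T => ¬ Stable s.e s.f T) _ h1]
  · exact le_rfl

theorem Abs_N2_step (s : Step V) (p : Submodule ℂ V →₀ ℝ) : N2 (Abs_step s p) ≤ N2 p := by
  unfold Abs_step
  rw [Abs_N2_map _ _ (Abs_comap_inj s.g)]
  refine (Abs_N2_avg _ s.hf _).trans ((Abs_N2_avg _ s.he _).trans ?_)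
  split_ifs
  · exact Abs_N2_filter _ _
  · exact le_rfl

theorem Abs_N2_turn (h : St_Gap) (s : Step V) (hs : s.turn = true) (p : Submodule ℂ V →₀ ℝ) :
    N2 (Abs_step s p) ≤ (383 / 384) * N2 p := by
  unfold Abs_step
  rw [Abs_N2_map _ _ (Abs_comap_inj s.g), if_pos hs]
  refine (h V s.e s.f (s.ht hs) _ ?_).trans ?_
  · intro T hT
    rw [Finsupp.support_filter, Finset.mem_filter] at hT
    exact hT.2
  · exact mul_le_mul_of_nonneg_left (Abs_N2_filter _ _) (by norm_num)

/-! ### Cauchy-Schwarz -/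

theorem Abs_prob_nonneg (v : V) (L : List (Step V)) : ∀ T, 0 ≤ prob v L T := by
  induction L with
  | nil =>
    intro T
    unfold prob
    split_ifs <;> norm_num
  | cons s L ih =>
    intro T
    unfold prob
    exact div_nonneg (Finset.sum_nonneg fun ε _ => ih _) (by norm_num)

theorem Abs_prob_le (v : V) (L : List (Step V)) : ∀ T, prob v L T ≤ 1 := by
  induction L with
  | nil =>
    intro T
    unfold prob
    split_ifs <;> norm_num
  | cons s L ih =>
    intro T
    unfold prob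
    have h1 : (∑ ε : ℤˣ × ℤˣ, prob v L (T.comap (s.op ε))) ≤ ∑ ε : ℤˣ × ℤˣ, (1 : ℝ) :=
      Finset.sum_le_sum fun ε _ => ih _
    have h2 : (∑ ε : ℤˣ × ℤˣ, (1 : ℝ)) = 4 := by
      rw [Finset.sum_const, Finset.card_univ]
      have : Fintype.card (ℤˣ × ℤˣ) = 4 := by decide
      rw [this]; norm_num
    linarith

theorem Abs_prob_bot (v : V) (hv : v ≠ 0) (L : List (Step V)) : prob v L ⊥ = 0 := by
  induction L with
  | nil =>
    unfold prob
    rw [if_neg (by simpa using hv)]
  | cons s L ih =>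
    unfold prob
    have h1 : ∀ ε : ℤˣ × ℤˣ, (⊥ : Submodule ℂ V).comap (s.op ε) = ⊥ := by
      intro ε
      rw [Abs_op_comap, ← Abs_SE_coe s.e s.he, ← Abs_SE_coe s.f s.hf]
      simp only [Submodule.comap_bot, LinearEquiv.ker]
    rw [Finset.sum_congr rfl fun ε _ => by rw [h1 ε, ih]]
    simp

/-- The double sum. -/
noncomputable def Abs_Q (v : V) (L : List (Step V)) (p : Submodule ℂ V →₀ ℝ) : ℝ :=
  Abs_lc (fun T => Abs_lc (fun T' => prob v L (T ⊓ T')) p) p

theorem Abs_sq_le (v : V) (L : List (Step V)) : ∀ p : Submodule ℂ V →₀ ℝ,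
    Abs_lc (prob v L) p ^ 2 ≤ Abs_Q v L p := by
  induction L with
  | nil =>
    intro p
    unfold Abs_Q
    have h1 : ∀ T T' : Submodule ℂ V, prob v [] (T ⊓ T') = prob v [] T * prob v [] T' := by
      intro T T'
      unfold prob
      rw [Submodule.mem_inf]
      by_cases h1 : v ∈ T <;> by_cases h2 : v ∈ T' <;> simp [h1, h2]
    have h2 : (fun T => Abs_lc (fun T' => prob v [] (T ⊓ T')) p) =
        fun T => prob v [] T * Abs_lc (prob v []) p := by
      funext T
      unfold Abs_lc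
      rw [Finsupp.linearCombination_apply, Finsupp.linearCombination_apply, Finsupp.mul_sum]
      refine Finset.sum_congr rfl fun T' _ => ?_
      simp only [smul_eq_mul]
      rw [h1]
      ring
    rw [h2]
    apply le_of_eq
    have h3 : ∀ c : ℝ, Abs_lc (fun T => prob v [] T * c) p = Abs_lc (prob v []) p * c := by
      intro c
      unfold Abs_lc
      rw [Finsupp.linearCombination_apply, Finsupp.linearCombination_apply, Finsupp.sum_mul]
      refine Finset.sum_congr rfl fun T' _ => ?_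
      simp only [smul_eq_mul]
      ring
    rw [h3]
    ring
  | cons s L ih =>
    intro p
    have h1 : Abs_lc (prob v (s :: L)) p = (∑ ε : ℤˣ × ℤˣ,
        Abs_lc (prob v L) (Finsupp.mapDomain (Submodule.comap (s.op ε)) p)) / 4 := by
      simp only [Abs_lc_map]
      unfold Abs_lc
      simp only [Finsupp.linearCombination_apply, Finsupp.sum, smul_eq_mul]
      rw [Finset.sum_comm, Finset.sum_div]
      refine Finset.sum_congr rfl fun T _ => ?_
      rw [← Finset.mul_sum, mul_div_assoc]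
      rfl
    have h2 : Abs_Q v (s :: L) p = (∑ ε : ℤˣ × ℤˣ,
        Abs_Q v L (Finsupp.mapDomain (Submodule.comap (s.op ε)) p)) / 4 := by
      unfold Abs_Q
      simp only [Abs_lc_map]
      unfold Abs_lc
      simp only [Finsupp.linearCombination_apply, Finsupp.sum, smul_eq_mul]
      rw [Finset.sum_comm, Finset.sum_div]
      refine Finset.sum_congr rfl fun T _ => ?_
      rw [← Finset.mul_sum, mul_div_assoc]
      congr 1
      rw [Finset.sum_comm, Finset.sum_div]
      refine Finset.sum_congr rfl fun T' _ => ?_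
      rw [← Finset.mul_sum, mul_div_assoc]
      congr 1
    rw [h1, h2, div_pow]
    have h3 := sq_sum_le_card_mul_sum_sq (s := (Finset.univ : Finset (ℤˣ × ℤˣ)))
      (f := fun ε => Abs_lc (prob v L) (Finsupp.mapDomain (Submodule.comap (s.op ε)) p))
    have h4 : ((Finset.univ : Finset (ℤˣ × ℤˣ)).card : ℝ) = 4 := by
      have : (Finset.univ : Finset (ℤˣ × ℤˣ)).card = 4 := by decide
      rw [this]; norm_num
    rw [h4] at h3
    have h5 : ∑ ε : ℤˣ × ℤˣ, Abs_lc (prob v L)
        (Finsupp.mapDomain (Submodule.comap (s.op ε)) p) ^ 2 ≤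
        ∑ ε : ℤˣ × ℤˣ, Abs_Q v L (Finsupp.mapDomain (Submodule.comap (s.op ε)) p) :=
      Finset.sum_le_sum fun ε _ => ih _
    linarith

theorem Abs_Q_le (v : V) (L : List (Step V)) (p : Submodule ℂ V →₀ ℝ) (hp : ∀ x, 0 ≤ p x)
    (B : ℝ) (hB : 0 ≤ B)
    (h : ∀ T ∈ p.support, ∀ T' ∈ p.support, T ≠ T' → prob v L (T ⊓ T') ≤ B) :
    Abs_Q v L p ≤ N2 p + B * Abs_mass p ^ 2 := by
  have h0 : Abs_mass p = ∑ T ∈ p.support, p T := by
    unfold Abs_mass Abs_lc
    rw [Finsupp.linearCombination_apply]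
    simp [Finsupp.sum]
  rw [h0]
  unfold Abs_Q Abs_lc
  simp only [Finsupp.linearCombination_apply, Finsupp.sum, smul_eq_mul]
  rw [Abs_N2_eq p p.support le_rfl, pow_two (∑ T ∈ p.support, p T), Finset.sum_mul,
    Finset.mul_sum, ← Finset.sum_add_distrib]
  refine Finset.sum_le_sum fun T hT => ?_
  have h1 : ∑ T' ∈ p.support, p T' * prob v L (T ⊓ T') ≤
      ∑ T' ∈ p.support, p T' * ((if T = T' then 1 else 0) + B) := by
    refine Finset.sum_le_sum fun T' hT' => mul_le_mul_of_nonneg_left ?_ (hp T')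
    split_ifs with h2
    · have := Abs_prob_le v L (T ⊓ T')
      linarith
    · rw [zero_add]
      exact h T hT T' hT' h2
  have h2 : ∑ T' ∈ p.support, p T' * ((if T = T' then 1 else 0) + B) =
      p T + B * ∑ T' ∈ p.support, p T' := by
    rw [Finset.mul_sum]
    simp only [mul_add, Finset.sum_add_distrib, mul_ite, mul_one, mul_zero]
    rw [Finset.sum_ite_eq, if_pos hT]
    congr 1
    exact Finset.sum_congr rfl fun T' _ => by ring
  rw [h2] at h1
  have h3 := mul_le_mul_of_nonneg_left h1 (hp T)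
  nlinarith [h3]

/-! ### the induction -/

theorem Abs_main (hG : St_Gap) [Module.Finite ℂ V] (v : V)
    (𝒜 : List (Step V) → Submodule ℂ V → Prop)
    (h1 : ∀ L T T', T' ≤ T → 𝒜 L T → 𝒜 L T')
    (h2 : ∀ s L T ε, 𝒜 (s :: L) T → 𝒜 L (T.comap (s.op ε)))
    (h3 : ∀ s L T, s.turn = true → 𝒜 (s :: L) T → Stable s.e s.f T → prob v (s :: L) T = 0)
    (d m : ℕ) (B : ℝ) (hB : 0 ≤ B)
    (hd : ∀ L T, 𝒜 L T → Module.finrank ℂ T ≤ d → m ≤ turns L → prob v L T ≤ B) :
    ∀ (L : List (Step V)) (j : ℕ) (p : Submodule ℂ V →₀ ℝ), (∀ x, 0 ≤ p x) → Abs_mass p ≤ 1 →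
      (∀ T ∈ p.support, 𝒜 L T ∧ Module.finrank ℂ T ≤ d + 1) → j + m ≤ turns L →
      Abs_lc (prob v L) p ^ 2 ≤ (383 / 384 : ℝ) ^ j * N2 p + B := by
  intro L
  induction L with
  | nil =>
    intro j p hp hm hs hj
    have hj0 : j = 0 := by
      have : turns ([] : List (Step V)) = 0 := rfl
      omega
    subst hj0
    rw [pow_zero, one_mul]
    refine (Abs_sq_le v [] p).trans ((Abs_Q_le v [] p hp B hB ?_).trans ?_)
    · intro T hT T' hT' hne
      apply hd _ _ (h1 _ _ _ inf_le_left (hs T hT).1) _ (by omega)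
      rcases lt_or_eq_of_le (inf_le_left : T ⊓ T' ≤ T) with h4 | h4
      · have := Submodule.finrank_lt_finrank_of_lt h4
        have := (hs T hT).2
        omega
      · rcases lt_or_eq_of_le (inf_le_right : T ⊓ T' ≤ T') with h5 | h5
        · have := Submodule.finrank_lt_finrank_of_lt h5
          have := (hs T' hT').2
          omega
        · exact absurd (h4.symm.trans h5) hne
    · have h5 : 0 ≤ Abs_mass p := Abs_lc_nonneg _ _ hp fun _ => zero_le_one
      have h6 : Abs_mass p ^ 2 ≤ 1 := by nlinarith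
      nlinarith
  | cons s L ih =>
    intro j p hp hm hs hj
    rcases Nat.eq_zero_or_pos j with hj0 | hj0
    · subst hj0
      rw [pow_zero, one_mul]
      refine (Abs_sq_le v _ p).trans ((Abs_Q_le v _ p hp B hB ?_).trans ?_)
      · intro T hT T' hT' hne
        apply hd _ _ (h1 _ _ _ inf_le_left (hs T hT).1) _ (by omega)
        rcases lt_or_eq_of_le (inf_le_left : T ⊓ T' ≤ T) with h4 | h4
        · have := Submodule.finrank_lt_finrank_of_lt h4
          have := (hs T hT).2
          omega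
        · rcases lt_or_eq_of_le (inf_le_right : T ⊓ T' ≤ T') with h5 | h5
          · have := Submodule.finrank_lt_finrank_of_lt h5
            have := (hs T' hT').2
            omega
          · exact absurd (h4.symm.trans h5) hne
      · have h5 : 0 ≤ Abs_mass p := Abs_lc_nonneg _ _ hp fun _ => zero_le_one
        have h6 : Abs_mass p ^ 2 ≤ 1 := by nlinarith
        nlinarith
    · have e1 : Abs_lc (prob v L) (Abs_step s p) = Abs_lc (prob v (s :: L)) p :=
        Abs_lc_step v s L p fun ht T hT hst => h3 s L T ht (hs T hT).1 hst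
      have e2 : ∀ T ∈ (Abs_step s p).support, 𝒜 L T ∧ Module.finrank ℂ T ≤ d + 1 := by
        refine Abs_supp_step s p (fun T => 𝒜 (s :: L) T ∧ Module.finrank ℂ T ≤ d + 1) _ hs ?_
        rintro T ⟨hT1, hT2⟩ ε
        refine ⟨h2 s L T ε hT1, ?_⟩
        rw [Abs_op_comap, Abs_finrank_comap, Abs_finrank_comapS _ s.hf, Abs_finrank_comapS _ s.he]
        exact hT2
      have e3 : Abs_mass (Abs_step s p) ≤ 1 := (Abs_mass_step s p hp).trans hm
      have e4 := Abs_nonneg_step s p hp
      by_cases ht : s.turn = true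
      · have e5 : turns (s :: L) = turns L + 1 := by
          unfold turns
          rw [List.countP_cons, if_pos ht]
        have e6 := ih (j - 1) (Abs_step s p) e4 e3 e2 (by omega)
        rw [e1] at e6
        have e7 := Abs_N2_turn hG s ht p
        have e8 : (383 / 384 : ℝ) ^ j = (383 / 384 : ℝ) ^ (j - 1) * (383 / 384) := by
          rw [← pow_succ]
          congr 1
          omega
        rw [e8]
        have e9 : (0 : ℝ) ≤ (383 / 384 : ℝ) ^ (j - 1) := by positivity
        nlinarith [mul_le_mul_of_nonneg_left e7 e9]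
      · have e5 : turns (s :: L) = turns L := by
          unfold turns
          rw [List.countP_cons, if_neg ht, add_zero]
        have e6 := ih j (Abs_step s p) e4 e3 e2 (by omega)
        rw [e1] at e6
        have e7 := Abs_N2_step s p
        have e9 : (0 : ℝ) ≤ (383 / 384 : ℝ) ^ j := by positivity
        nlinarith [mul_le_mul_of_nonneg_left e7 e9]

theorem thm_Abs (hG : St_Gap) : St_Abs := by
  intro V _ _ _ v hv 𝒜 h1 h2 h3 d l
  set x : ℝ := (383 / 384 : ℝ) ^ l with hx
  have hx0 : 0 < x := by positivity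
  have hx1 : x ≤ 1 := pow_le_one₀ (by norm_num) (by norm_num)
  induction d with
  | zero =>
    intro L T _ hT _
    have h4 : T = ⊥ := by
      rw [← Submodule.finrank_eq_zero (R := ℂ)]
      omega
    rw [h4, Abs_prob_bot v hv]
    positivity
  | succ d ih =>
    intro L T hA hT hL
    set y : ℝ := x ^ ((1 / 2 : ℝ) ^ (d + 1)) with hy
    have hy0 : 0 < y := Real.rpow_pos_of_pos hx0 _
    have hyy : x ^ ((1 / 2 : ℝ) ^ d) = y ^ 2 := by
      have e1 : y ^ 2 = x ^ ((1 / 2 : ℝ) ^ (d + 1) * ((2 : ℕ) : ℝ)) := by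
        rw [hy, Real.rpow_mul hx0.le, Real.rpow_natCast]
      rw [e1]
      congr 1
      rw [pow_succ]
      push_cast
      ring
    have hxy : x ≤ y ^ 2 := by
      rw [← hyy]
      calc x = x ^ (1 : ℝ) := (Real.rpow_one x).symm
        _ ≤ x ^ ((1 / 2 : ℝ) ^ d) := by
          apply Real.rpow_le_rpow_of_exponent_ge hx0 hx1
          exact pow_le_one₀ (by norm_num) (by norm_num)
    have h4 := Abs_main hG v 𝒜 h1 h2 h3 d (d * l) (2 * y ^ 2) (by positivity) (by
      intro L' T' hA' hT' hL'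
      rw [← hyy]
      exact ih L' T' hA' hT' hL') L l (Finsupp.single T 1) (by
        intro T'
        rw [Finsupp.single_apply]
        split_ifs <;> norm_num) (by
        unfold Abs_mass Abs_lc
        rw [Finsupp.linearCombination_single]
        norm_num) (by
        intro T' hT'
        rw [Finsupp.support_single _ one_ne_zero, Finset.mem_singleton] at hT'
        subst hT'
        exact ⟨hA, hT⟩) (by
        have : (d + 1) * l = l + d * l := by ring
        omega)
    have h5 : Abs_lc (prob v L) (Finsupp.single T 1) = prob v L T := by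
      unfold Abs_lc
      rw [Finsupp.linearCombination_single, one_smul]
    have h6 : N2 (Finsupp.single T (1 : ℝ)) = 1 := by
      unfold N2
      rw [Finsupp.sum_single_index (by norm_num)]
      norm_num
    rw [h5, h6, mul_one] at h4
    have h7 : prob v L T ^ 2 ≤ (2 * y) ^ 2 := by
      have : (383 / 384 : ℝ) ^ l = x := rfl
      rw [this] at h4
      nlinarith
    exact le_of_sq_le_sq h7 (by positivity)
where
  le_of_sq_le_sq {a b : ℝ} (h : a ^ 2 ≤ b ^ 2) (hb : 0 ≤ b) : a ≤ b := by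
    exact le_of_not_gt fun h' => by nlinarith

end Pool.RU
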