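import Pool.Agent.RU.St

/-!
# RB: sets of 2 x 2 matrices without a common eigenvector
-/

set_option autoImplicit false

namespace Pool.RU

open Matrix

private abbrev Burn_M : Type := Matrix (Fin 2) (Fin 2) ℂ

private theorem Burn_line (a b x y : ℂ) (h0 : a ≠ 0 ∨ b ≠ 0) (h : a * x + b * y = 0) :
    ∃ c : ℂ, x = c * b ∧ y = c * -a := by
  rcases h0 with h1 | h1
  · refine ⟨-y / a, ?_, ?_⟩
    · field_simp
      linear_combination h
    · field_simp
  · refine ⟨x / b, ?_, ?_⟩
    · field_simp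
    · field_simp
      linear_combination h

/-- A nonzero singular matrix is a product of a column and a row. -/
private theorem Burn_rank (C : Burn_M) (hC : C ≠ 0) (hd : C.det = 0) :
    ∃ u w : Fin 2 → ℂ, (u 0 ≠ 0 ∨ u 1 ≠ 0) ∧ (w 0 ≠ 0 ∨ w 1 ≠ 0) ∧ ∀ i j, C i j = u i * w j := by
  rw [Matrix.det_fin_two] at hd
  by_cases h0 : C 0 0 ≠ 0 ∨ C 0 1 ≠ 0
  · obtain ⟨t, ht0, ht1⟩ : ∃ t, C 1 0 = t * C 0 0 ∧ C 1 1 = t * C 0 1 := by
      rcases h0 with h1 | h1
      · refine ⟨C 1 0 / C 0 0, ?_, ?_⟩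
        · field_simp
        · field_simp
          linear_combination hd
      · refine ⟨C 1 1 / C 0 1, ?_, ?_⟩
        · field_simp
          linear_combination -hd
        · field_simp
    refine ⟨![1, t], C 0, Or.inl (by simp), h0, ?_⟩
    intro i j
    fin_cases i <;> fin_cases j <;> simp [ht0, ht1]
  · push Not at h0
    refine ⟨![0, 1], C 1, Or.inr (by simp), ?_, ?_⟩
    · by_contra h1
      push Not at h1
      apply hC
      ext i j
      fin_cases i <;> fin_cases j <;> simp [h0.1, h0.2, h1.1, h1.2]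
    · intro i j
      fin_cases i <;> fin_cases j <;> simp [h0.1, h0.2]

/-- Case (a): a singular annihilator gives a common eigenvector. -/
private theorem Burn_sing (H : Set Burn_M) (h1 : 1 ∈ H) (C : Burn_M) (hC : C ≠ 0)
    (hd : C.det = 0) (hA : ∀ h ∈ H, (C * h).trace = 0) :
    ∃ v : Fin 2 → ℂ, v ≠ 0 ∧ ∀ h ∈ H, ∃ c : ℂ, h *ᵥ v = c • v := by
  obtain ⟨u, w, hu, hw, hC'⟩ := Burn_rank C hC hd
  have hA' : ∀ h ∈ H, w 0 * (h 0 0 * u 0 + h 0 1 * u 1) + w 1 * (h 1 0 * u 0 + h 1 1 * u 1) = 0 := by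
    intro h hh
    have := hA h hh
    rw [Matrix.trace_fin_two, Matrix.mul_apply, Matrix.mul_apply, Fin.sum_univ_two,
      Fin.sum_univ_two, hC', hC', hC', hC'] at this
    linear_combination this
  have e1 := hA' 1 h1
  simp only [Matrix.one_apply_eq, ne_eq, Fin.isValue, zero_ne_one, not_false_eq_true,
    Matrix.one_apply_ne, one_ne_zero, one_mul, zero_mul, add_zero, zero_add] at e1
  obtain ⟨c', hc0, hc1⟩ := Burn_line _ _ _ _ hw e1
  have hc' : c' ≠ 0 := by
    rintro rfl
    rcases hu with h | h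
    · exact h (by rw [hc0, zero_mul])
    · exact h (by rw [hc1, zero_mul])
  refine ⟨![w 1, -w 0], ?_, ?_⟩
  · intro h
    have h2 := congrFun h 0
    have h3 := congrFun h 1
    simp at h2 h3
    rcases hw with h4 | h4
    · exact h4 h3
    · exact h4 h2
  · intro h hh
    have e2 := hA' h hh
    rw [hc0, hc1] at e2
    have e3 : w 0 * (h 0 0 * w 1 + h 0 1 * -w 0) + w 1 * (h 1 0 * w 1 + h 1 1 * -w 0) = 0 := by
      apply mul_left_cancel₀ hc'
      linear_combination e2
    obtain ⟨c, h2, h3⟩ := Burn_line _ _ _ _ hw e3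
    refine ⟨c, ?_⟩
    ext i
    fin_cases i
    · simp [Matrix.mulVec, dotProduct, Fin.sum_univ_two]
      linear_combination h2
    · simp [Matrix.mulVec, dotProduct, Fin.sum_univ_two]
      linear_combination h3

/-- The eigenvalues. -/
private theorem Burn_eig (h : Burn_M) : ∃ l : ℂ, (h - l • (1 : Burn_M)).det = 0 := by
  obtain ⟨s, hs⟩ := IsAlgClosed.exists_pow_nat_eq
    ((h 0 0 - h 1 1) ^ 2 + 4 * h 0 1 * h 1 0) (n := 2) (by norm_num)
  refine ⟨(h 0 0 + h 1 1 + s) / 2, ?_⟩
  rw [Matrix.det_fin_two]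
  simp
  linear_combination (1 / 4 : ℂ) * hs

/-- The annihilator is trivial. -/
private theorem Burn_ann (H : Set Burn_M) (h1 : 1 ∈ H) (hm : ∀ g ∈ H, ∀ h ∈ H, g * h ∈ H)
    (hn : ¬ ∃ v : Fin 2 → ℂ, v ≠ 0 ∧ ∀ h ∈ H, ∃ c : ℂ, h *ᵥ v = c • v) (C : Burn_M)
    (hA : ∀ h ∈ H, (C * h).trace = 0) : C = 0 := by
  by_contra hC
  by_cases hd : C.det = 0
  · exact hn (Burn_sing H h1 C hC hd hA)
  · apply hn
    refine ⟨![1, 0], ?_, ?_⟩
    · intro h
      have := congrFun h 0
      simp at this
    · intro h hh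
      obtain ⟨l, hl⟩ := Burn_eig h
      refine ⟨l, ?_⟩
      have hz : C * (h - l • (1 : Burn_M)) = 0 := by
        by_contra hne
        apply hn
        refine Burn_sing H h1 _ hne (by rw [Matrix.det_mul, hl, mul_zero]) ?_
        intro k hk
        have e1 := hA _ (hm h hh k hk)
        have e2 := hA k hk
        have e3 : C * (h - l • (1 : Burn_M)) * k = C * (h * k) - l • (C * k) := by
          rw [Matrix.mul_sub, Matrix.sub_mul, Matrix.mul_assoc, Matrix.mul_smul, Matrix.mul_one,
            Matrix.smul_mul]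
        rw [e3, Matrix.trace_sub, Matrix.trace_smul, e1, e2]
        simp
      have hu : IsUnit C.det := isUnit_iff_ne_zero.2 hd
      have e4 : h - l • (1 : Burn_M) = 0 := by
        have := congrArg (fun X => C⁻¹ * X) hz
        simpa [Matrix.nonsing_inv_mul_cancel_left _ _ hu] using this
      have e5 : h = l • (1 : Burn_M) := sub_eq_zero.1 e4
      rw [e5, Matrix.smul_mulVec, Matrix.one_mulVec]

/-- BURN -/
theorem thm_Burn : St_Burn := by
  intro H h1 hm hn
  have hann := Burn_ann H h1 hm hn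
  refine ⟨?_, ?_⟩
  · by_contra hne
    obtain ⟨f, hf, hle⟩ := Submodule.exists_le_ker_of_lt_top _ (lt_top_iff_ne_top.2 hne)
    apply hf
    have key : ∀ X : Burn_M, f X =
        ((Matrix.of fun i j => f (Matrix.single j i (1 : ℂ))) * X).trace := by
      intro X
      have hX : X = ∑ i, ∑ j, X i j • Matrix.single i j (1 : ℂ) := by
        conv_lhs => rw [Matrix.matrix_eq_sum_single X]
        simp [Matrix.smul_single]
      conv_lhs => rw [hX]
      simp only [Fin.sum_univ_two, map_add, map_smul, smul_eq_mul, Matrix.trace_fin_two, Matrix.mul_apply,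
        Matrix.of_apply]
      ring
    have hC := hann (Matrix.of fun i j => f (Matrix.single j i (1 : ℂ))) (fun h hh => by
      rw [← key]
      exact hle (Submodule.subset_span hh))
    ext X
    rw [key, hC]
    simp
  · by_contra hne
    push Not at hne
    apply hn
    refine ⟨![1, 0], ?_, ?_⟩
    · intro h
      have := congrFun h 0
      simp at this
    · intro g hg
      have e : g - 1 = 0 := hann (g - 1) (fun h hh => by
        rw [Matrix.sub_mul, Matrix.one_mul, Matrix.trace_sub, hne _ (hm g hg h hh), hne _ hh,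
          sub_self])
      refine ⟨1, ?_⟩
      rw [sub_eq_zero.1 e, Matrix.one_mulVec, one_smul]

end Pool.RU
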