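import Pool.Agent.RU.Words

/-!
# The final count
-/

set_option autoImplicit false

namespace Pool.RU

open LaurentPolynomial

open scoped Classical

variable {K n : ℕ}

/-- The average over the positions of the weights. -/
theorem avp_exp (κ : ℝ) (q : ℕ) :
    (avp q fun M : List (Blk K) => Real.exp (-κ * (M.countP fun s => nb s))) =
      ((∑ a : Fin K × Fin K, Real.exp (-κ * (if nb (a.1, a.2, []) = true then 1 else 0))) /
        (K * K)) ^ q := by
  induction q with
  | zero =>
    show Real.exp (-κ * ((([] : List (Blk K)).countP fun s => nb s : ℕ) : ℝ)) = _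
    simp
  | succ q ih =>
    show (∑ a : Fin K × Fin K, avp q fun M =>
      Real.exp (-κ * ((((a.1, a.2, []) :: M : List (Blk K)).countP fun s => nb s : ℕ) : ℝ))) /
        (K * K) = _
    have h1 : ∀ a : Fin K × Fin K, (avp q fun M =>
        Real.exp (-κ * ((((a.1, a.2, []) :: M : List (Blk K)).countP fun s => nb s : ℕ) : ℝ))) =
        Real.exp (-κ * (if nb (a.1, a.2, []) = true then 1 else 0)) *
          avp q fun M : List (Blk K) => Real.exp (-κ * (M.countP fun s => nb s)) := by
      intro a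
      rw [← avp_mul]
      congr 1
      funext M
      rw [← Real.exp_add]
      congr 1
      rw [List.countP_cons]
      split_ifs <;> push_cast <;> ring
    rw [Finset.sum_congr rfl fun a _ => h1 a, ← Finset.sum_mul, ih, pow_succ]
    ring

/-- The base of the exponential for random words. -/
theorem theta_lt (hK : 2 ≤ K) (κ : ℝ) (hκ : 0 < κ) :
    0 < (∑ a : Fin K × Fin K, Real.exp (-κ * (if nb (a.1, a.2, []) = true then 1 else 0))) /
        (K * K) ∧
    (∑ a : Fin K × Fin K, Real.exp (-κ * (if nb (a.1, a.2, []) = true then 1 else 0))) /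
        (K * K) < 1 := by
  have hK0 : (0 : ℝ) < K := by exact_mod_cast (by omega : 0 < K)
  have h0 : (⟨0, by omega⟩, ⟨1, by omega⟩) ∈ (Finset.univ : Finset (Fin K × Fin K)) :=
    Finset.mem_univ _
  constructor
  · apply div_pos _ (by positivity)
    exact Finset.sum_pos (fun a _ => Real.exp_pos _) ⟨_, h0⟩
  · rw [div_lt_one (by positivity)]
    have h1 : ∑ a : Fin K × Fin K, Real.exp (-κ * (if nb (a.1, a.2, []) = true then 1 else 0)) <
        ∑ a : Fin K × Fin K, (1 : ℝ) := by
      refine Finset.sum_lt_sum (fun a _ => ?_) ⟨_, h0, ?_⟩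
      · apply Real.exp_le_one_iff.mpr
        split_ifs
        · linarith
        · simp
      · have h2 : nb ((⟨0, by omega⟩, ⟨1, by omega⟩, []) : Blk K) = true := by
          unfold nb
          simp
        simp only [h2, if_true]
        rw [Real.exp_lt_one_iff]
        linarith
    refine h1.trans_eq ?_
    rw [Finset.sum_const, Finset.card_univ, Fintype.card_prod, Fintype.card_fin]
    simp

/-! ### the main theorem -/

theorem main (hG : St_Gap) (hT : St_PgTurn) (h : St_PgTL) (hP : St_Par) (K : ℕ) :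
    ∃ C κ : ℝ, 0 < κ ∧ ∀ (n : ℕ) (D : Diagram K n) (P : ℤ[T;T⁻¹]),
      (∀ (m : ℕ) (w₀ : List (Fin K × ℤˣ)) (a b : Fin m → Fin K)
        (w : Fin m → List (Fin K × ℤˣ)),
        (∀ j, (a j).val + 1 = (b j).val ∨ (b j).val + 1 = (a j).val) →
        (Nat.card {ε : Fin m → ℤˣ × ℤˣ // (D.insert (boxWord w₀ a b w ε)).IsKnot ∧
          ∃ o, (D.insert (boxWord w₀ a b w ε)).IsOrientation o ∧
            ((D.insert (boxWord w₀ a b w ε)).normalized o = P ∨
              (D.insert (boxWord w₀ a b w ε)).determinant o ≤ Real.exp (κ * m))} : ℝ) ≤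
                C * Real.exp (-κ * m) * 4 ^ m) ∧
      (2 ≤ K → ∀ t : ℕ, (Nat.card {w : Fin t → Fin K × ℤˣ //
        (D.insert (List.ofFn w)).IsKnot ∧ ∃ o, (D.insert (List.ofFn w)).IsOrientation o ∧
          ((D.insert (List.ofFn w)).normalized o = P ∨
            (D.insert (List.ofFn w)).determinant o ≤ Real.exp (κ * t))} : ℝ) ≤
              C * Real.exp (-κ * t) * (2 * K) ^ t) := by
  obtain ⟨C, κ, hC, hκ, hmain⟩ := walk_exp hG hT h hP K
  obtain ⟨θ, hθ⟩ : ∃ θ : ℝ, θ = (∑ a : Fin K × Fin K,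
    Real.exp (-κ * (if nb (a.1, a.2, []) = true then 1 else 0))) / (K * K) := ⟨_, rfl⟩
  obtain ⟨η, hη⟩ : ∃ η : ℝ, η = if 2 ≤ K then -Real.log θ / 2 else 1 := ⟨_, rfl⟩
  have hη0 : 0 < η := by
    rw [hη]
    split_ifs with hK
    · have h1 := theta_lt hK κ hκ
      rw [← hθ] at h1
      have := Real.log_neg h1.1 h1.2
      linarith
    · exact one_pos
  obtain ⟨δ, hδ⟩ : ∃ δ : ℝ, δ = min κ η / 4 := ⟨_, rfl⟩
  have hδ0 : 0 < δ := by
    rw [hδ]
    have := lt_min hκ hη0
    linarith
  have hδκ : 4 * δ ≤ κ := by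
    have := min_le_left κ η
    linarith
  have hδη : 4 * δ ≤ η := by
    have := min_le_right κ η
    linarith
  have hsq : ∀ x : ℝ, 0 ≤ x → (1 + Real.exp (δ * x)) ^ 2 ≤ 4 * Real.exp (2 * δ * x) := by
    intro x hx
    have h1 : 1 ≤ Real.exp (δ * x) := Real.one_le_exp (by positivity)
    have h2 : Real.exp (2 * δ * x) = Real.exp (δ * x) * Real.exp (δ * x) := by
      rw [← Real.exp_add]
      congr 1
      ring
    rw [h2]
    nlinarith
  refine ⟨4 * C * Real.exp η, δ, hδ0, fun n D P => ⟨?_, ?_⟩⟩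
  · intro m w₀ a b w hab
    show (Nat.card {ε : Fin m → ℤˣ × ℤˣ // Ev D P (Real.exp (δ * m)) (boxWord w₀ a b w ε)} : ℝ) ≤ _
    rw [card_box, mul_comm]
    refine mul_le_mul_of_nonneg_right ?_ (by positivity)
    refine (hmain n D P (Real.exp (δ * m)) (Real.exp_pos _).le w₀ _).trans ?_
    have h2 : (List.ofFn fun j => ((a j, b j, w j) : Blk K)).countP (fun s => nb s) = m := by
      rw [List.countP_eq_length.mpr, List.length_ofFn]
      intro s hs
      rw [List.mem_ofFn] at hs
      obtain ⟨j, rfl⟩ := hs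
      exact decide_eq_true (hab j)
    rw [h2]
    have hm0 : (0 : ℝ) ≤ m := by positivity
    have h3 := hsq m hm0
    have h4 : C * (1 + Real.exp (δ * m)) ^ 2 * Real.exp (-κ * m) ≤
        C * (4 * Real.exp (2 * δ * m)) * Real.exp (-κ * m) :=
      mul_le_mul_of_nonneg_right (mul_le_mul_of_nonneg_left h3 hC.le) (Real.exp_pos _).le
    refine h4.trans ?_
    have h5 : C * (4 * Real.exp (2 * δ * m)) * Real.exp (-κ * m) =
        4 * C * Real.exp (2 * δ * m + -κ * m) := by
      rw [Real.exp_add]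
      ring
    have h6 : 4 * C * Real.exp η * Real.exp (-δ * m) = 4 * C * Real.exp (η + -δ * m) := by
      rw [Real.exp_add]
      ring
    rw [h5, h6]
    refine mul_le_mul_of_nonneg_left (Real.exp_le_exp.mpr ?_) (by positivity)
    nlinarith
  · intro hK t
    have hK0 : 0 < K := by omega
    have hKr : (0 : ℝ) < K := by exact_mod_cast hK0
    obtain ⟨hθ0, hθ1⟩ := theta_lt hK κ hκ
    rw [← hθ] at hθ0 hθ1
    have hηe : η = -Real.log θ / 2 := by rw [hη, if_pos hK]
    obtain ⟨R, hR⟩ : ∃ R : ℝ, R = Real.exp (δ * t) := ⟨_, rfl⟩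
    have hR0 : 0 ≤ R := by rw [hR]; exact (Real.exp_pos _).le
    have ht0 : (0 : ℝ) ≤ t := by positivity
    have hR2 : (1 + R) ^ 2 ≤ 4 * Real.exp (2 * δ * t) := by rw [hR]; exact hsq t ht0
    show (Nat.card {w : Fin t → Fin K × ℤˣ // Ev D P (Real.exp (δ * t)) (List.ofFn w)} : ℝ) ≤ _
    rw [← hR, card_sum, sum_avw hK0 t fun y => if Ev D P R y then 1 else 0, mul_comm]
    refine mul_le_mul_of_nonneg_right ?_ (by positivity)
    have h1 : ∀ (q : ℕ) (w₀ : List (Fin K × ℤˣ)),
        (avw (2 * q) fun y => if Ev D P R (w₀ ++ y) then 1 else 0) ≤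
          C * (1 + R) ^ 2 * θ ^ q := by
      intro q w₀
      rw [avw_two]
      refine (avp_mono q _ _ fun M => hmain n D P R hR0 w₀ M).trans ?_
      rw [avp_mul, avp_exp, hθ]
    have h2 : ∀ q : ℕ, θ ^ q = Real.exp (-η * (2 * q)) := by
      intro q
      rw [hηe, ← Real.rpow_natCast, Real.rpow_def_of_pos hθ0]
      congr 1
      ring
    have h3 : ∀ q : ℕ, (t : ℝ) ≤ 2 * q + 1 →
        C * (1 + R) ^ 2 * θ ^ q ≤ 4 * C * Real.exp η * Real.exp (-δ * t) := by
      intro q hx
      rw [h2]
      have h4 : C * (1 + R) ^ 2 * Real.exp (-η * (2 * q)) ≤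
          C * (4 * Real.exp (2 * δ * t)) * Real.exp (-η * (2 * q)) :=
        mul_le_mul_of_nonneg_right (mul_le_mul_of_nonneg_left hR2 hC.le) (Real.exp_pos _).le
      refine h4.trans ?_
      have h5 : C * (4 * Real.exp (2 * δ * t)) * Real.exp (-η * (2 * q)) =
          4 * C * Real.exp (2 * δ * t + -η * (2 * q)) := by
        rw [Real.exp_add]
        ring
      have h6 : 4 * C * Real.exp η * Real.exp (-δ * t) = 4 * C * Real.exp (η + -δ * t) := by
        rw [Real.exp_add]
        ring
      rw [h5, h6]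
      refine mul_le_mul_of_nonneg_left (Real.exp_le_exp.mpr ?_) (by positivity)
      nlinarith
    rcases Nat.even_or_odd' t with ⟨q, hq | hq⟩
    · have h4 : avw t (fun y : List (Fin K × ℤˣ) => if Ev D P R y then (1 : ℝ) else 0) ≤
          C * (1 + R) ^ 2 * θ ^ q := by
        rw [hq]
        exact h1 q []
      refine h4.trans (h3 q ?_)
      rw [hq]
      push_cast
      linarith
    · have h4 : avw t (fun y : List (Fin K × ℤˣ) => if Ev D P R y then (1 : ℝ) else 0) ≤
          C * (1 + R) ^ 2 * θ ^ q := by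
        rw [hq]
        show (∑ l : Fin K × ℤˣ, avw (2 * q) fun y => if Ev D P R (l :: y) then 1 else 0) /
          (2 * K) ≤ _
        rw [div_le_iff₀ (by positivity)]
        refine (Finset.sum_le_sum fun l _ => h1 q [l]).trans ?_
        rw [Finset.sum_const, Finset.card_univ, Fintype.card_prod, Fintype.card_fin,
          nsmul_eq_mul]
        have : Fintype.card ℤˣ = 2 := by decide
        rw [this]
        push_cast
        apply le_of_eq
        ring
      refine h4.trans (h3 q ?_)
      rw [hq]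
      push_cast
      linarith

end Pool.RU
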