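import Pool.Agent.RU.St

/-!
# RB [Gap]: the contraction of two letters with free signs
-/

namespace Pool.RU

open Matrix

open scoped Classical MatrixGroups ComplexConjugate

/-! ### The quadratic form -/

private theorem Gap_N2_eq {X : Type} (p : X →₀ ℝ) (F : Finset X) (h : p.support ⊆ F) :
    N2 p = ∑ t ∈ F, p t ^ 2 :=
  Finsupp.sum_of_support_subset p h _ (by intro i _; simp)

private theorem Gap_N2_nonneg {X : Type} (p : X →₀ ℝ) : 0 ≤ N2 p :=
  Finset.sum_nonneg fun _ _ => sq_nonneg _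

private theorem Gap_par {X : Type} (u v : X →₀ ℝ) :
    N2 (u + v) + N2 (u - v) = 2 * N2 u + 2 * N2 v := by
  have h1 : (u + v).support ⊆ u.support ∪ v.support := Finsupp.support_add
  have h2 : (u - v).support ⊆ u.support ∪ v.support := Finsupp.support_sub
  rw [Gap_N2_eq _ _ h1, Gap_N2_eq _ _ h2, Gap_N2_eq u _ Finset.subset_union_left,
    Gap_N2_eq v _ Finset.subset_union_right, ← Finset.sum_add_distrib, Finset.mul_sum,
    Finset.mul_sum, ← Finset.sum_add_distrib]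
  refine Finset.sum_congr rfl fun t _ => ?_
  rw [Finsupp.add_apply, Finsupp.sub_apply]
  ring

private theorem Gap_smul {X : Type} (c : ℝ) (u : X →₀ ℝ) : N2 (c • u) = c ^ 2 * N2 u := by
  rw [Gap_N2_eq (c • u) u.support Finsupp.support_smul, Gap_N2_eq u u.support subset_rfl,
    Finset.mul_sum]
  refine Finset.sum_congr rfl fun t _ => ?_
  rw [Finsupp.smul_apply, smul_eq_mul]
  ring

private theorem Gap_map {X : Type} (g : Equiv.Perm X) (u : X →₀ ℝ) :
    N2 (Finsupp.mapDomain g u) = N2 u := by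
  unfold N2
  exact Finsupp.sum_mapDomain_index_inj g.injective

private theorem Gap_le {X : Type} (u v : X →₀ ℝ) : N2 (u + v) ≤ 2 * N2 u + 2 * N2 v := by
  have h := Gap_par u v
  have h2 := Gap_N2_nonneg (u - v)
  linarith

private theorem Gap_lesub {X : Type} (u v : X →₀ ℝ) : N2 (u - v) ≤ 2 * N2 u + 2 * N2 v := by
  have h := Gap_par u v
  have h2 := Gap_N2_nonneg (u + v)
  linarith

private theorem Gap_mapmap {X : Type} (g h : X → X) (u : X →₀ ℝ) :
    Finsupp.mapDomain g (Finsupp.mapDomain h u) = Finsupp.mapDomain (fun t => g (h t)) u :=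
  Finsupp.mapDomain_comp.symm

/-- The norm of the average of `s p` and `s⁻¹ p`. -/
private theorem Gap_avg {X : Type} (s : Equiv.Perm X) (p : X →₀ ℝ) :
    N2 ((1 / 2 : ℝ) • (Finsupp.mapDomain s p + Finsupp.mapDomain s.symm p)) =
      N2 p - N2 (Finsupp.mapDomain (s * s) p - p) / 4 := by
  have h1 := Gap_par (Finsupp.mapDomain s p) (Finsupp.mapDomain s.symm p)
  have h2 : N2 (Finsupp.mapDomain s p - Finsupp.mapDomain s.symm p) =
      N2 (Finsupp.mapDomain (s * s) p - p) := by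
    rw [← Gap_map s, Finsupp.mapDomain_sub, Gap_mapmap, Gap_mapmap]
    have h3 : (fun t => s (s.symm t)) = id := by
      funext t
      simp
    rw [h3, Finsupp.mapDomain_id]
    rfl
  rw [Gap_smul]
  rw [Gap_map, Gap_map] at h1
  rw [h2] at h1
  linarith

/-- The inequality from `St_Ping`. -/
private theorem Gap_main {X : Type} (h3 : St_Ping) (s t : Equiv.Perm X) (A : Set X) (p : X →₀ ℝ)
    (g1 : ∀ T ∈ p.support, s T ∉ A → (s * s) (s T) ∈ A ∧ (s * s).symm (s T) ∈ A)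
    (g2 : ∀ T ∈ p.support, s T ∈ A → (t * t) (s T) ∉ A ∧ (t * t).symm (s T) ∉ A)
    (g3 : ∀ T ∈ p.support, s T ∉ A → ∀ T' ∈ p.support, s T' ∉ A →
      (s * s) (s T) ≠ (s * s).symm (s T'))
    (g4 : ∀ T ∈ p.support, s T ∈ A → ∀ T' ∈ p.support, s T' ∈ A →
      (t * t) (s T) ≠ (t * t).symm (s T')) :
    N2 ((1 / 2 : ℝ) • (Finsupp.mapDomain t
        ((1 / 2 : ℝ) • (Finsupp.mapDomain s p + Finsupp.mapDomain s.symm p)) +
      Finsupp.mapDomain t.symm
        ((1 / 2 : ℝ) • (Finsupp.mapDomain s p + Finsupp.mapDomain s.symm p)))) ≤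
      (383 / 384) * N2 p := by
  obtain ⟨p', hp'⟩ : ∃ p' : X →₀ ℝ, p' =
    (1 / 2 : ℝ) • (Finsupp.mapDomain s p + Finsupp.mapDomain s.symm p) := ⟨_, rfl⟩
  obtain ⟨h, hh⟩ : ∃ h : X →₀ ℝ, h = Finsupp.mapDomain s p := ⟨_, rfl⟩
  obtain ⟨k, hk⟩ : ∃ k : X →₀ ℝ, k = h - p' := ⟨_, rfl⟩
  rw [← hp', Gap_avg]
  have e1 : N2 p' = N2 p - N2 (Finsupp.mapDomain (s * s) p - p) / 4 := by
    rw [hp', Gap_avg]
  have hsupp : ∀ T ∈ h.support, ∃ T₀ ∈ p.support, s T₀ = T := by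
    intro T hT
    rw [hh, Finsupp.mapDomain_support_of_injective s.injective] at hT
    simpa using hT
  have hN : N2 h = N2 p := by
    rw [hh, Gap_map]
  have e2 : N2 k = N2 (Finsupp.mapDomain (s * s) p - p) / 4 := by
    have e3 : k = (1 / 2 : ℝ) • (Finsupp.mapDomain s p - Finsupp.mapDomain s.symm p) := by
      rw [hk, hh, hp']
      ext T
      simp only [Finsupp.sub_apply, Finsupp.smul_apply, Finsupp.add_apply, smul_eq_mul]
      ring
    have h2 : N2 (Finsupp.mapDomain s p - Finsupp.mapDomain s.symm p) =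
        N2 (Finsupp.mapDomain (s * s) p - p) := by
      rw [← Gap_map s, Finsupp.mapDomain_sub, Gap_mapmap, Gap_mapmap]
      have h3 : (fun t => s (s.symm t)) = id := by
        funext t
        simp
      rw [h3, Finsupp.mapDomain_id]
      rfl
    rw [e3, Gap_smul, h2]
    ring
  have e4 : N2 (Finsupp.mapDomain (s * s) h - h) = N2 (Finsupp.mapDomain (s * s) p - p) := by
    rw [← Gap_map s (Finsupp.mapDomain (s * s) p - p), Finsupp.mapDomain_sub, hh, Gap_mapmap,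
      Gap_mapmap]
    rfl
  have e5 : N2 (Finsupp.mapDomain (t * t) h - h) ≤
      2 * N2 (Finsupp.mapDomain (t * t) p' - p') + 2 * (4 * N2 k) := by
    have e6 : Finsupp.mapDomain (t * t) h - h =
        (Finsupp.mapDomain (t * t) p' - p') + (Finsupp.mapDomain (t * t) k - k) := by
      rw [hk, Finsupp.mapDomain_sub]
      abel
    rw [e6]
    refine (Gap_le _ _).trans ?_
    have e7 := Gap_lesub (Finsupp.mapDomain (t * t) k) k
    rw [Gap_map] at e7
    linarith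
  have e8 := h3 X (s * s) (t * t) A h
    (fun T hT hTA => by
      obtain ⟨T₀, h0, rfl⟩ := hsupp T hT
      exact g1 T₀ h0 hTA)
    (fun T hT hTA => by
      obtain ⟨T₀, h0, rfl⟩ := hsupp T hT
      exact g2 T₀ h0 hTA)
    (fun T hT hTA T' hT' hTA' => by
      obtain ⟨T₀, h0, rfl⟩ := hsupp T hT
      obtain ⟨T₁, h1, rfl⟩ := hsupp T' hT'
      exact g3 T₀ h0 hTA T₁ h1 hTA')
    (fun T hT hTA T' hT' hTA' => by
      obtain ⟨T₀, h0, rfl⟩ := hsupp T hT
      obtain ⟨T₁, h1, rfl⟩ := hsupp T' hT'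
      exact g4 T₀ h0 hTA T₁ h1 hTA')
  have hb := Gap_N2_nonneg (Finsupp.mapDomain (t * t) p' - p')
  have ha := Gap_N2_nonneg (Finsupp.mapDomain (s * s) p - p)
  rw [hN, e4] at e8
  linarith

/-! ### The partition of the plane -/

/-- The real part of `v₁ conj v₂`. -/
private noncomputable def Gap_r (v : Fin 2 → ℂ) : ℝ := (v 0 * conj (v 1)).re

/-- The set `A₀`. -/
private def Gap_A (v : Fin 2 → ℂ) : Prop :=
  Complex.normSq (v 1) ≤ Gap_r v ∨ Gap_r v < -Complex.normSq (v 1)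

private theorem Gap_r_smul (c : ℂ) (v : Fin 2 → ℂ) : Gap_r (c • v) = Complex.normSq c * Gap_r v := by
  simp only [Gap_r, Pi.smul_apply, smul_eq_mul, map_mul, Complex.mul_re, Complex.mul_im,
    Complex.conj_re, Complex.conj_im, Complex.normSq_apply]
  ring

private theorem Gap_A_smul (c : ℂ) (hc : c ≠ 0) (v : Fin 2 → ℂ) : Gap_A (c • v) ↔ Gap_A v := by
  have h1 : 0 < Complex.normSq c := Complex.normSq_pos.2 hc
  unfold Gap_A
  rw [Gap_r_smul, Pi.smul_apply, smul_eq_mul, Complex.normSq_mul, mul_le_mul_iff_right₀ h1,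
    ← mul_neg, mul_lt_mul_iff_right₀ h1]

private theorem Gap_cs (v : Fin 2 → ℂ) :
    Gap_r v ^ 2 ≤ Complex.normSq (v 0) * Complex.normSq (v 1) := by
  simp only [Gap_r, Complex.mul_re, Complex.conj_re, Complex.conj_im, Complex.normSq_apply]
  nlinarith [sq_nonneg ((v 0).re * (v 1).im - (v 0).im * (v 1).re)]

/-- The vector `(v₁ + k v₂, v₂)`. -/
private def Gap_U (k : ℝ) (v : Fin 2 → ℂ) : Fin 2 → ℂ := ![v 0 + (k : ℂ) * v 1, v 1]

/-- The vector `(v₁, v₂ + k v₁)`. -/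
private def Gap_L (k : ℝ) (v : Fin 2 → ℂ) : Fin 2 → ℂ := ![v 0, v 1 + (k : ℂ) * v 0]

private theorem Gap_U_r (k : ℝ) (v : Fin 2 → ℂ) :
    Gap_r (Gap_U k v) = Gap_r v + k * Complex.normSq (v 1) := by
  simp only [Gap_r, Gap_U, Matrix.cons_val_zero, Matrix.cons_val_one, Complex.mul_re,
    Complex.add_re, Complex.add_im, Complex.mul_im, Complex.conj_re, Complex.conj_im,
    Complex.normSq_apply, Complex.ofReal_re, Complex.ofReal_im]
  ring

private theorem Gap_L_r (k : ℝ) (v : Fin 2 → ℂ) :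
    Gap_r (Gap_L k v) = Gap_r v + k * Complex.normSq (v 0) := by
  simp only [Gap_r, Gap_L, Matrix.cons_val_zero, Matrix.cons_val_one, Complex.mul_re, map_add,
    map_mul, Complex.add_re, Complex.add_im, Complex.mul_im, Complex.conj_re, Complex.conj_im,
    Complex.normSq_apply, Complex.ofReal_re, Complex.ofReal_im]
  ring

private theorem Gap_L_n (k : ℝ) (v : Fin 2 → ℂ) :
    Complex.normSq (Gap_L k v 1) =
      Complex.normSq (v 1) + 2 * k * Gap_r v + k ^ 2 * Complex.normSq (v 0) := by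
  show Complex.normSq (v 1 + (k : ℂ) * v 0) = _
  simp only [Gap_r, Complex.mul_re, Complex.add_re,
    Complex.add_im, Complex.mul_im, Complex.conj_re, Complex.conj_im,
    Complex.normSq_apply, Complex.ofReal_re, Complex.ofReal_im]
  ring

private theorem Gap_U_n (k : ℝ) (v : Fin 2 → ℂ) :
    Complex.normSq (Gap_U k v 1) = Complex.normSq (v 1) := rfl

private theorem Gap_B_pos (v : Fin 2 → ℂ) (h : ¬ Gap_A v) : 0 < Complex.normSq (v 1) := by
  unfold Gap_A at h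
  push Not at h
  have := Complex.normSq_nonneg (v 1)
  linarith [h.1, h.2]

private theorem Gap_U_neg (v : Fin 2 → ℂ) (h : ¬ Gap_A v) :
    Gap_r (Gap_U (-2) v) < -Complex.normSq (Gap_U (-2) v 1) := by
  have h0 := Gap_B_pos v h
  unfold Gap_A at h
  push Not at h
  rw [Gap_U_r, Gap_U_n]
  linarith [h.1, h.2]

private theorem Gap_U_posi (v : Fin 2 → ℂ) (h : ¬ Gap_A v) :
    Complex.normSq (Gap_U 2 v 1) ≤ Gap_r (Gap_U 2 v) := by
  have h0 := Gap_B_pos v h
  unfold Gap_A at h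
  push Not at h
  rw [Gap_U_r, Gap_U_n]
  linarith [h.1, h.2]

/-- The bounds for a vector of `A₀`. -/
private theorem Gap_A_bd (v : Fin 2 → ℂ) (hv : v ≠ 0) (h : Gap_A v) :
    0 < Complex.normSq (v 0) ∧ Gap_r v ≤ Complex.normSq (v 0) ∧
      -Complex.normSq (v 0) < Gap_r v := by
  have hcs := Gap_cs v
  have hb := Complex.normSq_nonneg (v 1)
  have ha := Complex.normSq_nonneg (v 0)
  obtain ⟨a, ha'⟩ : ∃ a, a = Complex.normSq (v 0) := ⟨_, rfl⟩
  obtain ⟨b, hb'⟩ : ∃ b, b = Complex.normSq (v 1) := ⟨_, rfl⟩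
  obtain ⟨r, hr'⟩ : ∃ r, r = Gap_r v := ⟨_, rfl⟩
  have hpos : 0 < a := by
    rcases lt_or_eq_of_le ha with h0 | h0
    · rw [ha']; exact h0
    · exfalso
      rw [← h0, zero_mul] at hcs
      have hr0 : Gap_r v = 0 := by
        have := sq_nonneg (Gap_r v)
        exact pow_eq_zero_iff (two_ne_zero) |>.1 (le_antisymm hcs this)
      have hb0 : Complex.normSq (v 1) = 0 := by
        rcases h with h | h
        · rw [hr0] at h
          exact le_antisymm h hb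
        · rw [hr0] at h
          linarith
      apply hv
      funext i
      fin_cases i
      · exact Complex.normSq_eq_zero.1 h0.symm
      · exact Complex.normSq_eq_zero.1 hb0
  unfold Gap_A at h
  rw [← ha', ← hr'] 
  rw [← hb', ← hr'] at h
  rw [← ha', ← hb', ← hr'] at hcs
  rw [← hb'] at hb
  refine ⟨hpos, ?_, ?_⟩
  · rcases h with h | h
    · by_contra hc
      push Not at hc
      nlinarith
    · linarith
  · rcases h with h | h
    · linarith
    · by_contra hc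
      push Not at hc
      nlinarith

private theorem Gap_real (a b r : ℝ) (h1 : 0 < a) (h2 : r ≤ a) (h3 : -a < r)
    (hcs : r ^ 2 ≤ a * b) :
    (0 < 2 * a + 3 * r + b ∧ 0 ≤ 6 * a + 5 * r + b) ∧
      (0 < 6 * a - 5 * r + b ∧ 0 ≤ 2 * a - 3 * r + b) := by
  have e1 : 0 < (2 * a + r) * (a + r) := mul_pos (by linarith) (by linarith)
  have e2 : 0 < (2 * a + r) * (3 * a + r) := mul_pos (by linarith) (by linarith)
  have e3 : 0 < (2 * a - r) * (3 * a - r) := mul_pos (by linarith) (by linarith)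
  have e4 : 0 ≤ (2 * a - r) * (a - r) := mul_nonneg (by linarith) (by linarith)
  refine ⟨⟨?_, ?_⟩, ⟨?_, ?_⟩⟩
  · refine pos_of_mul_pos_right (a := a) ?_ h1.le
    nlinarith
  · refine nonneg_of_mul_nonneg_right (a := a) ?_ h1
    nlinarith
  · refine pos_of_mul_pos_right (a := a) ?_ h1.le
    nlinarith
  · refine nonneg_of_mul_nonneg_right (a := a) ?_ h1
    nlinarith

private theorem Gap_L_B (k : ℝ) (hk : k = 2 ∨ k = -2) (v : Fin 2 → ℂ) (hv : v ≠ 0) (h : Gap_A v) :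
    ¬ Gap_A (Gap_L k v) ∧ 0 < k * Gap_r (Gap_L k v) := by
  obtain ⟨h1, h2, h3⟩ := Gap_A_bd v hv h
  obtain ⟨⟨e1, e2⟩, e3, e4⟩ := Gap_real _ _ _ h1 h2 h3 (Gap_cs v)
  unfold Gap_A
  rw [Gap_L_r, Gap_L_n]
  push Not
  rcases hk with rfl | rfl
  · refine ⟨⟨?_, ?_⟩, ?_⟩ <;> linarith
  · refine ⟨⟨?_, ?_⟩, ?_⟩ <;> linarith

/-! ### The action on the subspaces -/

private def Gap_u (k : ℤ) : SL(2, ℤ) := ⟨!![1, k; 0, 1], by simp⟩

private def Gap_l (k : ℤ) : SL(2, ℤ) := ⟨!![1, 0; k, 1], by simp⟩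

private theorem Gap_u_inv (k : ℤ) : (Gap_u k)⁻¹ = Gap_u (-k) := by
  rw [inv_eq_iff_mul_eq_one]
  apply Subtype.ext
  show (!![1, k; 0, 1] : Matrix (Fin 2) (Fin 2) ℤ) * !![1, -k; 0, 1] = 1
  ext i j
  fin_cases i <;> fin_cases j <;> simp [Matrix.mul_apply, Fin.sum_univ_two]

private theorem Gap_l_inv (k : ℤ) : (Gap_l k)⁻¹ = Gap_l (-k) := by
  rw [inv_eq_iff_mul_eq_one]
  apply Subtype.ext
  show (!![1, 0; k, 1] : Matrix (Fin 2) (Fin 2) ℤ) * !![1, 0; -k, 1] = 1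
  ext i j
  fin_cases i <;> fin_cases j <;> simp [Matrix.mul_apply, Fin.sum_univ_two]

private theorem Gap_u_mz (k : ℤ) : mz (Gap_u k) = !![1, (k : ℂ); 0, 1] := by
  ext i j
  fin_cases i <;> fin_cases j <;> simp [Gap_u, mz]

private theorem Gap_l_mz (k : ℤ) : mz (Gap_l k) = !![1, 0; (k : ℂ), 1] := by
  ext i j
  fin_cases i <;> fin_cases j <;> simp [Gap_l, mz]

private theorem Gap_u_vec (k : ℤ) (v : Fin 2 → ℂ) : mz (Gap_u k) *ᵥ v = Gap_U (k : ℝ) v := by
  rw [Gap_u_mz]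
  funext i
  fin_cases i <;> simp [Gap_U, Matrix.mulVec, dotProduct, Fin.sum_univ_two]

private theorem Gap_l_vec (k : ℤ) (v : Fin 2 → ℂ) : mz (Gap_l k) *ᵥ v = Gap_L (k : ℝ) v := by
  rw [Gap_l_mz]
  funext i
  fin_cases i
  · simp [Gap_L, Matrix.mulVec, dotProduct, Fin.sum_univ_two]
  · simp [Gap_L, Matrix.mulVec, dotProduct, Fin.sum_univ_two]
    ring

section

variable {V : Type} [AddCommGroup V] [Module ℂ V]

private theorem Gap_S_mul (e : V →ₗ[ℂ] V) (he : e * e = 0) (ε : ℤˣ) : S e ε * S e (-ε) = 1 := by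
  unfold S
  have h1 : (((-ε : ℤˣ) : ℤ) : ℂ) * Complex.I = -(((ε : ℤ) : ℂ) * Complex.I) := by
    push_cast
    ring
  rw [h1, neg_smul, sub_neg_eq_add, sub_mul, one_mul, mul_add, mul_one, smul_mul_smul_comm, he,
    smul_zero, add_zero]
  abel

private noncomputable def Gap_perm (e : V →ₗ[ℂ] V) (he : e * e = 0) :
    Equiv.Perm (Submodule ℂ V) where
  toFun := Submodule.comap (S e 1)
  invFun := Submodule.comap (S e (-1))
  left_inv T := by
    have h : (S e 1) ∘ₗ (S e (-1)) = LinearMap.id := Gap_S_mul e he 1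
    rw [← Submodule.comap_comp, h, Submodule.comap_id]
  right_inv T := by
    have h : (S e (-1)) ∘ₗ (S e 1) = LinearMap.id := by
      have h2 := Gap_S_mul e he (-1)
      rw [neg_neg] at h2
      exact h2
    rw [← Submodule.comap_comp, h, Submodule.comap_id]

private theorem Gap_perm_sq (e : V →ₗ[ℂ] V) (he : e * e = 0) (T : Submodule ℂ V) :
    (Gap_perm e he * Gap_perm e he) T = T.comap (S e 1 * S e 1) := rfl

private theorem Gap_perm_sq' (e : V →ₗ[ℂ] V) (he : e * e = 0) (T : Submodule ℂ V) :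
    (Gap_perm e he * Gap_perm e he).symm T = T.comap (S e (-1) * S e (-1)) := rfl

private theorem Gap_Se (h1 : St_Rho) (e f : V →ₗ[ℂ] V) (h : TL e f) :
    S e 1 = rho e f (mz (Gap_u 1)) ∧ S e 1 * S e 1 = rho e f (mz (Gap_u 2)) ∧
      S e (-1) * S e (-1) = rho e f (mz (Gap_u (-2))) ∧
      S f 1 * S f 1 = rho e f (mz (Gap_l (-2))) ∧ S f (-1) * S f (-1) = rho e f (mz (Gap_l 2)) := by
  obtain ⟨-, hm, hS, -⟩ := h1 V e f h
  refine ⟨?_, ?_, ?_, ?_, ?_⟩
  · rw [(hS 1).1, Gap_u_mz]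
    simp
  · rw [(hS 1).1, ← hm, Gap_u_mz]
    congr 1
    ext i j
    fin_cases i <;> fin_cases j <;> simp [Matrix.mul_apply, Fin.sum_univ_two] <;> norm_num
  · rw [(hS (-1)).1, ← hm, Gap_u_mz]
    congr 1
    ext i j
    fin_cases i <;> fin_cases j <;> simp [Matrix.mul_apply, Fin.sum_univ_two] <;> norm_num
  · rw [(hS 1).2, ← hm, Gap_l_mz]
    congr 1
    ext i j
    fin_cases i <;> fin_cases j <;> simp [Matrix.mul_apply, Fin.sum_univ_two] <;> norm_num
  · rw [(hS (-1)).2, ← hm, Gap_l_mz]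
    congr 1
    ext i j
    fin_cases i <;> fin_cases j <;> simp [Matrix.mul_apply, Fin.sum_univ_two] <;> norm_num

end

private theorem Gap_n_smul (c : ℂ) (v : Fin 2 → ℂ) :
    Complex.normSq ((c • v) 1) = Complex.normSq c * Complex.normSq (v 1) := by
  rw [Pi.smul_apply, smul_eq_mul, Complex.normSq_mul]

theorem thm_Gap (h1 : St_Rho) (h2 : St_Equi) (h3 : St_Ping) : St_Gap := by
  intro V _ _ e f hTL p hp
  obtain ⟨he, hf, -, -⟩ := id hTL
  obtain ⟨L, hL⟩ := h2 V e f hTL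
  obtain ⟨s1, s2, s3, s4, s5⟩ := Gap_Se h1 e f hTL
  obtain ⟨-, -, -, hst⟩ := h1 V e f hTL
  have hns : ∀ T ∈ p.support, ¬ Stable e f (Gap_perm e he T) := by
    intro T hT hc
    apply hp T hT
    have h4 : Gap_perm e he T = T.comap (rho e f (mz (Gap_u 1))) := by
      rw [← s1]
      rfl
    rw [h4] at hc
    exact (hst T (Gap_u 1)).1 hc
  have hx : ∀ T, ¬ Stable e f T → L T ≠ 0 ∧ (∃ c : ℂ, c ≠ 0 ∧
      L ((Gap_perm e he * Gap_perm e he) T) = c • Gap_U (-2) (L T)) ∧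
      (∃ c : ℂ, c ≠ 0 ∧
      L ((Gap_perm e he * Gap_perm e he).symm T) = c • Gap_U 2 (L T)) ∧
      (∃ c : ℂ, c ≠ 0 ∧
      L ((Gap_perm f hf * Gap_perm f hf) T) = c • Gap_L 2 (L T)) ∧
      (∃ c : ℂ, c ≠ 0 ∧
      L ((Gap_perm f hf * Gap_perm f hf).symm T) = c • Gap_L (-2) (L T)) := by
    intro T hT
    obtain ⟨g0, g1⟩ := hL T hT
    refine ⟨g0, ?_, ?_, ?_, ?_⟩
    · obtain ⟨c, hc, g2⟩ := g1 (Gap_u 2)
      refine ⟨c, hc, ?_⟩
      rw [Gap_perm_sq, s2, g2, Gap_u_inv, Gap_u_vec]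
      norm_num
    · obtain ⟨c, hc, g2⟩ := g1 (Gap_u (-2))
      refine ⟨c, hc, ?_⟩
      rw [Gap_perm_sq', s3, g2, Gap_u_inv, Gap_u_vec]
      norm_num
    · obtain ⟨c, hc, g2⟩ := g1 (Gap_l (-2))
      refine ⟨c, hc, ?_⟩
      rw [Gap_perm_sq, s4, g2, Gap_l_inv, Gap_l_vec]
      norm_num
    · obtain ⟨c, hc, g2⟩ := g1 (Gap_l 2)
      refine ⟨c, hc, ?_⟩
      rw [Gap_perm_sq', s5, g2, Gap_l_inv, Gap_l_vec]
      norm_num
  refine Gap_main h3 (Gap_perm e he) (Gap_perm f hf) {T | Gap_A (L T)} p ?_ ?_ ?_ ?_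
  · intro T hT hA
    have hA' : ¬ Gap_A (L (Gap_perm e he T)) := hA
    obtain ⟨-, ⟨c, hc, e1⟩, ⟨c', hc', e2⟩, -, -⟩ := hx _ (hns T hT)
    constructor
    · show Gap_A (L _)
      rw [e1, Gap_A_smul c hc]
      exact Or.inr (Gap_U_neg _ hA')
    · show Gap_A (L _)
      rw [e2, Gap_A_smul c' hc']
      exact Or.inl (Gap_U_posi _ hA')
  · intro T hT hA
    have hA' : Gap_A (L (Gap_perm e he T)) := hA
    obtain ⟨g0, -, -, ⟨c, hc, e1⟩, ⟨c', hc', e2⟩⟩ := hx _ (hns T hT)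
    constructor
    · show ¬ Gap_A (L _)
      rw [e1, Gap_A_smul c hc]
      exact (Gap_L_B 2 (Or.inl rfl) _ g0 hA').1
    · show ¬ Gap_A (L _)
      rw [e2, Gap_A_smul c' hc']
      exact (Gap_L_B (-2) (Or.inr rfl) _ g0 hA').1
  · intro T hT hA T' hT' hA' heq
    have hA1 : ¬ Gap_A (L (Gap_perm e he T)) := hA
    have hA2 : ¬ Gap_A (L (Gap_perm e he T')) := hA'
    obtain ⟨-, ⟨c, hc, e1⟩, -, -, -⟩ := hx _ (hns T hT)
    obtain ⟨-, -, ⟨c', hc', e2⟩, -, -⟩ := hx _ (hns T' hT')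
    rw [heq, e2] at e1
    have f1 := Gap_U_neg _ hA1
    have f2 := Gap_U_posi _ hA2
    have k1 : 0 < Complex.normSq c := Complex.normSq_pos.2 hc
    have k2 : 0 < Complex.normSq c' := Complex.normSq_pos.2 hc'
    have m1 := congrArg Gap_r e1
    have m2 := congrArg (fun v : Fin 2 → ℂ => Complex.normSq (v 1)) e1
    beta_reduce at m2
    rw [Gap_n_smul, Gap_n_smul] at m2
    rw [Gap_r_smul, Gap_r_smul] at m1
    have n1 := Complex.normSq_nonneg (Gap_U 2 (L (Gap_perm e he T')) 1)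
    have n2 := Complex.normSq_nonneg (Gap_U (-2) (L (Gap_perm e he T)) 1)
    have q1 := mul_lt_mul_of_pos_left f1 k1
    have q2 := mul_le_mul_of_nonneg_left f2 k2.le
    have q3 := mul_nonneg k1.le n2
    rw [mul_neg] at q1
    linarith
  · intro T hT hA T' hT' hA' heq
    have hA1 : Gap_A (L (Gap_perm e he T)) := hA
    have hA2 : Gap_A (L (Gap_perm e he T')) := hA'
    obtain ⟨g0, -, -, ⟨c, hc, e1⟩, -⟩ := hx _ (hns T hT)
    obtain ⟨g0', -, -, -, ⟨c', hc', e2⟩⟩ := hx _ (hns T' hT')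
    rw [heq, e2] at e1
    have f1 := (Gap_L_B 2 (Or.inl rfl) _ g0 hA1).2
    have f2 := (Gap_L_B (-2) (Or.inr rfl) _ g0' hA2).2
    have k1 : 0 < Complex.normSq c := Complex.normSq_pos.2 hc
    have k2 : 0 < Complex.normSq c' := Complex.normSq_pos.2 hc'
    have m1 := congrArg Gap_r e1
    rw [Gap_r_smul, Gap_r_smul] at m1
    have q1 := mul_pos k1 f1
    have q2 := mul_pos k2 f2
    linarith

end Pool.RU
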