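import Pool.Agent.RU.St
import Pool.Agent.RU.States

/-!
# RB, module PAR: the value of a word is a Gaussian integer, odd exactly for knots
-/

set_option autoImplicit false

namespace Pool.RU

open Matrix LaurentPolynomial

open scoped Classical MatrixGroups

variable {K n : ℕ}

/-! ### the unit `i` -/

private def Par_u : GaussianIntˣ :=
  ⟨⟨0, 1⟩, ⟨0, -1⟩, by decide, by decide⟩

private theorem Par_u_coe (j : ℤ) :
    (((Par_u ^ j : GaussianIntˣ) : GaussianInt) : ℂ) = Complex.I ^ j := by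
  have h1 : (((Par_u ^ j : GaussianIntˣ) : GaussianInt) : ℂ) =
      ((Units.map (GaussianInt.toComplex : GaussianInt →* ℂ) (Par_u ^ j) : ℂˣ) : ℂ) := rfl
  rw [h1, map_zpow, Units.val_zpow_eq_zpow_val]
  congr 1
  show GaussianInt.toComplex ⟨0, 1⟩ = Complex.I
  rw [GaussianInt.toComplex_def']
  simp

private noncomputable def Par_chi : GaussianInt →+* ZMod 2 :=
  Zsqrtd.lift ⟨1, by decide⟩

private theorem Par_chi_apply (G : GaussianInt) : Par_chi G = ((G.re + G.im : ℤ) : ZMod 2) := by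
  unfold Par_chi
  rw [Zsqrtd.lift_apply_apply]
  push_cast
  ring

private theorem Par_chi_u (j : ℤ) : Par_chi ((Par_u ^ j : GaussianIntˣ) : GaussianInt) = 1 := by
  have h1 : Par_chi ((Par_u ^ j : GaussianIntˣ) : GaussianInt) =
      ((Units.map (Par_chi : GaussianInt →* ZMod 2) (Par_u ^ j) : (ZMod 2)ˣ) : ZMod 2) := rfl
  rw [h1]
  have h2 : ∀ v : (ZMod 2)ˣ, (v : ZMod 2) = 1 := by decide
  exact h2 _

/-! ### the bracket -/

private theorem Par_ev_T (A : ℂˣ) (k : ℤ) : ev A (T k) = ((A ^ k : ℂˣ) : ℂ) := by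
  unfold ev
  rw [LaurentPolynomial.eval₂_T]

private theorem Par_A2 (A : ℂˣ) (hA : (A : ℂ) ^ 2 = Complex.I) (j : ℤ) :
    ((A ^ (2 * j) : ℂˣ) : ℂ) = Complex.I ^ j := by
  rw [_root_.zpow_mul, Units.val_zpow_eq_zpow_val, ← hA]
  norm_cast

private theorem Par_ev_zero (A : ℂˣ) (hA : (A : ℂ) ^ 2 = Complex.I) :
    ev A (-T 2 - T (-2)) = 0 := by
  have h1 := Par_A2 A hA 1
  have h2 := Par_A2 A hA (-1)
  rw [map_sub, map_neg, Par_ev_T, Par_ev_T]
  rw [show (2 * 1 : ℤ) = 2 by norm_num] at h1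
  rw [show (2 * (-1) : ℤ) = -2 by norm_num] at h2
  rw [h1, h2]
  simp

private theorem Par_prod {ι : Type} (A : ℂˣ) (f : ι → ℤ) (t : Finset ι) :
    ∏ x ∈ t, ((A ^ f x : ℂˣ) : ℂ) = ((A ^ ∑ x ∈ t, f x : ℂˣ) : ℂ) := by
  induction t using Finset.induction_on with
  | empty => simp
  | insert a t ha ih =>
    rw [Finset.prod_insert ha, Finset.sum_insert ha, ih, _root_.zpow_add, Units.val_mul]

/-- the exponent of a state -/
private def Par_m (D : Diagram K n) (s : Fin n → Bool) : ℤ :=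
  ∑ x, (if s x then (D.kind x : ℤ) else -(D.kind x : ℤ))

private theorem Par_wt (A : ℂˣ) (D : Diagram K n) (s : Fin n → Bool) :
    wt A D s = ((A ^ Par_m D s : ℂˣ) : ℂ) := by
  unfold wt Par_m
  exact Par_prod A _ _

private theorem Par_unit_odd (ε : ℤˣ) : ∃ k : ℤ, (ε : ℤ) = 1 + 2 * k := by
  rcases Int.units_eq_one_or ε with h | h
  · exact ⟨0, by rw [h]; rfl⟩
  · exact ⟨-1, by rw [h]; rfl⟩

private theorem Par_m_parity (D : Diagram K n) (s : Fin n → Bool) :
    ∃ k : ℤ, Par_m D s = (n : ℤ) + 2 * k := by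
  have h1 : ∀ x, ∃ k : ℤ, (if s x then (D.kind x : ℤ) else -(D.kind x : ℤ)) = 1 + 2 * k := by
    intro x
    obtain ⟨k, hk⟩ := Par_unit_odd (D.kind x)
    split_ifs
    · exact ⟨k, hk⟩
    · exact ⟨-1 - k, by rw [hk]; ring⟩
  choose k hk using h1
  refine ⟨∑ x, k x, ?_⟩
  unfold Par_m
  rw [Finset.sum_congr rfl fun x _ => hk x, Finset.sum_add_distrib, ← Finset.mul_sum]
  simp

/-- the sum of the signs of a word -/
private def Par_e (w : List (Fin K × ℤˣ)) : ℤ := (w.map fun l => (l.2 : ℤ)).sum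

private theorem Par_e_parity (w : List (Fin K × ℤˣ)) :
    ∃ k : ℤ, Par_e w = (w.length : ℤ) + 2 * k := by
  induction w with
  | nil => exact ⟨0, by simp [Par_e]⟩
  | cons l w ih =>
    obtain ⟨k, hk⟩ := ih
    obtain ⟨k', hk'⟩ := Par_unit_odd l.2
    refine ⟨k + k', ?_⟩
    have h1 : Par_e (l :: w) = (l.2 : ℤ) + Par_e w := by
      unfold Par_e
      rw [List.map_cons, List.sum_cons]
    rw [h1, hk, hk', List.length_cons]
    push_cast
    ring

private theorem Par_ev_bracket (D : Diagram K n) (A : ℂˣ) (hA : (A : ℂ) ^ 2 = Complex.I) :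
    ev A D.bracket = ∑ s ∈ Finset.univ.filter fun s : Fin n → Bool => D.curves (ways s) = 1,
      ((A ^ Par_m D s : ℂˣ) : ℂ) := by
  unfold Diagram.bracket
  rw [map_sum, Finset.sum_filter]
  refine Finset.sum_congr rfl fun s _ => ?_
  rw [map_mul, map_pow, Par_ev_zero A hA, map_prod]
  have h5 : (∏ x, ev A (T (if s x then (D.kind x : ℤ) else -(D.kind x : ℤ)))) =
      ((A ^ Par_m D s : ℂˣ) : ℂ) := by
    rw [← Par_wt]
    unfold wt
    refine Finset.prod_congr rfl fun x _ => ?_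
    rw [Par_ev_T]
  rw [h5]
  have h4 : D.curves (fun x => if s x then Way.along else Way.turn) = D.curves (ways s) := rfl
  rw [h4]
  have h6 := curves_pos D (ways s)
  obtain ⟨m, hm⟩ : ∃ m, D.curves (ways s) = m + 1 := ⟨D.curves (ways s) - 1, by omega⟩
  rw [hm, Nat.add_sub_cancel]
  rcases Nat.eq_zero_or_pos m with h7 | h7
  · rw [h7, pow_zero, if_pos (by norm_num), mul_one]
  · rw [zero_pow (by omega), if_neg (by omega), mul_zero]

/-- the functional after the insertion of a word -/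
private theorem Par_insert (h : St_Fun) (D : Diagram K n) (A : ℂˣ)
    (hA : (A : ℂ) ^ 2 = Complex.I) (w : List (Fin K × ℤˣ)) :
    phi A (D.insert w) = ((A ^ Par_e w : ℂˣ) : ℂ) • opw w (phi A D) := by
  induction w with
  | nil =>
    have h1 : Par_e ([] : List (Fin K × ℤˣ)) = 0 := rfl
    have h2 : opw ([] : List (Fin K × ℤˣ)) = 1 := rfl
    rw [h1, h2, zpow_zero, Units.val_one, one_smul]
    rfl
  | cons l w ih =>
    have h1 : Par_e (l :: w) = (l.2 : ℤ) + Par_e w := by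
      unfold Par_e
      rw [List.map_cons, List.sum_cons]
    have h2 : opw (l :: w) (phi A D) = S (E l.1) l.2 (opw w (phi A D)) := by
      unfold opw
      rw [List.map_cons, List.prod_cons]
      rfl
    have h3 : phi A (D.insert (l :: w)) = phi A ((D.insert w).push l.1 l.2) := rfl
    rw [h3, (h K (n + w.length) (D.insert w) A hA).2 l.1 l.2, ih, map_smul, smul_smul, h1, h2,
      _root_.zpow_add, Units.val_mul]

private theorem Par_val (h : St_Fun) (D : Diagram K n) (A : ℂˣ)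
    (hA : (A : ℂ) ^ 2 = Complex.I) (w : List (Fin K × ℤˣ)) :
    ev A (D.insert w).bracket = ((A ^ Par_e w : ℂˣ) : ℂ) * opw w (phi A D) pid := by
  rw [(h K (n + w.length) (D.insert w) A hA).1, Par_insert h D A hA w]
  rfl

private theorem Par_one (h : St_Fun) (D : Diagram K n) (A : ℂˣ)
    (hA : (A : ℂ) ^ 2 = Complex.I) (w : List (Fin K × ℤˣ)) :
    ∃ G : GaussianInt, opw w (phi A D) pid = (A : ℂ) ^ n * (G : ℂ) ∧
      (Odd (G.re + G.im) ↔ (D.insert w).IsKnot) := by
  obtain ⟨ke, hke⟩ := Par_e_parity w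
  have h0 : ∀ s : Fin (n + w.length) → Bool, ∃ j : ℤ,
      -Par_e w + Par_m (D.insert w) s = (n : ℤ) + 2 * j := by
    intro s
    obtain ⟨k, hk⟩ := Par_m_parity (D.insert w) s
    refine ⟨k - ke, ?_⟩
    rw [hk, hke]
    push_cast
    ring
  choose j hj using h0
  set F := Finset.univ.filter fun s : Fin (n + w.length) → Bool =>
    (D.insert w).curves (ways s) = 1 with hF
  refine ⟨∑ s ∈ F, ((Par_u ^ j s : GaussianIntˣ) : GaussianInt), ?_, ?_⟩
  · have h1 := Par_val h D A hA w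
    rw [Par_ev_bracket (D.insert w) A hA] at h1
    have h2 : opw w (phi A D) pid = ((A ^ (-Par_e w) : ℂˣ) : ℂ) *
        (((A ^ Par_e w : ℂˣ) : ℂ) * opw w (phi A D) pid) := by
      rw [← mul_assoc, ← Units.val_mul, ← _root_.zpow_add, neg_add_cancel, zpow_zero,
        Units.val_one, one_mul]
    rw [h2, ← h1, Finset.mul_sum, map_sum, Finset.mul_sum]
    refine Finset.sum_congr rfl fun s _ => ?_
    rw [Par_u_coe, ← Units.val_mul, ← _root_.zpow_add, hj s, _root_.zpow_add, Units.val_mul,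
      Par_A2 A hA]
    congr 1
  · have h1 : Par_chi (∑ s ∈ F, ((Par_u ^ j s : GaussianIntˣ) : GaussianInt)) =
        ((F.card : ℕ) : ZMod 2) := by
      rw [map_sum, Finset.sum_congr rfl fun s _ => Par_chi_u (j s), Finset.sum_const]
      simp
    rw [Par_chi_apply] at h1
    have h2 : Odd ((∑ s ∈ F, ((Par_u ^ j s : GaussianIntˣ) : GaussianInt)).re +
        (∑ s ∈ F, ((Par_u ^ j s : GaussianIntˣ) : GaussianInt)).im) ↔ Odd F.card := by
      rw [← ZMod.natCast_eq_one_iff_odd, ← ZMod.intCast_eq_one_iff_odd, h1]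
    rw [h2, hF, one_curve_parity (D.insert w)]
    rfl

private theorem Par_two (h : St_Fun) (D : Diagram K n) (A : ℂˣ)
    (hA : (A : ℂ) ^ 2 = Complex.I) (w : List (Fin K × ℤˣ)) (o : Tip K (n + w.length) → Bool) :
    ∃ j < 8, ev A ((D.insert w).normalized o) = (A : ℂ) ^ j * opw w (phi A D) pid := by
  set D' := D.insert w
  have h4 : ((A ^ (4 : ℤ) : ℂˣ) : ℂ) = -1 := by
    have := Par_A2 A hA 2
    rw [show (2 * 2 : ℤ) = 4 by norm_num] at this
    rw [this, zpow_ofNat]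
    exact Complex.I_sq
  have h8 : A ^ (8 : ℤ) = 1 := by
    apply Units.ext
    rw [show (8 : ℤ) = 4 + 4 by norm_num, _root_.zpow_add, Units.val_mul, h4]
    norm_num
  have hs : ∀ k : ℤ, ((((-1 : ℤˣ) ^ k : ℤˣ) : ℤ) : ℂ) = ((A ^ (4 * k) : ℂˣ) : ℂ) := by
    intro k
    rw [_root_.zpow_mul, Units.val_zpow_eq_zpow_val (A ^ (4 : ℤ)), h4]
    rcases Int.even_or_odd k with hk | hk
    · rw [hk.neg_one_zpow, hk.neg_one_zpow]
      simp
    · rw [hk.neg_one_zpow, hk.neg_one_zpow]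
      simp
  have h1 : ev A (D'.normalized o) =
      ((A ^ ((D'.writhe o) + Par_e w) : ℂˣ) : ℂ) * opw w (phi A D) pid := by
    unfold Diagram.normalized
    rw [map_mul, map_mul, Par_val h D A hA w, Par_ev_T]
    have h2 : ev A (C (((-1 : ℤˣ) ^ (D'.writhe o) : ℤˣ) : ℤ)) =
        ((((-1 : ℤˣ) ^ (D'.writhe o) : ℤˣ) : ℤ) : ℂ) := by
      unfold ev
      rw [LaurentPolynomial.eval₂_C]
      rfl
    rw [h2, hs, ← Units.val_mul, ← _root_.zpow_add, ← mul_assoc, ← Units.val_mul,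
      ← _root_.zpow_add]
    congr 3
    ring
  refine ⟨(((D'.writhe o) + Par_e w) % 8).toNat, ?_, ?_⟩
  · have h5 := Int.emod_nonneg ((D'.writhe o) + Par_e w) (show (8 : ℤ) ≠ 0 by norm_num)
    have h6 := Int.emod_lt_of_pos ((D'.writhe o) + Par_e w) (show (0 : ℤ) < 8 by norm_num)
    omega
  · rw [h1]
    congr 1
    rw [← Units.val_pow_eq_pow_val]
    congr 1
    have h5 := Int.emod_nonneg ((D'.writhe o) + Par_e w) (show (8 : ℤ) ≠ 0 by norm_num)
    rw [← zpow_natCast, Int.toNat_of_nonneg h5]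
    have h6 := Int.emod_add_mul_ediv ((D'.writhe o) + Par_e w) 8
    conv_lhs => rw [← h6]
    rw [_root_.zpow_add, _root_.zpow_mul, h8, _root_.one_zpow, mul_one]

theorem thm_Par (h : St_Fun) : St_Par := by
  intro K n D A hA
  exact ⟨Par_one h D A hA, Par_two h D A hA⟩

end Pool.RU
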