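import Pool.Agent.RU.St

/-!
# RHO: the action of 2 by 2 matrices
-/

namespace Pool.RU

open Matrix LaurentPolynomial

open scoped Classical MatrixGroups

section

variable {V : Type} [AddCommGroup V] [Module ℂ V]

private lemma Rho_form (e f : V →ₗ[ℂ] V) (X : Matrix (Fin 2) (Fin 2) ℂ) :
    rho e f X = (1 - e * f - f * e) + X 0 0 • (e * f) + X 0 1 • ((-Complex.I) • e) +
      X 1 0 • (Complex.I • f) + X 1 1 • (f * e) := by
  unfold rho
  rw [mul_smul, mul_smul]

private lemma Rho_one (e f : V →ₗ[ℂ] V) : rho e f 1 = 1 := by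
  rw [Rho_form]
  simp only [Matrix.one_apply_eq, Matrix.one_apply_ne (show (0 : Fin 2) ≠ 1 by decide),
    Matrix.one_apply_ne (show (1 : Fin 2) ≠ 0 by decide), zero_smul, one_smul]
  abel

private lemma Rho_mul (e f : V →ₗ[ℂ] V) (h : TL e f) (X Y : Matrix (Fin 2) (Fin 2) ℂ) :
    rho e f (X * Y) = rho e f X * rho e f Y := by
  obtain ⟨hee, hff, hefe, hfef⟩ := h
  set z : V →ₗ[ℂ] V := 1 - e * f - f * e with hz
  set p : V →ₗ[ℂ] V := e * f with hp
  set q : V →ₗ[ℂ] V := f * e with hq
  set a : V →ₗ[ℂ] V := (-Complex.I) • e with ha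
  set b : V →ₗ[ℂ] V := Complex.I • f with hb
  have pe : p * e = e := hefe
  have qf : q * f = f := hfef
  have eq' : e * q = e := by rw [hq, ← mul_assoc]; exact hefe
  have fp : f * p = f := by rw [hp, ← mul_assoc]; exact hfef
  have ep : e * p = 0 := by rw [hp, ← mul_assoc, hee, zero_mul]
  have fq : f * q = 0 := by rw [hq, ← mul_assoc, hff, zero_mul]
  have pf : p * f = 0 := by rw [hp, mul_assoc, hff, mul_zero]
  have qe : q * e = 0 := by rw [hq, mul_assoc, hee, mul_zero]
  have pp : p * p = p := by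
    have : p * p = (p * e) * f := by rw [hp]; simp only [mul_assoc]
    rw [this, pe]
  have qq : q * q = q := by
    have : q * q = (q * f) * e := by rw [hq]; simp only [mul_assoc]
    rw [this, qf]
  have pq : p * q = 0 := by
    have : p * q = (p * f) * e := by rw [hq]; simp only [mul_assoc]
    rw [this, pf, zero_mul]
  have qp : q * p = 0 := by
    have : q * p = (q * e) * f := by rw [hp]; simp only [mul_assoc]
    rw [this, qe, zero_mul]
  have ze : z * e = 0 := by rw [hz, sub_mul, sub_mul, one_mul, pe, qe]; simp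
  have ez : e * z = 0 := by rw [hz, mul_sub, mul_sub, mul_one, ep, eq']; simp
  have zf : z * f = 0 := by rw [hz, sub_mul, sub_mul, one_mul, pf, qf]; simp
  have fz : f * z = 0 := by rw [hz, mul_sub, mul_sub, mul_one, fp, fq]; simp
  have zp : z * p = 0 := by rw [hz, sub_mul, sub_mul, one_mul, pp, qp]; simp
  have pz : p * z = 0 := by rw [hz, mul_sub, mul_sub, mul_one, pp, pq]; simp
  have zq : z * q = 0 := by rw [hz, sub_mul, sub_mul, one_mul, pq, qq]; simp
  have qz : q * z = 0 := by rw [hz, mul_sub, mul_sub, mul_one, qp, qq]; simp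
  have zz : z * z = z := by
    have h1 : z * z = (1 - p - q) * z := congrArg (· * z) hz
    rw [h1, sub_mul, sub_mul, one_mul, pz, qz]; simp
  have za : z * a = 0 := by rw [ha, mul_smul_comm, ze, smul_zero]
  have az : a * z = 0 := by rw [ha, smul_mul_assoc, ez, smul_zero]
  have zb : z * b = 0 := by rw [hb, mul_smul_comm, zf, smul_zero]
  have bz : b * z = 0 := by rw [hb, smul_mul_assoc, fz, smul_zero]
  have pa : p * a = a := by rw [ha, mul_smul_comm, pe]
  have ap : a * p = 0 := by rw [ha, smul_mul_assoc, ep, smul_zero]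
  have pb : p * b = 0 := by rw [hb, mul_smul_comm, pf, smul_zero]
  have bp : b * p = b := by rw [hb, smul_mul_assoc, fp]
  have qa : q * a = 0 := by rw [ha, mul_smul_comm, qe, smul_zero]
  have aq : a * q = a := by rw [ha, smul_mul_assoc, eq']
  have qb : q * b = b := by rw [hb, mul_smul_comm, qf]
  have bq : b * q = 0 := by rw [hb, smul_mul_assoc, fq, smul_zero]
  have aa : a * a = 0 := by rw [ha, smul_mul_assoc, mul_smul_comm, hee, smul_zero, smul_zero]
  have bb : b * b = 0 := by rw [hb, smul_mul_assoc, mul_smul_comm, hff, smul_zero, smul_zero]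
  have ab : a * b = p := by
    rw [ha, hb, smul_mul_assoc, mul_smul_comm, smul_smul]
    have : -Complex.I * Complex.I = 1 := by simp [Complex.I_mul_I]
    rw [this, one_smul]
  have ba : b * a = q := by
    rw [ha, hb, smul_mul_assoc, mul_smul_comm, smul_smul]
    have : Complex.I * -Complex.I = 1 := by simp [Complex.I_mul_I]
    rw [this, one_smul]
  rw [Rho_form, Rho_form, Rho_form, ← hz, ← hp, ← hq, ← ha, ← hb]
  simp only [mul_add, add_mul, smul_mul_assoc, mul_smul_comm, za, az, zb, bz, pa, ap, pb, bp, qa,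
    aq, qb, bq, aa, bb, ab, ba, zp, pz, zq, qz, zz, pp, qq, pq, qp, smul_zero, add_zero, zero_add,
    Matrix.mul_apply, Fin.sum_univ_two]
  module

private lemma Rho_mz_one : mz 1 = 1 := by
  unfold mz
  rw [Matrix.SpecialLinearGroup.coe_one]
  exact Matrix.map_one _ (by simp) (by simp)

private lemma Rho_mz_mul (g h : SL(2, ℤ)) : mz (g * h) = mz g * mz h := by
  unfold mz
  rw [Matrix.SpecialLinearGroup.coe_mul]
  exact Matrix.map_mul (f := Int.castRingHom ℂ)

private lemma Rho_stable (e f : V →ₗ[ℂ] V) (T : Submodule ℂ V) (hT : Stable e f T)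
    (X : Matrix (Fin 2) (Fin 2) ℂ) : ∀ x ∈ T, rho e f X x ∈ T := by
  intro x hx
  have he : ∀ y ∈ T, e y ∈ T := fun y hy => (hT y hy).1
  have hf : ∀ y ∈ T, f y ∈ T := fun y hy => (hT y hy).2
  unfold rho
  simp only [LinearMap.add_apply, LinearMap.sub_apply, LinearMap.smul_apply,
    Module.End.mul_apply, Module.End.one_apply]
  refine T.add_mem (T.add_mem (T.add_mem (T.add_mem (T.sub_mem (T.sub_mem hx ?_) ?_) ?_) ?_) ?_) ?_
  · exact he _ (hf _ hx)
  · exact hf _ (he _ hx)
  · exact T.smul_mem _ (he _ (hf _ hx))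
  · exact T.smul_mem _ (he _ hx)
  · exact T.smul_mem _ (hf _ hx)
  · exact T.smul_mem _ (hf _ (he _ hx))

private lemma Rho_inv (e f : V →ₗ[ℂ] V) (h : TL e f) (g : SL(2, ℤ)) :
    rho e f (mz g) * rho e f (mz g⁻¹) = 1 := by
  rw [← Rho_mul e f h, ← Rho_mz_mul, mul_inv_cancel, Rho_mz_one, Rho_one]

private lemma Rho_comap_eq (e f : V →ₗ[ℂ] V) (h : TL e f) (T : Submodule ℂ V)
    (hT : Stable e f T) (g : SL(2, ℤ)) : T.comap (rho e f (mz g)) = T := by
  ext x
  rw [Submodule.mem_comap]
  constructor
  · intro hx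
    have h1 := Rho_stable e f T hT (mz g⁻¹) _ hx
    have h2 : rho e f (mz g⁻¹) (rho e f (mz g) x) = x := by
      have h3 := Rho_inv e f h g⁻¹
      rw [inv_inv] at h3
      have h4 := congrArg (fun L : V →ₗ[ℂ] V => L x) h3
      simpa using h4
    rwa [h2] at h1
  · intro hx
    exact Rho_stable e f T hT (mz g) _ hx

end

theorem thm_Rho : St_Rho := by
  intro V _ _ e f h
  refine ⟨Rho_one e f, Rho_mul e f h, ?_, ?_⟩
  · intro ε
    constructor
    · unfold S rho
      simp only [Matrix.of_apply, Matrix.cons_val', Matrix.cons_val_zero, Matrix.cons_val_one,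
        Matrix.cons_val_fin_one, zero_mul, zero_smul, one_smul, add_zero]
      module
    · unfold S rho
      simp only [Matrix.of_apply, Matrix.cons_val', Matrix.cons_val_zero, Matrix.cons_val_one,
        Matrix.cons_val_fin_one, zero_mul, zero_smul, one_smul, add_zero]
      module
  · intro T g
    constructor
    · intro hT
      have h1 := Rho_comap_eq e f h _ hT g⁻¹
      have h2 : (T.comap (rho e f (mz g))).comap (rho e f (mz g⁻¹)) = T := by
        ext x
        rw [Submodule.mem_comap, Submodule.mem_comap]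
        have h3 := Rho_inv e f h g
        have h4 := congrArg (fun L : V →ₗ[ℂ] V => L x) h3
        have h5 : rho e f (mz g) (rho e f (mz g⁻¹) x) = x := by simpa using h4
        rw [h5]
      rw [h2] at h1
      rw [h1]
      exact hT
    · intro hT
      rw [Rho_comap_eq e f h T hT g]
      exact hT

end Pool.RU
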