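import Pool.Agent.RU.States

/-!
# RU: exponential rate for braid boxes with unoriented strands. Definitions and statements

Outline of the proof: /team-store/RB_outline.md. Every module is one file `Pool/Agent/RB/X.lean` with
`import Pool.Agent.RU.St`, namespace `Pool.RU`, and theorems `thm_X : St_X` (earlier statements may be
hypotheses as indicated). Own lemmas `private` or with names starting with `X_`.
-/

namespace Pool.RU

open Matrix LaurentPolynomial

open scoped Classical MatrixGroups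

variable {K n : ℕ}

/-! ### Pairings of the ends of the box -/

/-- The ends of the box: `(i, false)` carries the colour `x i`, `(i, true)` the colour `y i`. -/
abbrev Gate (K : ℕ) : Type := Fin (K + 1) × Bool

/-- Pairings of the ends. -/
def Pg (K : ℕ) : Type := {π : Gate K → Gate K // (∀ p, π (π p) = p) ∧ ∀ p, π p ≠ p}

noncomputable instance : Fintype (Pg K) :=
  inferInstanceAs (Fintype {π : Gate K → Gate K // (∀ p, π (π p) = p) ∧ ∀ p, π p ≠ p})

/-- The colour of an end. -/
def gc (x y : Col K) : Gate K → Bool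
  | (i, false) => x i
  | (i, true) => y i

/-- The matrix of a pairing. -/
noncomputable def MP (π : Pg K) : Matrix (Col K) (Col K) ℕ := fun x y =>
  if ∀ p, gc x y (π.1 p) = gc x y p then 1 else 0

/-- The pairing of the trivial braid. -/
def pid : Pg K := ⟨fun p => (p.1, !p.2), fun p => by simp, fun p h => by
  have := congrArg Prod.snd h
  simp at this⟩

/-- The two ends at the place `a`. -/
def lp (a : Fin K) : Gate K := (a.castSucc, true)

/-- The two ends at the place `a`. -/
def rp (a : Fin K) : Gate K := (a.succ, true)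

theorem lp_ne_rp (a : Fin K) : lp a ≠ rp a := by
  intro h
  exact (Fin.castSucc_lt_succ (i := a)).ne (congrArg Prod.fst h)

/-- The pairing after a turnback at `a`: `lp a` is joined to `rp a`, and the partners of `lp a` and
`rp a` are joined. -/
def turnF (a : Fin K) (π : Gate K → Gate K) : Gate K → Gate K := fun p =>
  if p = lp a then rp a else if p = rp a then lp a
  else if p = π (lp a) then π (rp a) else if p = π (rp a) then π (lp a) else π p

theorem turnF_inv (a : Fin K) (π : Gate K → Gate K) (h1 : ∀ p, π (π p) = p)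
    (h2 : ∀ p, π p ≠ p) (h : π (lp a) ≠ rp a) :
    (∀ p, turnF a π (turnF a π p) = p) ∧ ∀ p, turnF a π p ≠ p := by
  have hlr := lp_ne_rp a
  have hl1 : π (lp a) ≠ lp a := h2 _
  have hr1 : π (rp a) ≠ rp a := h2 _
  have hr2 : π (rp a) ≠ lp a := by
    intro h3
    apply h
    rw [← h3, h1]
  have hpq : π (lp a) ≠ π (rp a) := by
    intro h3
    apply hlr
    rw [← h1 (lp a), h3, h1]
  have e1 : turnF a π (lp a) = rp a := by simp [turnF]
  have e2 : turnF a π (rp a) = lp a := by simp [turnF, hlr.symm]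
  have e3 : turnF a π (π (lp a)) = π (rp a) := by simp [turnF, hl1, h]
  have e4 : turnF a π (π (rp a)) = π (lp a) := by simp [turnF, hr1, hr2, hpq.symm]
  have e5 : ∀ p, p ≠ lp a → p ≠ rp a → p ≠ π (lp a) → p ≠ π (rp a) → turnF a π p = π p := by
    intro p g1 g2 g3 g4
    simp [turnF, g1, g2, g3, g4]
  have e6 : ∀ p, p ≠ lp a → p ≠ rp a → p ≠ π (lp a) → p ≠ π (rp a) →
      turnF a π (π p) = p := by
    intro p g1 g2 g3 g4
    rw [e5, h1]
    · intro g; apply g3; rw [← g, h1]
    · intro g; apply g4; rw [← g, h1]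
    · intro g; apply g1; rw [← h1 p, g, h1]
    · intro g; apply g2; rw [← h1 p, g, h1]
  constructor
  · intro p
    by_cases g1 : p = lp a
    · rw [g1, e1, e2]
    by_cases g2 : p = rp a
    · rw [g2, e2, e1]
    by_cases g3 : p = π (lp a)
    · rw [g3, e3, e4]
    by_cases g4 : p = π (rp a)
    · rw [g4, e4, e3]
    rw [e5 p g1 g2 g3 g4, e6 p g1 g2 g3 g4]
  · intro p
    by_cases g1 : p = lp a
    · rw [g1, e1]; exact hlr.symm
    by_cases g2 : p = rp a
    · rw [g2, e2]; exact hlr
    by_cases g3 : p = π (lp a)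
    · rw [g3, e3]; exact hpq.symm
    by_cases g4 : p = π (rp a)
    · rw [g4, e4]; exact hpq
    rw [e5 p g1 g2 g3 g4]
    exact h2 p

/-- The pairing after a turnback at `a`. -/
def turnP (a : Fin K) (π : Pg K) (h : π.1 (lp a) ≠ rp a) : Pg K :=
  ⟨turnF a π.1, turnF_inv a π.1 π.2.1 π.2.2 h⟩

/-- The operator of a turnback at `a` (a closed curve has the value `0`). -/
noncomputable def E (a : Fin K) : (Pg K → ℂ) →ₗ[ℂ] (Pg K → ℂ) where
  toFun φ π := if h : π.1 (lp a) = rp a then 0 else φ (turnP a π h)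
  map_add' φ ψ := by
    funext π
    by_cases h : π.1 (lp a) = rp a
    · simp [h]
    · simp [h]
  map_smul' c φ := by
    funext π
    by_cases h : π.1 (lp a) = rp a
    · simp [h]
    · simp [h]

/-- `1 - ε i e`, proportional to the operator of a crossing of sign `ε` at `A ^ 2 = i`. -/
noncomputable def S {V : Type} [AddCommGroup V] [Module ℂ V] (e : V →ₗ[ℂ] V) (ε : ℤˣ) :
    V →ₗ[ℂ] V := 1 - (((ε : ℤ) : ℂ) * Complex.I) • e

/-- The relations of the Temperley-Lieb algebra on three strands at loop value zero. -/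
def TL {V : Type} [AddCommGroup V] [Module ℂ V] (e f : V →ₗ[ℂ] V) : Prop :=
  e * e = 0 ∧ f * f = 0 ∧ e * f * e = e ∧ f * e * f = f

/-- **PGTURN.**  PROOF.  `(MP π * W a .turn) x z = ∑ y, MP π x y * [y a = y (a+1), z a = z (a+1), y b = z b
for the other b]`: two colourings `y` (the common value `v` at `a`, `a + 1`) matter. If `π` joins `lp a` and `rp a`, both
values `v` give the condition that `(x, z)` is compatible with `π`: the sum is `2 * MP π x z`. Otherwise `p = π (lp a)`,
`q = π (rp a)` are ends different from `lp a`, `rp a` (and `p ≠ q`), whose colours do not depend on `v`: the conditions are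
`col p = v`, `col q = v`, `z a = z (a+1)` and the compatibility at all other ends, so the sum over `v` is one if `(x, z)` is
compatible with `turnP a π h` and zero otherwise. Last: `MP pid x y = 1` iff `x = y`. -/
def St_PgTurn : Prop := ∀ (K : ℕ),
  (∀ (a : Fin K) (π : Pg K), (π.1 (lp a) = rp a → MP π * W a .turn = 2 • MP π) ∧
    ∀ h : π.1 (lp a) ≠ rp a, MP π * W a .turn = MP (turnP a π h)) ∧ MP (pid : Pg K) = 1

/-- **PGTL.**  PROOF.  (1) `turnP a π h` joins `lp a` and `rp a`, so `E a (E a φ) = 0`. (2) Let `b` be a neighbour of `a`, say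
`b = a + 1` (so `lp b = rp a`) or `a = b + 1` (`rp b = lp a`). Let `π` be a pairing. If `π (lp a) = rp a`, then `E a ψ` vanishes at `π` for every `ψ`.
Otherwise `π₁ = turnP a π h` joins `lp a` and `rp a`. The third end `r` (`rp b` or `lp b`) has a partner `s = π₁ r`, not `lp a`, `rp a`. So `π₁` does not join
`lp b` and `rp b`; `π₂ = turnP b π₁ _` joins `lp b` and `rp b`, and joins `s` with the third end (`lp a` or `rp a`, the one which is not an end of `b`); and `π₂` does not join
`lp a` and `rp a`; `turnP a π₂ _` joins `lp a`, `rp a` and joins `s` with `r`: it is `π₁`. So `E a (E b (E a φ)) π = φ π₁ = E a φ π`. (All functions: check the values at the ends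
`lp a, rp a, r, s` and at the others.) -/
def St_PgTL : Prop := ∀ (K : ℕ) (a : Fin K), E a * E a = 0 ∧
  ∀ b : Fin K, (a.val + 1 = b.val ∨ b.val + 1 = a.val) → E a * E b * E a = E a

/-! ### The functional of the outside -/

/-- Evaluation of Laurent polynomials at `A`. -/
noncomputable def ev (A : ℂˣ) : ℤ[T;T⁻¹] →+* ℂ := LaurentPolynomial.eval₂ (Int.castRingHom ℂ) A

/-- The weight of a state. -/
noncomputable def wt (A : ℂˣ) (D : Diagram K n) (s : Fin n → Bool) : ℂ :=
  ∏ x, ((A ^ (if s x then (D.kind x : ℤ) else -(D.kind x : ℤ)) : ℂˣ) : ℂ)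

/-- The sum over the states of `D` whose closure by the pairing is one curve. -/
noncomputable def phi (A : ℂˣ) (D : Diagram K n) : Pg K → ℂ := fun π =>
  ∑ s : Fin n → Bool, wt A D s * if (MP π * theta D (ways s)).trace = 2 then 1 else 0

/-- **FUN** (from `St_PgTurn` and the theorems `thm_Close`, `thm_Push`).  PROOF.  `-A^2 - A^(-2) = -i + i = 0`, so `ev A D.bracket` is the sum of the weights
of the states with one curve (`0 ^ (curves - 1)`, `1 ≤ curves`: `curves_pos`), and by `thm_Close` `curves = 1` iff `trace (theta D (ways s)) = 2` iff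
`trace (MP pid * theta D (ways s)) = 2`. Second part: split off the crossing `0` of `D.push a ε` (`Fin.consEquiv`, `Fin.prod_univ_succ`, as in
Pool/Agent/Ins/Expand.lean). By `thm_Push` `theta (push) (cons along c) = theta D c` and `theta (push) (cons turn c) = W a .turn * theta D c`. If
`π (lp a) ≠ rp a` then `MP π * W a .turn = MP (turnP a π h)`, otherwise the trace is `2 * trace (MP π * theta D c)`, and this is not `2` because
`trace (MP π * theta D c)` is even: it counts pairs of a colouring `h` of `D` and ... more precisely it is `∑ x y, MP π x y * theta D c y x`, invariant under `x ↦ not x`, `y ↦ not y`,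
which has no fixed points (`theta` is invariant: `h ↦ not h`). So `phi A (D.push a ε) = A^ε phi A D + A^(-ε) E a (phi A D)`, and `A^(-2 ε) = - ε i`. -/
def St_Fun : Prop := ∀ (K n : ℕ) (D : Diagram K n) (A : ℂˣ), (A : ℂ) ^ 2 = Complex.I →
  ev A D.bracket = phi A D pid ∧ ∀ (a : Fin K) (ε : ℤˣ),
    phi A (D.push a ε) = ((A ^ (ε : ℤ) : ℂˣ) : ℂ) • S (E a) ε (phi A D)

/-- The product of the operators of the letters. -/
noncomputable def opw (w : List (Fin K × ℤˣ)) : (Pg K → ℂ) →ₗ[ℂ] (Pg K → ℂ) :=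
  (w.map fun l => S (E l.1) l.2).prod

/-- **PAR** (from `St_Fun` and `Parity.lean`).  PROOF.  From `St_Fun` by induction on `w`: `phi A (D.insert w) = A ^ e • opw w (phi A D)`, `e = ∑ ε` the sum of the signs of `w`; so with
`D' = D.insert w`, `n' = n + |w|` crossings, `val = opw w (phi A D) pid = A^(-e) ev A D'.bracket = A^(-e) ∑ over the states with one curve of wt A D' s`.
(1) `wt A D' s = A ^ m` with `m ≡ n'` modulo `2`, so `A^(-e) wt = A^n * A^(|w| - e + (m - n')) = A^n * i^j` for an integer `j` (`e ≡ |w|`). So `val = A^n * G` with `G` a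
sum of `N` powers of `i`, `N` = the number of the states with one curve, a Gaussian integer, and `re + im` of a power of `i` is odd, so `re G + im G ≡ N` modulo `2`. By
`one_curve_parity`: `N` is odd iff `D'` is a knot. (2) The normalised bracket: `ev A (normalized) = (-1)^writhe * A^(-3 writhe) * A^e * val`, and
`-1 = A^4`, `A^8 = 1`: it is `A^j * val`, `j < 8`. -/
def St_Par : Prop := ∀ (K n : ℕ) (D : Diagram K n) (A : ℂˣ), (A : ℂ) ^ 2 = Complex.I →
  (∀ w : List (Fin K × ℤˣ), ∃ G : GaussianInt, opw w (phi A D) pid = (A : ℂ) ^ n * (G : ℂ) ∧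
    (Odd (G.re + G.im) ↔ (D.insert w).IsKnot)) ∧
  ∀ (w : List (Fin K × ℤˣ)) (o : Tip K (n + w.length) → Bool), ∃ j < 8,
    ev A ((D.insert w).normalized o) = (A : ℂ) ^ j * opw w (phi A D) pid

/-! ### Matrix units -/

section

variable {V : Type} [AddCommGroup V] [Module ℂ V]

/-- The action of `2 × 2` matrices: `- i e`, `i f`, `e f`, `f e` are matrix units. -/
noncomputable def rho (e f : V →ₗ[ℂ] V) (X : Matrix (Fin 2) (Fin 2) ℂ) : V →ₗ[ℂ] V :=
  (1 - e * f - f * e) + X 0 0 • (e * f) + (X 0 1 * -Complex.I) • e + (X 1 0 * Complex.I) • f +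
    X 1 1 • (f * e)

/-- An integer matrix as a complex matrix. -/
def mz (h : SL(2, ℤ)) : Matrix (Fin 2) (Fin 2) ℂ := (h : Matrix (Fin 2) (Fin 2) ℤ).map (fun k => (k : ℂ))

/-- A subspace which is stable under `e` and `f`. -/
def Stable (e f : V →ₗ[ℂ] V) (T : Submodule ℂ V) : Prop := ∀ x ∈ T, e x ∈ T ∧ f x ∈ T

end

/-- **RHO.**  PROOF.  Direct computation with `e e = f f = 0`, `e f e = e`, `f e f = f` (associativity). Last: if `T` is stable under `e`, `f` then it is stable under every `rho e f X`;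
if `rho e f (mz h)` maps `T` onto ... for `h : SL(2, ℤ)`: `rho (mz h)` is invertible with inverse `rho (mz h⁻¹)`; if `T.comap (rho (mz h))` is stable, it is stable under `rho (mz h⁻¹)`, so
`T = (T.comap (rho (mz h))).comap (rho (mz h⁻¹))` is equal to it (both inclusions), hence stable. -/
def St_Rho : Prop := ∀ (V : Type) [AddCommGroup V] [Module ℂ V] (e f : V →ₗ[ℂ] V), TL e f →
  rho e f 1 = 1 ∧ (∀ X Y, rho e f (X * Y) = rho e f X * rho e f Y) ∧
  (∀ ε : ℤˣ, S e ε = rho e f !![1, ((ε : ℤ) : ℂ); 0, 1] ∧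
    S f ε = rho e f !![1, 0; -((ε : ℤ) : ℂ), 1]) ∧
  ∀ (T : Submodule ℂ V) (h : SL(2, ℤ)), Stable e f (T.comap (rho e f (mz h))) ↔ Stable e f T

/-- **BURN.**  A set of `2 × 2` matrices closed under products without a common eigenvector.  PROOF.  (1) Suppose there is `C ≠ 0` with `tr (C h) = 0` for all `h ∈ H`. Let `Ann` be the space of these
`C`; `C ∈ Ann`, `h ∈ H` implies `C h ∈ Ann` and `h C ∈ Ann`. (a) If `Ann` contains `C = u wᵀ` of rank one (`u, w ≠ 0`): `wᵀ h u = 0` for all `h ∈ H`, in particular `wᵀ u = 0`, so `h u` is in the line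
`ker wᵀ = ℂ u` for all `h`: common eigenvector. (b) If `C ∈ Ann` is invertible: for `h ∈ H` let `l` be an eigenvalue of `h`; `C h - l C = C (h - l)` is in `Ann` and singular. If it is zero for
all `h`, every `h` is a scalar: common eigenvector. Otherwise it has rank one: (a). So (first claim) no `C ≠ 0` exists, i.e. `H` spans all matrices (a linear
functional on matrices is `X ↦ tr (C X)`; a proper subspace is killed by a nonzero functional). (2) If `tr h = 2` for all `h ∈ H`: for `g ∈ H`, `tr ((g - 1) h) = 0` for all `h ∈ H`, so `g = 1` by (1), for all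
`g ∈ H`: common eigenvector. -/
def St_Burn : Prop := ∀ H : Set (Matrix (Fin 2) (Fin 2) ℂ), 1 ∈ H → (∀ g ∈ H, ∀ h ∈ H, g * h ∈ H) →
  (¬ ∃ v : Fin 2 → ℂ, v ≠ 0 ∧ ∀ h ∈ H, ∃ c : ℂ, h *ᵥ v = c • v) →
  Submodule.span ℂ H = ⊤ ∧ ∃ h ∈ H, h.trace ≠ 2

/-- **LINE** (from `St_Rho`, `St_Burn`).  PROOF.  `H = {mz h | rho (mz h) T ≤ T}` is closed under products and contains `1`. If it had no common eigenvector: take `h ∈ H` with `tr h ≠ 2` (`det h = 1`). By
Cayley-Hamilton `h^2 - tr(h) h + 1 = 0`, so `R = rho h` satisfies `R^2 - tr(h) R + 1 = (2 - tr h) z`, `z = 1 - e f - f e` (expand `rho (h * h) = rho h * rho h`, or: `rho` is affine,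
`rho (X) - z` is linear in `X`). `T` is stable under the left side, hence under `z`. So `T` is stable under `rho h - z`, linear in `h`, for all `h ∈ H`, hence (span) for all matrices, in particular
under `- i e` and `i f`: `T` is stable. -/
def St_Line : Prop := ∀ (V : Type) [AddCommGroup V] [Module ℂ V] (e f : V →ₗ[ℂ] V), TL e f →
  ∀ T : Submodule ℂ V, ¬ Stable e f T → ∃ v : Fin 2 → ℂ, v ≠ 0 ∧ ∀ h : SL(2, ℤ),
    (∀ x ∈ T, rho e f (mz h) x ∈ T) → ∃ c : ℂ, mz h *ᵥ v = c • v

/-- **EQUI** (from `St_Rho`, `St_Line`).  PROOF.  `h ↦ (T ↦ T.comap (rho (mz h⁻¹)))` is an action of the group `SL(2, ℤ)` on the subspaces. In every orbit of a subspace which is not stable choose a representative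
`T₀` (`Quotient.out` for the orbit relation, or classical choice) and the vector `v₀` of `St_Line` for `T₀`, and for every `T` in the orbit an element `g` with `T = g T₀`, `L T = g v₀`. If `T' = h T = g' T₀` then
`g'⁻¹ h g` stabilises `T₀`, so `g'⁻¹ h g v₀ = c v₀` and `h L(T) = h g v₀ = c g' v₀ = c L(T')`, `c ≠ 0`. -/
def St_Equi : Prop := ∀ (V : Type) [AddCommGroup V] [Module ℂ V] (e f : V →ₗ[ℂ] V), TL e f →
  ∃ L : Submodule ℂ V → (Fin 2 → ℂ), ∀ T, ¬ Stable e f T → L T ≠ 0 ∧ ∀ h : SL(2, ℤ),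
    ∃ c : ℂ, c ≠ 0 ∧ L (T.comap (rho e f (mz h))) = c • (mz h⁻¹ *ᵥ L T)

/-- The square of the norm. -/
noncomputable def N2 {X : Type} (p : X →₀ ℝ) : ℝ := p.sum fun _ r => r ^ 2

/-- **PING.**  PROOF.  `A`, `B` a partition of `X`, `x`, `y` bijections of `X` such that `x B`, `x⁻¹ B` are disjoint subsets of `A` and `y A`, `y⁻¹ A` disjoint subsets of `B`. For a set `Y` put
`ν Y = ∑ over Y of p^2`. Let `a = N2 (x p - p)`, where `(x p)(t) = p (x⁻¹ t)` (`Finsupp.mapDomain x p`). For a bijection `g` with `N2 (g p - p) ≤ a` and every set `Y`: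
`|ν (g⁻¹ Y) - ν Y| ≤ ∑ over Y of |(g p)^2 - p^2| ≤ 8 N2 (g p - p) + (1/32) N2 (g p + p) ≤ 8 a + N/8`, `N = N2 p` (use `|u^2 - v^2| ≤ 8 (u - v)^2 + (u + v)^2/32`). The same for `g⁻¹`. So
`ν A ≥ ν (x B) + ν (x⁻¹ B) ≥ 2 ν B - 2 (8 a + N/8)`, `ν B ≥ 2 ν A - 2 (8 a' + N/8)`, and the sum gives `N ≥ 2 N - 16 (a + a') - N/2`, i.e. `16 (a + a') ≥ N/2`. -/
def St_Ping : Prop := ∀ (X : Type) (x y : Equiv.Perm X) (A : Set X) (p : X →₀ ℝ),
  (∀ t ∈ p.support, t ∉ A → x t ∈ A ∧ x.symm t ∈ A) →
  (∀ t ∈ p.support, t ∈ A → y t ∉ A ∧ y.symm t ∉ A) →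
  (∀ t ∈ p.support, t ∉ A → ∀ t' ∈ p.support, t' ∉ A → x t ≠ x.symm t') →
  (∀ t ∈ p.support, t ∈ A → ∀ t' ∈ p.support, t' ∈ A → y t ≠ y.symm t') →
  N2 p ≤ 32 * (N2 (Finsupp.mapDomain x p - p) + N2 (Finsupp.mapDomain y p - p))

/-- The average of `p` over the two signs of a letter. -/
noncomputable def avg {V : Type} [AddCommGroup V] [Module ℂ V] (e : V →ₗ[ℂ] V)
    (p : Submodule ℂ V →₀ ℝ) : Submodule ℂ V →₀ ℝ :=
  (1 / 2 : ℝ) • (Finsupp.mapDomain (Submodule.comap (S e 1)) p +
    Finsupp.mapDomain (Submodule.comap (S e (-1))) p)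

/-- **GAP** (from `St_Rho`, `St_Equi`, `St_Ping`).  PROOF.  Let `s` be the bijection `T ↦ T.comap (S e 1)` of the set of subspaces (inverse `T.comap (S e (-1))`, as `S e 1 * S e (-1) = 1`) and `t` the same for `f`. Write
`s p` for `mapDomain`. `avg e p = (s p + s⁻¹ p)/2`; parallelogram: `N2 (avg e p) = N2 p - N2 (s^2 p - p)/4`. Put `p' = avg e p`: `N2 (avg f p') = N2 p' - N2 (t^2 p' - p')/4`. Let
`α = N2 (s^2 p - p)`, `β = N2 (t^2 p' - p')`, `h = s p`. `h - p' = (s p - s⁻¹ p)/2`, `N2 (h - p') = α/4`. `t^2 h - h = (t^2 p' - p') + (t^2 (h - p') - (h - p'))`, so `N2 (t^2 h - h) ≤ 2 β + 2 * 4 * α/4 = 2 β + 2 α`, and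
`N2 (s^2 h - h) = α`. `St_Ping` for `h`, with `x = s^2`, `y = t^2` (or the inverse), gives `N2 p = N2 h ≤ 32 (3 α + 2 β) ≤ 96 (α + β)`, so `N2 (avg f (avg e p)) = N2 p - (α + β)/4 ≤ (1 - 1/384) N2 p`.
The partition: `L` from `St_Equi`, for a vector `v = (v₁, v₂) ≠ 0` of `ℂ^2` let `v ∈ A₀` iff `re (v₁ conj v₂) ≥ |v₂|^2` or `re (v₁ conj v₂) < - |v₂|^2` (homogeneous: does not change if `v` is multiplied by
`c ≠ 0`), and `A = {T : L T ∈ A₀}`. `S e 1 = rho (1 1; 0 1)`, so `x` acts on `L` (up to a factor) by `(1 -2; 0 1)`, `x⁻¹` by `(1 2; 0 1)`, and `t^(±2)` by `(1 0; ±2 1)` (`St_Equi`, `mz h⁻¹`). With `w = v₁/v₂`: `B₀ = {-1 ≤ re w < 1}`, the translations by `±2` map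
`B₀` to the strips `1 ≤ re w < 3`, `-3 ≤ re w < -1`, disjoint and in `A₀`. With `u = v₂/v₁ = 1/w` (`v₁ ≠ 0` on `A₀`): on `A₀`: `-1 < re u ≤ 1`, as `re u = re w/|w|^2`; `u ± 2` have `1 < re ≤ 3`, `-3 < re ≤ -1`: disjoint, and then
`w' = 1/(u ± 2)` has `0 < re w' < 1` resp. `-1 ≤ re w' < 0`, so in `B₀`. All in homogeneous form with `v₁ ∓ 2 v₂` etc. (`nlinarith` on real and imaginary parts). -/
def St_Gap : Prop := ∀ (V : Type) [AddCommGroup V] [Module ℂ V] (e f : V →ₗ[ℂ] V), TL e f →
  ∀ p : Submodule ℂ V →₀ ℝ, (∀ T ∈ p.support, ¬ Stable e f T) →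
    N2 (avg f (avg e p)) ≤ (383 / 384) * N2 p

/-! ### The induction over the dimension -/

/-- A step: two letters with free signs, followed by an invertible operator. -/
structure Step (V : Type) [AddCommGroup V] [Module ℂ V] where
  /-- the first letter -/
  e : V →ₗ[ℂ] V
  /-- the second letter -/
  f : V →ₗ[ℂ] V
  /-- the fixed part -/
  g : V ≃ₗ[ℂ] V
  /-- the two letters are neighbours -/
  turn : Bool
  he : e * e = 0
  hf : f * f = 0
  ht : turn = true → TL e f

/-- The operator of a step. -/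
noncomputable def Step.op {V : Type} [AddCommGroup V] [Module ℂ V] (s : Step V) (ε : ℤˣ × ℤˣ) :
    V →ₗ[ℂ] V := S s.e ε.1 * S s.f ε.2 * (s.g : V →ₗ[ℂ] V)

/-- The probability that the random vector lies in `T`. -/
noncomputable def prob {V : Type} [AddCommGroup V] [Module ℂ V] (v : V) :
    List (Step V) → Submodule ℂ V → ℝ
  | [], T => if v ∈ T then 1 else 0
  | s :: L, T => (∑ ε : ℤˣ × ℤˣ, prob v L (T.comap (s.op ε))) / 4

/-- The number of turns. -/
def turns {V : Type} [AddCommGroup V] [Module ℂ V] (L : List (Step V)) : ℕ :=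
  L.countP fun s => s.turn

/-- **ABS** (from `St_Gap`).  PROOF.  Induction over `d`. `d = 0`: `T = ⊥`, all operators are injective, `v ≠ 0`: `prob = 0`. Step from `d` to `d + 1`: write `L = L₁ ++ L₂` with exactly `l` turns in `L₁`. Define
the weights `p : Submodule ℂ V →₀ ℝ`, `p ≥ 0`, of the subspaces after `L₁`: start with the unit weight at `T`; a step which is no turn: `p ↦ (1/4) ∑ ε, mapDomain (comap (op ε)) p`; a turn: first
remove from `p` the subspaces which are stable under `e`, `f`, then the same. All subspaces in the support satisfy `𝒜 (remaining list)` (`h2`) and have the dimension of `T` (the operators are invertible), and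
`prob v L T = ∑ T', p T' * prob v L₂ T'` (`h3`: the removed ones have probability zero). `N2 p ≤ (383/384)^l`: `N2` does not increase under averages of bijections (convexity), and for a turn `comap (op ε) =
comap g ∘ comap (S f ε₂) ∘ comap (S e ε₁)`, so the average is `mapDomain (comap g) (avg f (avg e p))`: `St_Gap`. Total mass `∑ p ≤ 1`. Now `prob v L₂ T'` is the average over the signs of `L₂` of the
indicator of `vec ∈ T'` (`vec` = product of the operators applied to `v`). Cauchy-Schwarz: `(∑ p T' prob T')^2 ≤ average of (∑ p T' [vec ∈ T'])^2 = ∑ p T' p T'' prob v L₂ (T' ⊓ T'')`. The diagonal is at most `N2 p`, for `T' ≠ T''` the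
intersection has dimension at most `d` and satisfies `𝒜` (`h1`), so by induction the rest is at most `2 x^(1/2^d)`, `x = (383/384)^l` (`L₂` has at least `d l` turns). So `prob^2 ≤ x + 2 x^(1/2^d) ≤ 3 x^(1/2^d)`, and
`prob ≤ 2 x^(1/2^(d+1))`. -/
def St_Abs : Prop := ∀ (V : Type) [AddCommGroup V] [Module ℂ V] [Module.Finite ℂ V] (v : V),
  v ≠ 0 → ∀ 𝒜 : List (Step V) → Submodule ℂ V → Prop,
  (∀ L T T', T' ≤ T → 𝒜 L T → 𝒜 L T') →
  (∀ s L T ε, 𝒜 (s :: L) T → 𝒜 L (T.comap (s.op ε))) →
  (∀ s L T, s.turn = true → 𝒜 (s :: L) T → Stable s.e s.f T → prob v (s :: L) T = 0) →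
  ∀ (d l : ℕ) (L : List (Step V)) (T : Submodule ℂ V), 𝒜 L T → Module.finrank ℂ T ≤ d →
    d * l ≤ turns L → prob v L T ≤ 2 * (((383 / 384 : ℝ) ^ l) ^ ((1 / 2 : ℝ) ^ d))

end Pool.RU
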