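import Pool.Agent.RU.Defs

/-!
# Statements about curves and colourings (port of Pool/Agent/Ins to k + 1 gates)
-/

namespace Pool.RU

open Matrix LaurentPolynomial

variable {K n : ℕ}

/-- Colours on `K + 1` strands. -/
abbrev Col (K : ℕ) : Type := Fin (K + 1) → Bool

/-- The number of colourings of the arcs with two colours which agree at the crossings, have the
colours `x` on the arcs arriving at the gates and `y` on the arcs leaving the gates. -/
noncomputable def theta (D : Diagram K n) (c : Fin n → Way) : Matrix (Col K) (Col K) ℕ := fun x y =>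
  Nat.card {h : Tip K n → Bool // (∀ p, h (D.arc p) = h p) ∧
    (∀ k i b, h (join c (.inr (k, i), b)) = h (.inr (k, i), b)) ∧
    (∀ a, h (.inl a, false) = x a) ∧ ∀ a, h (.inl a, true) = y a}

/-- The matrix of a permutation of the strands. -/
def permM (τ : Equiv.Perm (Fin (K + 1))) : Matrix (Col K) (Col K) ℕ := fun x y =>
  if ∀ a, y a = x (τ a) then 1 else 0

/-- The matrices of the ways at the place `a`. -/
def W (a : Fin K) : Way → Matrix (Col K) (Col K) ℕ
  | .keep => permM (Equiv.swap a.castSucc a.succ)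
  | .along => 1
  | .turn => fun x y => if x a.castSucc = x a.succ ∧ y a.castSucc = y a.succ ∧
      (∀ b, b ≠ a.castSucc → b ≠ a.succ → x b = y b) then 1 else 0

/-- **CLOSE.** -/
def St_Close : Prop := ∀ (K n : ℕ) (D : Diagram K n) (c : Fin n → Way),
  2 ^ D.curves c = (theta D c).trace

/-- **PUSH.** -/
def St_Push : Prop := ∀ (K n : ℕ) (D : Diagram K n) (a : Fin K) (ε : ℤˣ) (v : Way)
  (c : Fin n → Way),
  theta (D.push a ε) (Fin.cons v c : Fin (n + 1) → Way) = W a v * theta D c

/-- **PAIR.** -/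
def St_Pair : Prop := ∀ (V : Type) [Finite V] (μ ν : V → V), (∀ p, μ (μ p) = p) →
  (∀ p, ν (ν p) = p) → (∀ p, ν p ≠ p) → ∀ x, μ x = x → ∃ y, y ≠ x ∧ μ y = y ∧
    Quot.mk (fun p q : V => q = μ p ∨ q = ν p) y = Quot.mk (fun p q : V => q = μ p ∨ q = ν p) x ∧
    ∀ z, μ z = z →
      Quot.mk (fun p q : V => q = μ p ∨ q = ν p) z = Quot.mk (fun p q : V => q = μ p ∨ q = ν p) x →
      z = x ∨ z = y

/-- **THREE** (from `St_Pair`). -/
def St_Three : Prop := ∀ (K n : ℕ) (D : Diagram K n) (c : Fin n → Way) (x : Fin n),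
  (-2 : ℤ) ^ D.curves (Function.update c x .keep) +
    (-2 : ℤ) ^ D.curves (Function.update c x .along) +
    (-2 : ℤ) ^ D.curves (Function.update c x .turn) = 0

/-- The ways of a state. -/
def ways (s : Fin n → Bool) : Fin n → Way := fun x => if s x then .along else .turn

/-- **STATES** (from `St_Three`). -/
def St_States : Prop := ∀ (K n : ℕ) (D : Diagram K n),
  ∑ s : Fin n → Bool, (-2 : ℤ) ^ D.curves (ways s) = (-1) ^ n * (-2) ^ D.curves (fun _ => .keep)

end Pool.RU
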