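import Pool.Agent.RU.Walk

/-!
# Counting words
-/

set_option autoImplicit false

namespace Pool.RU

open LaurentPolynomial

open scoped Classical

variable {K n : ℕ}

theorem A8_sq : (A8 : ℂ) ^ 2 = Complex.I := by
  show Complex.exp (Real.pi / 4 * Complex.I) ^ 2 = Complex.I
  rw [← Complex.exp_nat_mul]
  have h1 : ((2 : ℕ) : ℂ) * (Real.pi / 4 * Complex.I) = Real.pi / 2 * Complex.I := by
    push_cast
    ring
  rw [h1]
  exact Complex.exp_pi_div_two_mul_I

/-- The event: the diagram is a knot diagram with normalised bracket `P` or with determinant at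
most `R`. -/
def Ev (D : Diagram K n) (P : ℤ[T;T⁻¹]) (R : ℝ) (w : List (Fin K × ℤˣ)) : Prop :=
  (D.insert w).IsKnot ∧ ∃ o, (D.insert w).IsOrientation o ∧
    ((D.insert w).normalized o = P ∨ (D.insert w).determinant o ≤ R)

theorem gauss_inj (G G' : GaussianInt) (h : (G : ℂ) = (G' : ℂ)) : G = G' :=
  GaussianInt.toComplex_injective h

/-- Finitely many values. -/
theorem walk_set (hG : St_Gap) (hT : St_PgTurn) (h : St_PgTL) (hP : St_Par) (D : Diagram K n)
    (w₀ : List (Fin K × ℤˣ)) (M : List (Blk K)) (l : ℕ)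
    (hl : Module.finrank ℂ (VV K) * l ≤ M.countP fun s => nb s) (V : Finset ℂ) :
    (av M fun y => if (D.insert (w₀ ++ y)).IsKnot ∧ opw (w₀ ++ y) (phi A8 D) pid ∈ V then 1
      else 0) ≤ V.card *
        (2 * (((383 / 384 : ℝ) ^ l) ^ ((1 / 2 : ℝ) ^ Module.finrank ℂ (VV K)))) := by
  obtain ⟨hP1, -⟩ := hP K n D A8 A8_sq
  have hAn : (A8 : ℂ) ^ n ≠ 0 := pow_ne_zero _ A8.ne_zero
  set B : ℝ := 2 * (((383 / 384 : ℝ) ^ l) ^ ((1 / 2 : ℝ) ^ Module.finrank ℂ (VV K))) with hB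
  have hB0 : 0 ≤ B := by positivity
  set f : ℂ → List (Fin K × ℤˣ) → ℝ := fun c y =>
    if (∀ w, opw w (phi A8 D) pid = c → (D.insert w).IsKnot) ∧
      opw (w₀ ++ y) (phi A8 D) pid = c then 1 else 0 with hf
  have hf0 : ∀ c y, 0 ≤ f c y := by
    intro c y
    rw [hf]
    simp only
    split_ifs <;> norm_num
  have h1 : ∀ y, (if (D.insert (w₀ ++ y)).IsKnot ∧ opw (w₀ ++ y) (phi A8 D) pid ∈ V then (1 : ℝ)
      else 0) ≤ ∑ c ∈ V, f c y := by
    intro y
    split_ifs with hy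
    · obtain ⟨hk, hy2⟩ := hy
      obtain ⟨G, hG1, hG2⟩ := hP1 (w₀ ++ y)
      have h4 : ∀ w, opw w (phi A8 D) pid = opw (w₀ ++ y) (phi A8 D) pid →
          (D.insert w).IsKnot := by
        intro w hw
        obtain ⟨G', hG1', hG2'⟩ := hP1 w
        have h5 : G' = G := by
          apply gauss_inj
          apply mul_left_cancel₀ hAn
          rw [← hG1', ← hG1, hw]
        rw [← hG2', h5]
        exact hG2.mpr hk
      have h6 : f (opw (w₀ ++ y) (phi A8 D) pid) y = 1 := if_pos ⟨h4, rfl⟩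
      have h7 : f (opw (w₀ ++ y) (phi A8 D) pid) y ≤ ∑ c ∈ V, f c y :=
        Finset.single_le_sum (f := fun c => f c y) (fun i _ => hf0 i y) hy2
      rw [h6] at h7
      exact h7
    · exact Finset.sum_nonneg fun i _ => hf0 i y
  have h2 : ∀ c, av M (f c) ≤ B := by
    intro c
    by_cases h3 : ∀ w, opw w (phi A8 D) pid = c → (D.insert w).IsKnot
    · refine le_trans (av_mono M _ _ fun y => ?_)
        (walk_one hG hT h D (phi A8 D) c h3 w₀ M l hl)
      rw [hf]
      simp only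
      by_cases h4 : opw (w₀ ++ y) (phi A8 D) pid = c
      · rw [if_pos h4]
        split_ifs <;> norm_num
      · rw [if_neg h4, if_neg (fun h5 => h4 h5.2)]
    · have h5 : f c = fun y => ∑ i ∈ (∅ : Finset ℕ), (fun _ _ => (0 : ℝ)) i y := by
        funext y
        rw [hf]
        simp only [Finset.sum_empty]
        rw [if_neg (fun h5 => h3 h5.1)]
      rw [h5, av_sum M ∅ (fun _ _ => (0 : ℝ)), Finset.sum_empty]
      exact hB0
  refine (av_mono M _ _ h1).trans ?_
  rw [av_sum]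
  refine (Finset.sum_le_sum fun c _ => h2 c).trans ?_
  rw [Finset.sum_const, nsmul_eq_mul]

/-- The values of the event. -/
noncomputable def vals (n : ℕ) (P : ℤ[T;T⁻¹]) (R : ℝ) : Finset ℂ :=
  ((Finset.range 8).image fun j => ((A8 : ℂ) ^ j)⁻¹ * ev A8 P) ∪
    ((Finset.Icc (-⌊R⌋) ⌊R⌋ ×ˢ Finset.Icc (-⌊R⌋) ⌊R⌋).image fun z =>
      (A8 : ℂ) ^ n * ((⟨z.1, z.2⟩ : GaussianInt) : ℂ))

theorem card_vals (n : ℕ) (P : ℤ[T;T⁻¹]) (R : ℝ) (hR : 0 ≤ R) :
    ((vals n P R).card : ℝ) ≤ 9 * (1 + R) ^ 2 := by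
  have h0 : 0 ≤ ⌊R⌋ := Int.floor_nonneg.mpr hR
  have h1 : ((vals n P R).card : ℝ) ≤ 8 + (2 * ⌊R⌋ + 1) * (2 * ⌊R⌋ + 1) := by
    unfold vals
    refine le_trans (Nat.cast_le.mpr (Finset.card_union_le _ _)) ?_
    push_cast
    refine add_le_add ?_ ?_
    · refine le_trans (Nat.cast_le.mpr Finset.card_image_le) ?_
      rw [Finset.card_range]
      norm_num
    · refine le_trans (Nat.cast_le.mpr Finset.card_image_le) ?_
      rw [Finset.card_product, Int.card_Icc]
      push_cast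
      have h2 : (((⌊R⌋ + 1 - -⌊R⌋).toNat : ℕ) : ℝ) = 2 * ⌊R⌋ + 1 := by
        have h3 : (((⌊R⌋ + 1 - -⌊R⌋).toNat : ℕ) : ℤ) = ⌊R⌋ + 1 - -⌊R⌋ :=
          Int.toNat_of_nonneg (by omega)
        have h4 : (((⌊R⌋ + 1 - -⌊R⌋).toNat : ℕ) : ℝ) = ((⌊R⌋ + 1 - -⌊R⌋ : ℤ) : ℝ) := by
          rw [← h3]
          push_cast
          rfl
        rw [h4]
        push_cast
        ring
      rw [h2]
  have h5 : (⌊R⌋ : ℝ) ≤ R := Int.floor_le R
  have h6 : (0 : ℝ) ≤ ⌊R⌋ := by exact_mod_cast h0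
  nlinarith

theorem norm_A8 : ‖(A8 : ℂ)‖ = 1 := by
  have h1 : ‖(A8 : ℂ)‖ ^ 2 = 1 := by
    rw [← norm_pow, A8_sq, Complex.norm_I]
  have h2 := norm_nonneg (A8 : ℂ)
  nlinarith

/-- All values: the probability is exponentially small. -/
theorem walk_all (hG : St_Gap) (hT : St_PgTurn) (h : St_PgTL) (hP : St_Par) (D : Diagram K n)
    (P : ℤ[T;T⁻¹]) (R : ℝ) (hR : 0 ≤ R) (w₀ : List (Fin K × ℤˣ)) (M : List (Blk K)) (l : ℕ)
    (hl : Module.finrank ℂ (VV K) * l ≤ M.countP fun s => nb s) :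
    (av M fun y => if Ev D P R (w₀ ++ y) then 1 else 0) ≤
      18 * (1 + R) ^ 2 *
        (((383 / 384 : ℝ) ^ l) ^ ((1 / 2 : ℝ) ^ Module.finrank ℂ (VV K))) := by
  obtain ⟨hP1, hP2⟩ := hP K n D A8 A8_sq
  have h1 : ∀ y, (if Ev D P R (w₀ ++ y) then (1 : ℝ) else 0) ≤
      if (D.insert (w₀ ++ y)).IsKnot ∧ opw (w₀ ++ y) (phi A8 D) pid ∈ vals n P R then 1
        else 0 := by
    intro y
    by_cases hy : Ev D P R (w₀ ++ y)
    · rw [if_pos hy]
      obtain ⟨hk, o, -, hy2⟩ := hy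
      have hmem : opw (w₀ ++ y) (phi A8 D) pid ∈ vals n P R := by
        obtain ⟨j, hj, hj2⟩ := hP2 (w₀ ++ y) o
        unfold vals
        rw [Finset.mem_union, Finset.mem_image, Finset.mem_image]
        rcases hy2 with hy2 | hy2
        · left
          refine ⟨j, Finset.mem_range.mpr hj, ?_⟩
          rw [← hy2, hj2, ← mul_assoc, inv_mul_cancel₀ (pow_ne_zero _ A8.ne_zero), one_mul]
        · right
          obtain ⟨G, hG1, hG2⟩ := hP1 (w₀ ++ y)
          have h3 : ‖(G : ℂ)‖ ≤ R := by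
            have h4 : (D.insert (w₀ ++ y)).determinant o = ‖(G : ℂ)‖ := by
              show ‖ev A8 ((D.insert (w₀ ++ y)).normalized o)‖ = _
              rw [hj2, hG1, norm_mul, norm_mul, norm_pow, norm_pow, norm_A8, one_pow, one_pow,
                one_mul, one_mul]
            rw [← h4]
            exact hy2
          have hre : |((G.re : ℤ) : ℝ)| ≤ R := by
            have h5 := Complex.abs_re_le_norm (G : ℂ)
            rw [← GaussianInt.intCast_re] at h5
            exact h5.trans h3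
          have him : |((G.im : ℤ) : ℝ)| ≤ R := by
            have h5 := Complex.abs_im_le_norm (G : ℂ)
            rw [← GaussianInt.intCast_im] at h5
            exact h5.trans h3
          have key : ∀ x : ℤ, |(x : ℝ)| ≤ R → x ∈ Finset.Icc (-⌊R⌋) ⌊R⌋ := by
            intro x hx
            rw [abs_le] at hx
            rw [Finset.mem_Icc]
            constructor
            · have h6 : -x ≤ ⌊R⌋ := Int.le_floor.mpr (by push_cast; linarith)
              linarith
            · exact Int.le_floor.mpr hx.2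
          refine ⟨(G.re, G.im), Finset.mem_product.mpr ⟨key _ hre, key _ him⟩, ?_⟩
          rw [hG1]
      rw [if_pos ⟨hk, hmem⟩]
    · rw [if_neg hy]
      split_ifs <;> norm_num
  refine (av_mono M _ _ h1).trans ((walk_set hG hT h hP D w₀ M l hl _).trans ?_)
  have h2 := card_vals n P R hR
  have h3 : (0 : ℝ) ≤ 2 * (((383 / 384 : ℝ) ^ l) ^ ((1 / 2 : ℝ) ^ Module.finrank ℂ (VV K))) := by
    positivity
  refine (mul_le_mul_of_nonneg_right h2 h3).trans (le_of_eq ?_)
  ring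

/-- The exponential form. -/
theorem walk_exp (hG : St_Gap) (hT : St_PgTurn) (h : St_PgTL) (hP : St_Par) (K : ℕ) :
    ∃ C κ : ℝ, 0 < C ∧ 0 < κ ∧ ∀ (n : ℕ) (D : Diagram K n) (P : ℤ[T;T⁻¹]) (R : ℝ), 0 ≤ R →
      ∀ (w₀ : List (Fin K × ℤˣ)) (M : List (Blk K)),
      (av M fun y => if Ev D P R (w₀ ++ y) then 1 else 0) ≤
        C * (1 + R) ^ 2 * Real.exp (-κ * (M.countP fun s => nb s)) := by
  set N := Module.finrank ℂ (VV K) with hN
  have hN0 : 0 < N := by
    have : Nontrivial (VV K) := inferInstance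
    exact Module.finrank_pos
  set b : ℝ := (1 / 2 : ℝ) ^ N with hb
  have hb0 : 0 < b := by positivity
  obtain ⟨r, hr⟩ : ∃ r : ℝ, r = -Real.log (383 / 384) := ⟨_, rfl⟩
  have hr0 : 0 < r := by
    rw [hr, neg_pos]
    exact Real.log_neg (by norm_num) (by norm_num)
  refine ⟨18 * Real.exp (r * b), r * b / N, by positivity, by positivity, ?_⟩
  intro n D P R hR w₀ M
  set m := M.countP fun s => nb s with hm
  refine (walk_all hG hT h hP D P R hR w₀ M (m / N) (Nat.mul_div_le m N)).trans ?_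
  have e0 : 18 * Real.exp (r * b) * (1 + R) ^ 2 * Real.exp (-(r * b / N) * m) =
      18 * (1 + R) ^ 2 * (Real.exp (r * b) * Real.exp (-(r * b / N) * m)) := by ring
  rw [e0, ← Real.exp_add]
  refine mul_le_mul_of_nonneg_left ?_ (by positivity)
  have h1 : ((383 / 384 : ℝ) ^ (m / N)) ^ b = Real.exp (-(r * b * (m / N : ℕ))) := by
    rw [← Real.rpow_natCast, ← Real.rpow_mul (by norm_num), Real.rpow_def_of_pos (by norm_num)]
    congr 1
    rw [hr]
    ring
  rw [h1]
  apply Real.exp_le_exp.mpr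
  have h2 : (m : ℝ) / N ≤ (m / N : ℕ) + 1 := by
    rw [div_le_iff₀ (by exact_mod_cast hN0)]
    have := Nat.lt_div_mul_add hN0 (a := m)
    have h3 : m ≤ (m / N + 1) * N := by rw [add_mul, one_mul]; exact this.le
    exact_mod_cast h3
  have h4 : r * b / N * m = r * b * (m / N) := by ring
  rw [neg_mul, h4]
  nlinarith [mul_le_mul_of_nonneg_left h2 (mul_pos hr0 hb0).le]

/-! ### counting the signs -/

theorem sum_av (m : ℕ) : ∀ (a b : Fin m → Fin K) (w : Fin m → List (Fin K × ℤˣ))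
    (F : List (Fin K × ℤˣ) → ℝ), ∑ ε : Fin m → ℤˣ × ℤˣ, F (boxWord [] a b w ε) =
      4 ^ m * av (List.ofFn fun j => (a j, b j, w j)) F := by
  induction m with
  | zero =>
    intro a b w F
    rw [Fintype.sum_unique, List.ofFn_zero, pow_zero, one_mul]
    rfl
  | succ m ih =>
    intro a b w F
    rw [← (Fin.consEquiv (fun _ : Fin (m + 1) => ℤˣ × ℤˣ)).sum_comp, Fintype.sum_prod_type,
      List.ofFn_succ]
    show _ = 4 ^ (m + 1) * ((∑ ε : ℤˣ × ℤˣ, av (List.ofFn fun j : Fin m =>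
      (a j.succ, b j.succ, w j.succ)) fun y =>
        F ((a 0, ε.1) :: (b 0, ε.2) :: (w 0 ++ y))) / 4)
    have h1 : ∀ ε : ℤˣ × ℤˣ, av (List.ofFn fun j : Fin m =>
        (a j.succ, b j.succ, w j.succ)) (fun y =>
          F ((a 0, ε.1) :: (b 0, ε.2) :: (w 0 ++ y))) * 4 ^ m =
        ∑ δ : Fin m → ℤˣ × ℤˣ,
          F (boxWord [] a b w ((Fin.consEquiv (fun _ : Fin (m + 1) => ℤˣ × ℤˣ)) (ε, δ))) := by
      intro ε
      rw [mul_comm, ← ih]
      refine Finset.sum_congr rfl fun δ _ => ?_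
      congr 1
      unfold boxWord
      rw [List.nil_append, List.nil_append, List.ofFn_succ, List.flatten_cons]
      rfl
    rw [← Finset.sum_congr rfl fun ε _ => h1 ε, ← Finset.sum_mul, pow_succ]
    ring

theorem boxWord_eq {m : ℕ} (w₀ : List (Fin K × ℤˣ)) (a b : Fin m → Fin K)
    (w : Fin m → List (Fin K × ℤˣ)) (ε : Fin m → ℤˣ × ℤˣ) :
    boxWord w₀ a b w ε = w₀ ++ boxWord [] a b w ε := rfl

theorem card_sum {X : Type} [Fintype X] (p : X → Prop) :
    (Nat.card {x : X // p x} : ℝ) = ∑ x : X, if p x then 1 else 0 := by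
  rw [Nat.card_eq_fintype_card, Fintype.card_subtype, Finset.sum_boole]

theorem card_box (D : Diagram K n) (P : ℤ[T;T⁻¹]) (R : ℝ) {m : ℕ} (w₀ : List (Fin K × ℤˣ))
    (a b : Fin m → Fin K) (w : Fin m → List (Fin K × ℤˣ)) :
    (Nat.card {ε : Fin m → ℤˣ × ℤˣ // Ev D P R (boxWord w₀ a b w ε)} : ℝ) =
      4 ^ m * av (List.ofFn fun j => (a j, b j, w j))
        fun y => if Ev D P R (w₀ ++ y) then 1 else 0 := by
  rw [card_sum, ← sum_av]
  rfl

/-! ### counting all words -/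

/-- The average over the words of length `t`. -/
noncomputable def avw : ℕ → (List (Fin K × ℤˣ) → ℝ) → ℝ
  | 0, F => F []
  | t + 1, F => (∑ l : Fin K × ℤˣ, avw t fun y => F (l :: y)) / (2 * K)

theorem sum_avw (hK : 0 < K) (t : ℕ) : ∀ F : List (Fin K × ℤˣ) → ℝ,
    ∑ w : Fin t → Fin K × ℤˣ, F (List.ofFn w) = (2 * K) ^ t * avw t F := by
  have hK0 : (2 * K : ℝ) ≠ 0 := by
    have : (0 : ℝ) < K := by exact_mod_cast hK
    positivity
  induction t with
  | zero =>
    intro F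
    rw [Fintype.sum_unique, List.ofFn_zero, pow_zero, one_mul]
    rfl
  | succ t ih =>
    intro F
    rw [← (Fin.consEquiv (fun _ : Fin (t + 1) => Fin K × ℤˣ)).sum_comp, Fintype.sum_prod_type]
    show _ = (2 * K : ℝ) ^ (t + 1) * ((∑ l : Fin K × ℤˣ, avw t fun y => F (l :: y)) / (2 * K))
    have h1 : ∀ l : Fin K × ℤˣ, avw t (fun y => F (l :: y)) * (2 * K) ^ t =
        ∑ w : Fin t → Fin K × ℤˣ,
          F (List.ofFn ((Fin.consEquiv (fun _ : Fin (t + 1) => Fin K × ℤˣ)) (l, w))) := by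
      intro l
      rw [mul_comm, ← ih]
      refine Finset.sum_congr rfl fun w _ => ?_
      rw [List.ofFn_succ]
      rfl
    rw [← Finset.sum_congr rfl fun l _ => h1 l, ← Finset.sum_mul, pow_succ]
    field_simp

/-- The average over the positions of `q` pairs of letters. -/
noncomputable def avp : ℕ → (List (Blk K) → ℝ) → ℝ
  | 0, H => H []
  | q + 1, H => (∑ a : Fin K × Fin K, avp q fun M => H ((a.1, a.2, []) :: M)) / (K * K)

theorem avp_sum {ι : Type} (q : ℕ) (s : Finset ι) (c : ℝ) :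
    ∀ H : ι → List (Blk K) → ℝ, avp q (fun M => (∑ i ∈ s, H i M) / c) =
      (∑ i ∈ s, avp q (H i)) / c := by
  induction q with
  | zero => intro H; rfl
  | succ q ih =>
    intro H
    unfold avp
    rw [← Finset.sum_div, Finset.sum_comm, Finset.sum_congr rfl fun a _ => ih _,
      ← Finset.sum_div]
    ring

theorem avp_mono (q : ℕ) : ∀ F G : List (Blk K) → ℝ, (∀ y, F y ≤ G y) →
    avp q F ≤ avp q G := by
  induction q with
  | zero => intro F G h; exact h []
  | succ q ih =>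
    intro F G h
    unfold avp
    exact div_le_div_of_nonneg_right (Finset.sum_le_sum fun ε _ => ih _ _ fun y => h _)
      (by positivity)

theorem avp_mul (q : ℕ) (c : ℝ) : ∀ F : List (Blk K) → ℝ,
    avp q (fun M => c * F M) = c * avp q F := by
  induction q with
  | zero => intro F; rfl
  | succ q ih =>
    intro F
    unfold avp
    rw [Finset.sum_congr rfl fun a _ => ih _, ← Finset.mul_sum, mul_div_assoc]

theorem avw_two (q : ℕ) : ∀ F : List (Fin K × ℤˣ) → ℝ,
    avw (2 * q) F = avp q fun M => av M F := by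
  induction q with
  | zero => intro F; rfl
  | succ q ih =>
    intro F
    rw [show 2 * (q + 1) = 2 * q + 1 + 1 by ring]
    show (∑ l : Fin K × ℤˣ, (∑ l' : Fin K × ℤˣ, avw (2 * q) fun y => F (l :: l' :: y)) /
      (2 * K)) / (2 * K) = (∑ a : Fin K × Fin K, avp q fun M =>
        (∑ ε : ℤˣ × ℤˣ, av M fun y => F ((a.1, ε.1) :: (a.2, ε.2) :: ([] ++ y))) / 4) / (K * K)
    have h1 : ∀ a : Fin K × Fin K, (avp q fun M =>
        (∑ ε : ℤˣ × ℤˣ, av M fun y => F ((a.1, ε.1) :: (a.2, ε.2) :: ([] ++ y))) / 4) =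
        (∑ ε : ℤˣ × ℤˣ, avw (2 * q) fun y => F ((a.1, ε.1) :: (a.2, ε.2) :: y)) / 4 := by
      intro a
      rw [avp_sum q Finset.univ 4 (fun (ε : ℤˣ × ℤˣ) (M : List (Blk K)) =>
        av M fun y => F ((a.1, ε.1) :: (a.2, ε.2) :: ([] ++ y)))]
      congr 1
      refine Finset.sum_congr rfl fun ε _ => ?_
      rw [ih]
      rfl
    rw [Finset.sum_congr rfl fun a _ => h1 a]
    simp only [Fintype.sum_prod_type, ← Finset.sum_div, div_div]
    have h2 : ∀ G : Fin K → ℤˣ → Fin K → ℤˣ → ℝ,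
        ∑ a, ∑ ε, ∑ b, ∑ δ, G a ε b δ = ∑ a, ∑ b, ∑ ε, ∑ δ, G a ε b δ := by
      intro G
      exact Finset.sum_congr rfl fun a _ => Finset.sum_comm
    rw [h2]
    ring

end Pool.RU
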